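import Pool.Agent.W5h58.VL.MemB
import Pool.Agent.W458.MF.Gen10

/-!
# The members of the families: all cases
-/

open CategoryTheory AlgebraicGeometry Polynomial Filter

universe u v w

namespace Pool.Agent.W5h58.VL

open Pool.Agent.H914 Pool.Agent.W534 Pool.Agent.W521.Frob VarClass Obj WeilCohomology
  Pool.Agent.H281R3.HT Pool.Agent.W458.MF Pool.Agent.W290.MF

variable {k : Type u} [Field k] {𝒱 : VarClass k} {ops : CycleOps 𝒱}
  {W : WeilCohomology.{u, v} ops} {Y : 𝒱.Obj} {p : ℕ} {Φ : FrobSystem W p}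
  {I : Type} {σ : W.K →+* ℂ} {P : I → Piece W Y} {m : ℕ} {R : ℤ[X]} {n : ℕ} {δ : ℤˣ}

/-- **The data of the members.** -/
theorem mdata_of {Θ : Th ops} [IsAlgClosed W.K] (H : GSetup Φ σ P m R) (i : I) {e : ℕ}
    (hP : Fam.IsMember (P i) Φ m n e δ)
    (he : e ≠ 0 → (P i).obj.dim = 2 * n ∧ (e = 1 ∨ e = 2))
    (hRH : RiemannHypothesis W (P i).obj (Φ.Fr (P i).obj) (card Φ (P i).obj 1))
    (hY : ∀ y : W.H Y, y ∈ algSpan W Y) {D : (P i).obj.Cycles} (hD : (P i).obj.IsCyc 1 D)
    (hdeg : 0 < (P i).obj.V.degCycle (divPow ops D (P i).obj.dim (P i).obj.V.fundCycle))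
    (hH : Pol.HodgeTypeFor W (P i).obj D (fun x => (e = 0 ∨ (e = 1 ∧ (P i).obj.dim ≠ 2)) →
      ∃ y, x = W.map (P i).mor y))
    (hTate : e = 2 → Pol.RootsIn (W.map (P i).fr).toLinearMap (P i).sub
      ((p : W.K) ^ ((P i).obj.dim * m)) (algSpan W (P i).obj))
    (hform : e = 1 → ∃ (χ : ℤ[X]) (N : ℕ) (G : Matrix (Fin N) (Fin N) ℚ),
      (P i).charpoly = χ.map (Int.castRingHom W.K) ∧ 0 < G.det ∧
        ∀ᶠ j in Θ.F, HasForm (Θ.T j) (P i).mor (P i).fr ((P i).obj.dim / 2)
          (χ.map (Int.castRingHom ℚ)) G) :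
    ∃ v, MData Θ (P i) p m D v := by
  by_cases he0 : e = 0
  · subst he0
    have h0 : ∀ x, IsExt p (P i) m x → x = 0 := fun x hx => ext_zero H i hP hx
    refine ⟨0, mdataA ?_ ?_⟩
    · intro j hj z hz h1 h2
      exact hH j hj z hz (fun _ => alg_range H i h0 hz) h1 h2
    · intro x hx
      rw [h0 x hx]
      exact Submodule.zero_mem _
  obtain ⟨hdim, he12⟩ := he he0
  rcases he12 with rfl | rfl
  · -- one further eigenvalue
    obtain ⟨χ, N, G, hχ, hG, hT⟩ := hform rfl
    have hn : (P i).obj.dim / 2 = n := by omega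
    rw [hn] at hT
    have hχ' : χ = chi p (P i) m n 1 δ := by
      have h1 := hP.charpoly
      rw [hχ] at h1
      exact Polynomial.map_injective _ (RingHom.injective_int _) h1
    subst hχ'
    obtain ⟨w, hw1, hw2, ⟨q, hq, hq'⟩, hw4, hw5⟩ := exists_w H i hP hdim hRH hY hD hdeg hG hT
    have hw0 : w ≠ 0 := by
      rintro rfl
      rw [mul_zero, map_zero, mul_zero] at hq'
      exact hq.ne' (by exact_mod_cast hq'.symm)
    have hww : W.tr (P i).obj (w * w) ≠ 0 := by
      intro h0
      rw [h0, mul_zero] at hq'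
      exact hq.ne' (by exact_mod_cast hq'.symm)
    have hE : ∀ x, IsExt p (P i) m x → ∃ c : W.K, x = c • w := fun x hx =>
      ext_mult H i hP hdim hw1 hw2 hw0 hx
    have hwE : IsExt p (P i) m w := by
      refine ⟨hw1, n, hdim, ?_⟩
      rw [rho] at hw2
      rcases unit_sq δ ((p : ℤ) ^ (n * m)) with h | h
      · left
        rw [hw2, h]
        push_cast
        rfl
      · right
        rw [hw2, h]
        push_cast
        rfl
    have hs := split_of H i hP
    by_cases hcase : (P i).obj.dim = 2 ∧ w ∈ algSpan W (P i).obj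
    · refine ⟨0, mdataA ?_ ?_⟩
      · intro j hj z hz h1 h2
        refine hH j hj z hz ?_ h1 h2
        rintro (h | ⟨-, h⟩)
        · exact absurd h one_ne_zero
        · exact absurd hcase.1 h
      · intro x hx
        obtain ⟨c, rfl⟩ := hE x hx
        exact Submodule.smul_mem _ _ hcase.2
    · have halg : ∀ j z, (P i).obj.IsCyc j z → ∃ y, ∃ c : W.K,
          W.cl (P i).obj z = W.map (P i).mor y + c • w := fun j z hz => alg_range' H i hw2 hE hz
      have hdiv : ∃ y, W.cl (P i).obj D = W.map (P i).mor y := by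
        obtain ⟨y, c, hyc⟩ := halg 1 D hD
        suffices hc : c = 0 by
          exact ⟨y, by rw [hyc, hc, zero_smul, add_zero]⟩
        by_cases hd : (P i).obj.dim = 2
        · by_contra hc
          apply hcase
          refine ⟨hd, ?_⟩
          have h1 : w = c⁻¹ • (W.cl (P i).obj D - W.map (P i).mor y) := by
            rw [hyc, add_sub_cancel_left, smul_smul, inv_mul_cancel₀ hc, one_smul]
          rw [h1]
          refine Submodule.smul_mem _ _ (Submodule.sub_mem _ ?_ ?_)
          · exact Pool.Agent.W536.RR.cl_mem_algSpan hD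
          · exact Pool.Agent.W536.RR.algSpan_map _ (hY y)
        · have h1 : W.tr (P i).obj (W.cl (P i).obj D * w) = 0 := by
            refine W.tr_eq_zero (W.mul_mem (W.cl_mem hD) (hs.deg hw1)) ?_
            omega
          rw [hyc, add_mul, map_add, hs.orth' hw1, zero_add, smul_mul_assoc, map_smul,
            smul_eq_mul] at h1
          exact (mul_eq_zero.1 h1).resolve_right hww
      have hV : VMem Θ W (P i).mor D (P i).sub w n := {
        split := hs
        dim := hdim
        mem := hw1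
        pv := hw4
        sq := hw5
        norm := ⟨q, hq, hq'⟩
        isdiv := hD
        div := hdiv
        algY := hY
        alg := halg }
      exact ⟨w, mdataB hV hwE hE (fun j hj z hz hC h1 h2 => hH j hj z hz (fun _ => hC) h1 h2)⟩
  · -- two further eigenvalues
    have hE : ∀ x, IsExt p (P i) m x → x ∈ algSpan W (P i).obj := by
      rintro x ⟨hx1, r, hr, hx2⟩
      have hsq : ((p : W.K) ^ (r * m)) ^ 2 = (p : W.K) ^ ((P i).obj.dim * m) := by
        rw [hr, ← pow_mul]
        congr 1
        ring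
      rcases hx2 with hx2 | hx2
      · exact hTate rfl x hx1 _ hsq hx2
      · exact hTate rfl x hx1 _ (by rw [neg_sq, hsq]) hx2
    refine ⟨0, mdataA ?_ hE⟩
    intro j hj z hz h1 h2
    refine hH j hj z hz ?_ h1 h2
    rintro (h | ⟨h, -⟩)
    · exact absurd h two_ne_zero
    · exact absurd h (by norm_num)

/-- The external squares of the further eigenvectors are algebraic. -/
lemma MData.extsq {Θ : Th ops} {P : Piece W Y} {D : P.obj.Cycles} {v : W.H P.obj}
    (h : MData Θ P p m D v) {x : W.H P.obj} (hx : IsExt p P m x) :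
    H281R3.HT.ext W x x ∈ algSpan W (P.obj.prod P.obj) := by
  rcases h.pt with h1 | ⟨-, h1⟩
  · exact Pool.Agent.W536.RR.algSpan_mul (Pool.Agent.W536.RR.algSpan_map _ (h1 x hx))
      (Pool.Agent.W536.RR.algSpan_map _ (h1 x hx))
  · obtain ⟨c, rfl⟩ := h1 x hx
    have e : H281R3.HT.ext W (c • v) (c • v) = (c * c) • H281R3.HT.ext W v v := by
      rw [H281R3.HT.ext, map_smul, map_smul, smul_mul_smul_comm]
      rfl
    rw [e]
    refine Submodule.smul_mem _ _ ?_
    exact W552.ASp_algSpan (Submodule.subset_span h.sq)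

end Pool.Agent.W5h58.VL
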