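import Pool.Agent.Y394.ZO.Dens

/-!
# A rational number which is a square in almost all `l`-adic fields is a square
-/

open Filter

namespace Pool.Agent.W5h58.VL

lemma nat_card_lower (N n : ℕ) :
    Nat.primeCounting n ≤ Nat.card {l : ℕ // l ≤ n ∧ l ∈ {l : ℕ | l.Prime ∧ N < l}} + (N + 1) := by
  classical
  have h1 : Nat.card {l : ℕ // l ≤ n ∧ l ∈ {l : ℕ | l.Prime ∧ N < l}} =
      ((Finset.range (n + 1)).filter (fun l => l.Prime ∧ N < l)).card := by
    refine Nat.subtype_card _ fun l => ?_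
    rw [Finset.mem_filter, Finset.mem_range, Nat.lt_succ_iff]
    rfl
  have h2 : Nat.primeCounting n = ((Finset.range (n + 1)).filter Nat.Prime).card :=
    Nat.count_eq_card_filter_range _ _
  rw [h1, h2]
  have h3 : (Finset.range (n + 1)).filter Nat.Prime ⊆
      (Finset.range (n + 1)).filter (fun l => l.Prime ∧ N < l) ∪ Finset.range (N + 1) := by
    intro l hl
    rw [Finset.mem_filter] at hl
    rw [Finset.mem_union, Finset.mem_filter]
    by_cases h : N < l
    · exact Or.inl ⟨hl.1, hl.2, h⟩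
    · exact Or.inr (Finset.mem_range.2 (by omega))
  calc _ ≤ _ := Finset.card_le_card h3
    _ ≤ _ := Finset.card_union_le _ _
    _ = _ := by rw [Finset.card_range]

theorem sq_of_almost {x : ℚ} {N : ℕ} (h : ∀ (l : ℕ) [Fact l.Prime], N < l →
    IsSquare ((x : ℚ) : ℚ_[l])) : IsSquare x := by
  by_contra hx
  have h1 := Pool.Agent.Y394.ZO.dens_le (k := 1) (fun _ => x) (by
    intro I hI
    have h2 : I = {0} := by
      obtain ⟨a, ha⟩ := hI
      have : a = 0 := Subsingleton.elim _ _
      subst this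
      exact Finset.eq_singleton_iff_unique_mem.2 ⟨ha, fun b _ => Subsingleton.elim _ _⟩
    rw [h2, Finset.prod_singleton]
    exact hx) {l : ℕ | l.Prime ∧ N < l} (fun l hl => hl.1) N (by
    intro _ l hl _ _
    exact h l hl.2) (ε := 1 / 4) (by norm_num)
  have h2 : ∀ᶠ n in atTop, 4 * (N + 1) < Nat.primeCounting n :=
    Nat.tendsto_primeCounting.eventually_gt_atTop _
  obtain ⟨n, h3, h4⟩ := (h1.and h2).exists
  have h5 := nat_card_lower N n
  have h6 : (0 : ℝ) < Nat.primeCounting n := by exact_mod_cast (by omega : 0 < Nat.primeCounting n)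
  rw [div_le_iff₀ h6] at h3
  have h7 : (Nat.primeCounting n : ℝ) ≤
      (Nat.card {l : ℕ // l ≤ n ∧ l ∈ {l : ℕ | l.Prime ∧ N < l}} : ℝ) + (N + 1) := by
    exact_mod_cast h5
  have h8 : 4 * ((N : ℝ) + 1) < Nat.primeCounting n := by exact_mod_cast h4
  rw [show (1 : ℝ) / 2 ^ 1 + 1 / 4 = 3 / 4 by norm_num] at h3
  linarith

end Pool.Agent.W5h58.VL
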