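import Pool.Agent.W5h58.VL.VDefs
import Pool.Agent.W5h58.VL.MemC
import Pool.Agent.W5h58.VL.SqA

/-!
# The standard conjecture of Hodge type for all products of almost all members
-/

open CategoryTheory AlgebraicGeometry Polynomial Filter

universe u v w

namespace Pool.Agent.W5h58.VL

open Pool.Agent.H914 Pool.Agent.W534 Pool.Agent.W521.Frob VarClass Obj WeilCohomology
  Pool.Agent.H281R3.HT Pool.Agent.W458.MF Pool.Agent.W290.MF Pool.Agent.W5h58.Lif

variable {k : Type u} [Field k] {𝒱 : VarClass k} {ops : CycleOps 𝒱}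

/-- The theories for the primes different from `p`. -/
noncomputable def thOf (T : ℕ → WeilCohomology.{u, 0} ops) (p : ℕ)
    (hT : ∀ l, l.Prime → l ≠ p → IsPadic (T l).K l) : Th ops where
  ι := ℕ
  T := T
  F := cofinite ⊓ 𝓟 {l : ℕ | l.Prime ∧ l ≠ p}
  sq := by
    intro x hx
    rw [Filter.eventually_inf_principal] at hx
    have h1 : {l : ℕ | ¬ (l ∈ {l : ℕ | l.Prime ∧ l ≠ p} →
        ∃ y : (T l).K, y * y = (x : (T l).K))}.Finite := hx
    obtain ⟨N, hN⟩ := h1.bddAbove
    have h2 : IsSquare x := by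
      refine sq_of_almost (N := max N p) ?_
      intro l hl hlN
      have h3 : ∃ y : (T l).K, y * y = (x : (T l).K) := by
        by_contra hcon
        have h4 : l ≤ N := hN (fun h => hcon (h ⟨hl.1, by
          have := le_max_right N p
          omega⟩))
        have := le_max_left N p
        omega
      obtain ⟨y, hy⟩ := h3
      obtain ⟨φ⟩ := hT l hl.1 (by
        have := le_max_right N p
        omega)
      refine ⟨φ y, ?_⟩
      rw [← map_mul, hy, map_ratCast]
    obtain ⟨r, hr⟩ := h2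
    exact ⟨r, hr.symm⟩

/-- The comparison of the two definitions. -/
lemma hasForm_of {T : WeilCohomology.{u, 0} ops} {X Y : 𝒱.Obj} {mor : X ⟶ Y} {fr : X ⟶ X}
    {χ : ℤ[X]} {N : ℕ} {G : Matrix (Fin N) (Fin N) ℚ}
    (h : ∃ b, IsRealization (T.map mor) (T.push mor) (T.gr X) X.dim (T.map fr) (T.tr X)
      (algSpan T Y) χ G b) :
    HasForm T mor fr (X.dim / 2) (χ.map (Int.castRingHom ℚ)) G := by
  obtain ⟨b, h⟩ := h
  have h2 := h.vanishing
  refine ⟨h.algebraic, _, ⟨h2.generate, fun x hx => h2.degree x hx, h2.kernel⟩, ?_,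
    Module.Basis.span h.independent, ?_⟩
  · rw [h2.charpoly, Polynomial.map_map]
    congr 1
    exact RingHom.ext_int _ _
  · intro i j
    rw [Module.Basis.span_apply, Module.Basis.span_apply]
    exact h.form i j

/-- **The standard conjecture of Hodge type for all products of almost all members.** -/
theorem final_V (W : WeilCohomology.{u, v} ops) [IsAlgClosed W.K] (σ : W.K →+* ℂ) (p : ℕ)
    (hp : p.Prime) (Φ : FrobSystem W p) (T : ℕ → WeilCohomology.{u, 0} ops)
    (hT : ∀ l, l.Prime → l ≠ p → IsPadic (T l).K l) (Y : 𝒱.Obj)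
    (hY : IsAll (algSpan W Y))
    {I : Type} [Fintype I] (F : I → Family W Y) (e : I → ℕ)
    (hF : ∀ i, Pol.HasLargeMonodromy (F i) Φ (e i)) (ε : ℝ) (hε : 0 < ε) :
    ∃ m₀ : ℕ, ∀ m ≥ m₀, ({s : ∀ i, (F i).S m |
        ¬ ∀ D : ∀ i, ((F i).member m (s i)).obj.Cycles,
          (∀ i, IsPolarization T ((F i).member m (s i)) Φ m (e i) (D i)) →
            Pol.HodgeTypeForProducts W fun i =>
              ⟨((F i).member m (s i)).obj, D i⟩}.ncard : ℝ) ≤
      ε * ∏ i, (Nat.card ((F i).S m) : ℝ) := by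
  classical
  have hF' := fun i => largeMonodromy_of_pol (hF i)
  choose d n g l₀ δ D π hF using hF'
  have hYp : ∀ Z, IsProductOf {Y} Z → ∀ j ≤ Z.dim, SemisimpleTateIn Φ Z j :=
    fun Z hZ j _ => tate_of_alg (alg_products hY Z hZ) j
  obtain ⟨R, m₀, h⟩ := mixed_setup2 (σ := σ) W216.MF.sieve
    (W806.MF.dens W337.MF.orb W366.MF.winj W205.MF.cnt) st_odens st_edens W976.MF.SPL
    W216.MF.uni st_nt2 hp (integral_of_alg hY) F d n g e l₀ δ D π hF ε hε
  refine ⟨m₀, fun m hm => le_trans ?_ (h m hm)⟩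
  refine Nat.cast_le.2 (Set.ncard_le_ncard ?_ (Set.toFinite _))
  intro s hs H
  refine hs fun D hD => ?_
  set Θ := thOf T p hT with hΘ
  have heven : ∀ i, e i ≠ 0 → ((F i).member m (s i)).obj.dim = 2 * n i ∧
      (e i = 1 ∨ e i = 2) := by
    intro i he
    rw [(hF i).dim m (s i)]
    rcases (hF i).law with ⟨h0, -⟩ | ⟨h0, -⟩ | ⟨h0, hd, -⟩
    · exact absurd h0 he
    · exact absurd h0 he
    · exact ⟨hd, h0⟩
  have hRH : ∀ i, RiemannHypothesis W ((F i).member m (s i)).obj
      (Φ.Fr ((F i).member m (s i)).obj) (card Φ ((F i).member m (s i)).obj 1) := by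
    intro i
    rw [card, mul_one]
    exact (hD i).rh
  have hmd : ∀ i, ∃ v, MData Θ ((F i).member m (s i)) p m (D i) v := by
    intro i
    refine mdata_of (P := fun i => (F i).member m (s i)) H i ((hF i).isMember m H.hm (s i))
      (heven i) (hRH i) hY (hD i).div (hD i).degree (hD i).hodge ?_ ?_
    · intro he x hx ρ hρ hρ2
      refine (hD i).tate he x hx ρ ?_ hρ2
      rw [hρ, Nat.cast_pow]
    intro he
    obtain ⟨χ, N, G, hχ, hG, hfin⟩ := (hD i).form he
    refine ⟨χ, N, G, hχ, hG, ?_⟩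
    change ∀ᶠ j in cofinite ⊓ 𝓟 {l : ℕ | l.Prime ∧ l ≠ p}, _
    rw [Filter.eventually_inf_principal]
    refine Set.Finite.subset hfin ?_
    intro l hl
    rw [Set.mem_compl_iff, Set.mem_setOf_eq] at hl
    push Not at hl
    exact ⟨hl.1.1, hl.1.2, fun hr => hl.2 (hasForm_of hr)⟩
  choose v hv using hmd
  have hdD : ∀ Z, IsProductOf ({Y} ∪ Set.range fun i => ((F i).member m (s i)).obj) Z →
      HomEqNum W Z := by
    intro Z hZ
    refine G.gd_products W397.MF.pair W40.MF.span W839.MF.dfin H hYp ?_ Z hZ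
    intro i x hx
    exact (hv i).extsq hx
  have hB : ∀ i, LefschetzB W ((F i).member m (s i)).obj (D i) := by
    intro i
    have hi : IsProductOf ({Y} ∪ Set.range fun i => ((F i).member m (s i)).obj)
        ((F i).member m (s i)).obj := IsProductOf.base (Or.inr ⟨i, rfl⟩)
    have h3 := H447.d_tfae (W := W) (hD i).div (hD i).hardLef
    have h4 := (h3.out 0 2).1 (hdD _ (IsProductOf.prod hi hi))
    exact h4.2
  intro n a j hj z hz _ h1 h2
  exact (hodge_products (P := fun i => (F i).member m (s i)) H hY (fun i => (hD i).div)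
    (fun i => (hD i).degree) (fun i => (hD i).hardLef) hB hRH hv n a).1 j hj z hz h1 h2

end Pool.Agent.W5h58.VL
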