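import Pool.Agent.W552.Nest

/-!
# Virtual classes: cohomology classes whose external square is algebraic, in a family of theories
-/

open CategoryTheory AlgebraicGeometry

universe u v w

namespace Pool.Agent.W5h58.VL

open Pool.Agent.H914 Pool.Agent.H914.VarClass Pool.Agent.H914.VarClass.Obj
  Pool.Agent.H914.WeilCohomology Pool.Agent.H281R3.HT Pool.Agent.H447 Pool.Agent.W552

variable {k : Type u} [Field k] {𝒱 : VarClass k} {ops : CycleOps 𝒱}

/-- A family of Weil cohomology theories such that a rational number which is a square in the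
coefficient fields of almost all the theories is a square. -/
structure Th (ops : CycleOps 𝒱) where
  ι : Type
  T : ι → WeilCohomology.{u, 0} ops
  F : Filter ι
  sq : ∀ x : ℚ, (∀ᶠ i in F, ∃ y : (T i).K, y * y = (x : (T i).K)) → ∃ r : ℚ, r * r = x

section Even

variable (W : WeilCohomology.{u, v} ops)

/-- The classes of even degree. -/
def Ev (X : 𝒱.Obj) : Submodule W.K (W.H X) := ⨆ j : ℕ, W.gr X (2 * j)

variable {W} {X Y : 𝒱.Obj}

lemma Ev.of {j : ℕ} {x : W.H X} (hx : x ∈ W.gr X (2 * j)) : x ∈ Ev W X :=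
  Submodule.mem_iSup_of_mem j hx

lemma Ev.ind {p : W.H X → Prop} (h0 : p 0) (h1 : ∀ j : ℕ, ∀ x ∈ W.gr X (2 * j), p x)
    (h2 : ∀ x y, p x → p y → p (x + y)) {x : W.H X} (hx : x ∈ Ev W X) : p x :=
  Submodule.iSup_induction (fun j : ℕ => W.gr X (2 * j)) (motive := p) hx h1 h0 h2

lemma Ev.comm {x : W.H X} (hx : x ∈ Ev W X) (y : W.H X) : x * y = y * x := by
  refine Ev.ind (p := fun x => x * y = y * x) ?_ ?_ ?_ hx
  · rw [zero_mul, mul_zero]
  · intro j x hx
    exact W.even_comm hx y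
  · intro a b ha hb
    rw [add_mul, mul_add, ha, hb]

lemma Ev.mul {x y : W.H X} (hx : x ∈ Ev W X) (hy : y ∈ Ev W X) : x * y ∈ Ev W X := by
  refine Ev.ind (p := fun x => x * y ∈ Ev W X) ?_ ?_ ?_ hx
  · rw [zero_mul]; exact Submodule.zero_mem _
  · intro j x hx
    refine Ev.ind (p := fun y => x * y ∈ Ev W X) ?_ ?_ ?_ hy
    · rw [mul_zero]; exact Submodule.zero_mem _
    · intro i y hy
      have := W.mul_mem hx hy
      rw [← mul_add] at this
      exact Ev.of this
    · intro a b ha hb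
      rw [mul_add]; exact Submodule.add_mem _ ha hb
  · intro a b ha hb
    rw [add_mul]; exact Submodule.add_mem _ ha hb

lemma Ev.map (g : X ⟶ Y) {x : W.H Y} (hx : x ∈ Ev W Y) : W.map g x ∈ Ev W X := by
  refine Ev.ind (p := fun x => W.map g x ∈ Ev W X) ?_ ?_ ?_ hx
  · rw [map_zero]; exact Submodule.zero_mem _
  · intro j x hx
    exact Ev.of (W.map_mem g hx)
  · intro a b ha hb
    rw [map_add]; exact Submodule.add_mem _ ha hb

lemma Ev.par {x : W.H X} (hx : x ∈ Ev W X) : H914.par (W.isInternal X) x = x := by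
  refine Ev.ind (p := fun x => H914.par (W.isInternal X) x = x) ?_ ?_ ?_ hx
  · rw [map_zero]
  · intro j y hy
    rw [H914.par, scal_apply _ _ hy, pow_mul]
    simp
  · intro y y' hy hy'
    rw [map_add, hy, hy']

/-- External products. -/
lemma ext_mul_ext {x x' : W.H X} {y y' : W.H Y} (hx' : x' ∈ Ev W X) :
    ext W x y * ext W x' y' = ext W (x * x') (y * y') := by
  unfold ext
  rw [map_mul, map_mul, mul_assoc, ← mul_assoc (W.map (snd X Y) y) (W.map (fst X Y) x'),
    ← Ev.comm (Ev.map _ hx'), mul_assoc, mul_assoc]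

end Even

section UA

variable (Θ : Th ops) (W : WeilCohomology.{u, v} ops)

/-- Sums of classes of cycles, in all the theories at the same time. -/
def UA (X : 𝒱.Obj) (x : W.H X) (y : ∀ i, (Θ.T i).H X) : Prop :=
  ((x, y) : W.H X × (∀ i, (Θ.T i).H X)) ∈ AddSubmonoid.closure
    {c : W.H X × (∀ i, (Θ.T i).H X) | ∃ j z, X.IsCyc j z ∧
      c = (W.cl X z, fun i => (Θ.T i).cl X z)}

variable {Θ W} {X Y : 𝒱.Obj}

namespace UA

lemma of {j : ℕ} {z : X.Cycles} (hz : X.IsCyc j z) :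
    UA Θ W X (W.cl X z) (fun i => (Θ.T i).cl X z) :=
  AddSubmonoid.subset_closure ⟨j, z, hz, rfl⟩

lemma zero : UA Θ W X 0 0 := AddSubmonoid.zero_mem _

lemma add {x x' : W.H X} {y y' : ∀ i, (Θ.T i).H X} (h : UA Θ W X x y) (h' : UA Θ W X x' y') :
    UA Θ W X (x + x') (y + y') := AddSubmonoid.add_mem _ h h'

@[elab_as_elim]
lemma ind {p : W.H X → (∀ i, (Θ.T i).H X) → Prop}
    (h1 : ∀ j z, X.IsCyc j z → p (W.cl X z) (fun i => (Θ.T i).cl X z))
    (h2 : ∀ x y x' y', p x y → p x' y' → p (x + x') (y + y')) {x : W.H X}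
    {y : ∀ i, (Θ.T i).H X} (h : UA Θ W X x y) : p x y := by
  have key : ∀ c ∈ AddSubmonoid.closure {c : W.H X × (∀ i, (Θ.T i).H X) | ∃ j z, X.IsCyc j z ∧
      c = (W.cl X z, fun i => (Θ.T i).cl X z)}, p c.1 c.2 := by
    intro c hc
    induction hc using AddSubmonoid.closure_induction with
    | mem c hc =>
      obtain ⟨j, z, hz, rfl⟩ := hc
      exact h1 j z hz
    | zero =>
      have := h1 0 0 (SmVar.IsCyc.zero _ _)
      simp only [map_zero] at this
      exact this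
    | add x y _ _ hx hy => exact h2 _ _ _ _ hx hy
  exact key (x, y) h

lemma smul (q : ℚ) {x : W.H X} {y : ∀ i, (Θ.T i).H X} (h : UA Θ W X x y) :
    UA Θ W X ((q : W.K) • x) (fun i => (q : (Θ.T i).K) • y i) := by
  refine ind (p := fun x y => UA Θ W X ((q : W.K) • x) (fun i => (q : (Θ.T i).K) • y i))
    ?_ ?_ h
  · intro j z hz
    have := of (Θ := Θ) (W := W) (hz.smul q)
    simp only [WeilCohomology.cl_smul] at this
    exact this
  · intro x y x' y' hx hx'
    have := hx.add hx'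
    rw [smul_add]
    convert this using 1
    funext i
    rw [Pi.add_apply, Pi.add_apply, smul_add]

lemma mul {x x' : W.H X} {y y' : ∀ i, (Θ.T i).H X} (h : UA Θ W X x y) (h' : UA Θ W X x' y') :
    UA Θ W X (x * x') (fun i => y i * y' i) := by
  refine ind (p := fun x y => UA Θ W X (x * x') (fun i => y i * y' i)) ?_ ?_ h
  · intro j z hz
    refine ind (p := fun x' y' => UA Θ W X (W.cl X z * x') (fun i => (Θ.T i).cl X z * y' i))
      ?_ ?_ h'
    · intro j' z' hz'
      have := of (Θ := Θ) (W := W) (ops.mul_mem hz hz')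
      simp only [WeilCohomology.cl_mul] at this
      exact this
    · intro a b a' b' ha ha'
      have := ha.add ha'
      rw [mul_add]
      convert this using 1
      funext i
      rw [Pi.add_apply, Pi.add_apply, mul_add]
  · intro a b a' b' ha ha'
    have := ha.add ha'
    rw [add_mul]
    convert this using 1
    funext i
    rw [Pi.add_apply, Pi.add_apply, add_mul]

lemma map (g : X ⟶ Y) {x : W.H Y} {y : ∀ i, (Θ.T i).H Y} (h : UA Θ W Y x y) :
    UA Θ W X (W.map g x) (fun i => (Θ.T i).map g (y i)) := by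
  refine ind (p := fun x y => UA Θ W X (W.map g x) (fun i => (Θ.T i).map g (y i))) ?_ ?_ h
  · intro j z hz
    have := of (Θ := Θ) (W := W) (ops.pull_mem g hz)
    simp only [WeilCohomology.cl_pull] at this
    exact this
  · intro a b a' b' ha ha'
    have := ha.add ha'
    rw [map_add]
    convert this using 1
    funext i
    rw [Pi.add_apply, Pi.add_apply, map_add]

lemma tr {x : W.H X} {y : ∀ i, (Θ.T i).H X} (h : UA Θ W X x y) :
    ∃ q : ℚ, W.tr X x = q ∧ ∀ i, (Θ.T i).tr X (y i) = q := by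
  refine ind (p := fun x y => ∃ q : ℚ, W.tr X x = q ∧ ∀ i, (Θ.T i).tr X (y i) = q) ?_ ?_ h
  · intro j z hz
    by_cases hj : j = X.dim
    · subst hj
      exact ⟨X.V.degCycle z, W.tr_cl hz, fun i => (Θ.T i).tr_cl hz⟩
    · refine ⟨0, ?_, fun i => ?_⟩
      · rw [W.tr_eq_zero (W.cl_mem hz) (by omega)]; simp
      · rw [(Θ.T i).tr_eq_zero ((Θ.T i).cl_mem hz) (by omega)]; simp
  · rintro a b a' b' ⟨q, h1, h2⟩ ⟨q', h1', h2'⟩
    refine ⟨q + q', by rw [map_add, h1, h1', Rat.cast_add], fun i => ?_⟩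
    rw [Pi.add_apply, map_add, h2, h2', Rat.cast_add]

end UA

end UA

section PV

variable (Θ : Th ops) (W : WeilCohomology.{u, v} ops)

/-- A pure virtual class: a homogeneous class of even degree whose external square is an algebraic
class which in almost all the theories of the family is the external square of a class. -/
def PV (X : 𝒱.Obj) (x : W.H X) : Prop :=
  (∃ j : ℕ, x ∈ W.gr X (2 * j)) ∧ ∃ y, UA Θ W (X.prod X) (ext W x x) y ∧
    ∀ᶠ i in Θ.F, ∃ t ∈ Ev (Θ.T i) X, y i = ext (Θ.T i) t t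

variable {Θ W} {X Y : 𝒱.Obj}

namespace PV

lemma ev {x : W.H X} (h : PV Θ W X x) : x ∈ Ev W X := by
  obtain ⟨⟨j, hj⟩, -⟩ := h
  exact Ev.of hj

lemma of {j : ℕ} {x : W.H X} (hx : x ∈ algClasses W X j) : PV Θ W X x := by
  obtain ⟨z, hz, rfl⟩ := hx
  refine ⟨⟨j, W.cl_mem hz⟩, fun i => ext (Θ.T i) ((Θ.T i).cl X z) ((Θ.T i).cl X z), ?_,
    Filter.Eventually.of_forall fun i => ⟨_, Ev.of ((Θ.T i).cl_mem hz), rfl⟩⟩
  exact ((UA.of (Θ := Θ) (W := W) hz).map (fst X X)).mul ((UA.of hz).map (snd X X))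

lemma smul (q : ℚ) {x : W.H X} (h : PV Θ W X x) : PV Θ W X ((q : W.K) • x) := by
  obtain ⟨⟨j, h0⟩, y, h1, h2⟩ := h
  refine ⟨⟨j, Submodule.smul_mem _ _ h0⟩, fun i => ((q * q : ℚ) : (Θ.T i).K) • y i, ?_, ?_⟩
  · have := h1.smul (q * q)
    convert this using 1
    unfold ext
    rw [map_smul, map_smul, smul_mul_smul_comm, Rat.cast_mul]
  · filter_upwards [h2] with i hi
    obtain ⟨t, ht, hti⟩ := hi
    refine ⟨(q : (Θ.T i).K) • t, Submodule.smul_mem _ _ ht, ?_⟩
    rw [hti]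
    unfold ext
    rw [map_smul, map_smul, smul_mul_smul_comm, Rat.cast_mul]

lemma mul {x x' : W.H X} (h : PV Θ W X x) (h' : PV Θ W X x') : PV Θ W X (x * x') := by
  obtain ⟨⟨j, h0⟩, y, h1, h2⟩ := h
  obtain ⟨⟨j', h0'⟩, y', h1', h2'⟩ := h'
  refine ⟨⟨j + j', by rw [mul_add]; exact W.mul_mem h0 h0'⟩, fun i => y i * y' i, ?_, ?_⟩
  · have := h1.mul h1'
    rwa [ext_mul_ext (Ev.of h0')] at this
  · filter_upwards [h2, h2'] with i hi hi'
    obtain ⟨t, ht, hti⟩ := hi
    obtain ⟨t', ht', hti'⟩ := hi'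
    exact ⟨t * t', Ev.mul ht ht', by rw [hti, hti', ext_mul_ext ht']⟩

lemma map (g : X ⟶ Y) {x : W.H Y} (h : PV Θ W Y x) : PV Θ W X (W.map g x) := by
  obtain ⟨⟨j, h0⟩, y, h1, h2⟩ := h
  have e1 : Obj.lift (fst X X ≫ g) (snd X X ≫ g) ≫ fst Y Y = fst X X ≫ g := Obj.lift_fst _ _
  have e2 : Obj.lift (fst X X ≫ g) (snd X X ≫ g) ≫ snd Y Y = snd X X ≫ g := Obj.lift_snd _ _
  refine ⟨⟨j, W.map_mem g h0⟩, fun i => (Θ.T i).map (Obj.lift (fst X X ≫ g) (snd X X ≫ g)) (y i),
    ?_, ?_⟩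
  · have := h1.map (Obj.lift (fst X X ≫ g) (snd X X ≫ g))
    convert this using 1
    unfold ext
    rw [map_mul, ← W.map_comp, ← W.map_comp, ← W.map_comp, ← W.map_comp, e1, e2]
  · filter_upwards [h2] with i hi
    obtain ⟨t, ht, hti⟩ := hi
    refine ⟨(Θ.T i).map g t, Ev.map g ht, ?_⟩
    rw [hti]
    unfold ext
    rw [map_mul, ← (Θ.T i).map_comp, ← (Θ.T i).map_comp, ← (Θ.T i).map_comp,
      ← (Θ.T i).map_comp, e1, e2]

/-- **The trace of a virtual class is rational.** -/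
lemma tr {x : W.H X} (h : PV Θ W X x) : ∃ q : ℚ, W.tr X x = q := by
  obtain ⟨h0, y, h1, h2⟩ := h
  obtain ⟨q, hq, hq'⟩ := h1.tr
  unfold ext at hq
  rw [W.tr_prod] at hq
  obtain ⟨r, hr⟩ := Θ.sq q (by
    filter_upwards [h2] with i hi
    obtain ⟨t, ht, hti⟩ := hi
    have := hq' i
    rw [hti] at this
    unfold ext at this
    rw [(Θ.T i).tr_prod] at this
    exact ⟨_, this⟩)
  have h3 : (W.tr X x - (r : W.K)) * (W.tr X x + (r : W.K)) = 0 := by
    have h4 : (q : W.K) = (r : W.K) * r := by rw [← hr]; push_cast; rfl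
    rw [h4] at hq
    linear_combination hq
  rcases mul_eq_zero.1 h3 with h | h
  · exact ⟨r, sub_eq_zero.1 h⟩
  · exact ⟨-r, by rw [Rat.cast_neg]; exact eq_neg_of_add_eq_zero_left h⟩

end PV

variable (Θ W) in
/-- Virtual classes: sums of pure virtual classes. -/
def AV (X : 𝒱.Obj) (x : W.H X) : Prop := x ∈ AddSubmonoid.closure {x | PV Θ W X x}

namespace AV

lemma of {x : W.H X} (hx : PV Θ W X x) : AV Θ W X x := AddSubmonoid.subset_closure hx

lemma zero : AV Θ W X 0 := AddSubmonoid.zero_mem _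

lemma add {x y : W.H X} (hx : AV Θ W X x) (hy : AV Θ W X y) : AV Θ W X (x + y) :=
  AddSubmonoid.add_mem _ hx hy

@[elab_as_elim]
lemma ind {p : W.H X → Prop} (h0 : p 0) (h1 : ∀ x, PV Θ W X x → p x)
    (h2 : ∀ x y, p x → p y → p (x + y)) {x : W.H X} (hx : AV Θ W X x) : p x := by
  induction hx using AddSubmonoid.closure_induction with
  | mem x hx => exact h1 x hx
  | zero => exact h0
  | add x y _ _ hx hy => exact h2 x y hx hy

lemma of_AS {x : W.H X} (hx : AS W X x) : AV Θ W X x := by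
  refine AS.ind (p := fun x => AV Θ W X x) ?_ ?_ hx
  · intro j x hx
    exact of (PV.of hx)
  · intro x y hx hy
    exact hx.add hy

lemma smul (q : ℚ) {x : W.H X} (hx : AV Θ W X x) : AV Θ W X ((q : W.K) • x) := by
  refine ind (p := fun x => AV Θ W X ((q : W.K) • x)) ?_ ?_ ?_ hx
  · rw [smul_zero]; exact zero
  · intro x hx; exact of (hx.smul q)
  · intro x y hx hy; rw [smul_add]; exact hx.add hy

lemma ratSub : RatSub W.K (AV Θ W X) where
  zero := zero
  add := add
  smul q _ hx := smul q hx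

lemma mul {x y : W.H X} (hx : AV Θ W X x) (hy : AV Θ W X y) : AV Θ W X (x * y) := by
  refine ind (p := fun x => AV Θ W X (x * y)) ?_ ?_ ?_ hx
  · rw [zero_mul]; exact zero
  · intro x hx
    refine ind (p := fun y => AV Θ W X (x * y)) ?_ ?_ ?_ hy
    · rw [mul_zero]; exact zero
    · intro y hy; exact of (hx.mul hy)
    · intro a b ha hb; rw [mul_add]; exact ha.add hb
  · intro a b ha hb; rw [add_mul]; exact ha.add hb

lemma map (g : X ⟶ Y) {x : W.H Y} (hx : AV Θ W Y x) : AV Θ W X (W.map g x) := by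
  refine ind (p := fun x => AV Θ W X (W.map g x)) ?_ ?_ ?_ hx
  · rw [map_zero]; exact zero
  · intro x hx; exact of (hx.map g)
  · intro a b ha hb; rw [map_add]; exact ha.add hb

lemma ext {x : W.H X} {y : W.H Y} (hx : AV Θ W X x) (hy : AV Θ W Y y) :
    AV Θ W (X.prod Y) (ext W x y) := (hx.map _).mul (hy.map _)

lemma ev {x : W.H X} (hx : AV Θ W X x) : x ∈ Ev W X := by
  refine ind (p := fun x => x ∈ Ev W X) ?_ ?_ ?_ hx
  · exact Submodule.zero_mem _
  · intro x hx; exact hx.ev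
  · intro a b ha hb; exact Submodule.add_mem _ ha hb

lemma tr {x : W.H X} (hx : AV Θ W X x) : ∃ q : ℚ, W.tr X x = q := by
  refine ind (p := fun x => ∃ q : ℚ, W.tr X x = q) ?_ ?_ ?_ hx
  · exact ⟨0, by simp⟩
  · intro x hx; exact hx.tr
  · rintro a b ⟨q, hq⟩ ⟨r, hr⟩
    exact ⟨q + r, by rw [map_add, hq, hr, Rat.cast_add]⟩

/-- The pairing of a virtual class with the image of a virtual class under an algebraic
correspondence is rational. -/
lemma tr_corr {x : W.H X} {y : W.H Y} (hx : AV Θ W X x) (hy : AV Θ W Y y)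
    {u : W.H X →ₗ[W.K] W.H Y} (hu : AOp W X Y u) : ∃ q : ℚ, W.tr Y (y * u x) = q := by
  obtain ⟨c, hc, rfl⟩ := hu
  obtain ⟨q, hq⟩ := (((of_AS (Θ := Θ) hc).mul (hx.map (fst X Y))).mul (hy.map (snd X Y))).tr
  refine ⟨q, ?_⟩
  rw [Ev.comm hy.ev, corr_apply, W.tr_push]
  exact hq

end AV

/-- The form is rational on virtual classes. -/
lemma bf_ratV {D : X.Cycles} {f : Module.End W.K (W.H X)} (F : Fr W X D f) {x y : W.H X}
    (hx : AV Θ W X x) (hy : AV Θ W X y) : ∃ q : ℚ, bf W X D f x y = q := by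
  refine AV.ind (p := fun y => ∃ q : ℚ, bf W X D f x y = q) ?_ ?_ ?_ hy
  · exact ⟨0, by simp⟩
  · intro y hy
    obtain ⟨j, hj⟩ := hy.1
    obtain ⟨q, hq⟩ := (AV.of hy).tr_corr hx F.wop_aop
    refine ⟨sg (2 * j) * q, ?_⟩
    rw [bf_apply, st_apply hj, mul_smul_comm, map_smul, hq, smul_eq_mul]
    push_cast
    rfl
  · rintro a b ⟨q, hq⟩ ⟨r, hr⟩
    exact ⟨q + r, by rw [map_add, hq, hr, Rat.cast_add]⟩

lemma bf_symmV {D : X.Cycles} {f : Module.End W.K (W.H X)} (h : Sy W X D f) {x y : W.H X}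
    (hy : AV Θ W X y) : bf W X D f x y = bf W X D f y x := by
  rw [h x y, Ev.par hy.ev]

end PV

end Pool.Agent.W5h58.VL
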