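import Pool.Agent.W552.Core
import Pool.Agent.W5h58.VL.Virt

/-!
# Antilinear data over a larger countable field, and real classes whose squares are in the system
-/

open CategoryTheory AlgebraicGeometry
open scoped ComplexOrder

universe u v w

namespace Pool.Agent.W5h58.VL

open Pool.Agent.H914 Pool.Agent.H914.VarClass Pool.Agent.H914.VarClass.Obj
  Pool.Agent.H914.WeilCohomology Pool.Agent.H281R3.HT Pool.Agent.H447 Pool.Agent.W552
  Pool.Agent.W552.RSys

variable {k : Type u} [Field k] {𝒱 : VarClass k} {ops : CycleOps 𝒱}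
  {W : WeilCohomology.{u, v} ops}
  {Λ : Type} {X : Λ → 𝒱.Obj} {D : ∀ a, (X a).Cycles}
  {f : ∀ a, Module.End W.K (W.H (X a))} {R : ∀ a b, W.H ((X a).prod (X b)) → Prop}
  [Fintype Λ] [DecidableEq Λ]

/-- **Existence of the antilinear data.** -/
theorem exists_anti' (S : RSys W X D f R) (b : ∀ a, HB W (X a)) {S' : Set W.K}
    (hS' : S'.Countable) : ∃ F σ C B, Anti W b D f R F σ C B ∧ S' ⊆ F := by
  have P := S.posSys b
  obtain ⟨F, σ, C, B₀, hF1, hB₀, hC, hpos, hreal⟩ := P.exists_conj hS'
  set ι : F →+* W.K := F.subtype with hι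
  have hιi : Function.Injective (ι.mapMatrix : Matrix (Ix b) (Ix b) F → _) := by
    intro A A' hAA
    ext i j
    have := congrFun (congrFun hAA i) j
    exact this
  have hoffB : ∀ {a c : Λ} (p : Fin (b a).N) (q : Fin (b c).N), a ≠ c →
      B₀ (⟨a, p⟩ : Ix b) (⟨c, q⟩ : Ix b) = 0 := by
    intro a c p q hac
    have := congrFun (congrFun hB₀ (⟨a, p⟩ : Ix b)) (⟨c, q⟩ : Ix b)
    rw [Matrix.blockDiagonal'_apply_ne _ _ _ hac] at this
    exact (map_eq_zero ι).1 this
  -- the projections
  have hoffC : ∀ {a c : Λ} (p : Fin (b a).N) (q : Fin (b c).N), a ≠ c →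
      C (⟨a, p⟩ : Ix b) (⟨c, q⟩ : Ix b) = 0 := by
    intro a c p q hac
    set A : Matrix (Ix b) (Ix b) F := Matrix.diagonal (fun x => if x.1 = a then 1 else 0) with hA
    have hE : ∀ a' c', RO R a' c' (blk b (ι.mapMatrix A) a' c') := by
      intro a' c'
      have h1 : blk b (ι.mapMatrix A) a' c' = if a' = a then blk b 1 a' c' else 0 := by
        apply (b a').e.ext
        intro r
        by_cases ha : a' = a
        · rw [if_pos ha, blk_apply, blk_apply]
          apply Finset.sum_congr rfl
          intro q _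
          congr 1
          rw [hA]
          by_cases hqr : (⟨c', q⟩ : Ix b) = ⟨a', r⟩
          · rw [hqr]; simp [ha]
          · simp [Matrix.diagonal_apply_ne _ hqr, Matrix.one_apply_ne hqr]
        · rw [if_neg ha, blk_apply, LinearMap.zero_apply]
          apply Finset.sum_eq_zero
          intro q _
          have h2 : (ι.mapMatrix A) (⟨c', q⟩ : Ix b) (⟨a', r⟩ : Ix b) = 0 := by
            rw [hA]
            by_cases hqr : (⟨c', q⟩ : Ix b) = ⟨a', r⟩
            · rw [hqr]; simp [ha]
            · simp [Matrix.diagonal_apply_ne _ hqr]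
          rw [h2, zero_smul]
      rw [h1]
      split_ifs with h2
      · exact P.one a' c'
      · exact (S.ro_rat a' c').zero
    obtain ⟨A₀, h1, h2⟩ := hreal _ hE
    obtain rfl : A₀ = A := hιi h1
    have h3 := congrFun (congrFun h2 (⟨a, p⟩ : Ix b)) (⟨c, q⟩ : Ix b)
    have h4 : σ.mapMatrix A = Matrix.diagonal (fun x => if x.1 = a then 1 else 0) := by
      ext i j
      by_cases hij : i = j
      · subst hij; rw [hA]; simp [apply_ite σ]
      · rw [hA]; simp [Matrix.diagonal_apply_ne _ hij]
    have h5 : cj (σ.mapMatrix A) = Matrix.diagonal (fun x => if x.1 = a then 1 else 0) := by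
      rw [h4]
      ext i j
      by_cases hij : i = j
      · subst hij; simp [cj, apply_ite]
      · simp [cj, Matrix.diagonal_apply_ne _ hij]
    rw [h5, h4, Matrix.diagonal_mul, Matrix.mul_diagonal] at h3
    simpa [Ne.symm hac] using h3
  -- the signs
  have hepsι : ι.mapMatrix (Matrix.diagonal (fun x : Ix b => (eps b x : F))) =
      Matrix.diagonal (fun x => (eps b x : W.K)) := by
    ext i j
    by_cases hij : i = j
    · subst hij; simp
    · simp [Matrix.diagonal_apply_ne _ hij]
  have hepsσ : σ.mapMatrix (Matrix.diagonal (fun x : Ix b => (eps b x : F))) =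
      Matrix.diagonal (fun x => (eps b x : ℂ)) := by
    ext i j
    by_cases hij : i = j
    · subst hij; simp
    · simp [Matrix.diagonal_apply_ne _ hij]
  have hcε : cj (Matrix.diagonal (fun x : Ix b => (eps b x : ℂ))) =
      Matrix.diagonal (fun x => (eps b x : ℂ)) := by
    ext i j
    by_cases hij : i = j
    · subst hij; simp [cj]
    · simp [cj, Matrix.diagonal_apply_ne _ hij]
  have hεC : Matrix.diagonal (fun x : Ix b => (eps b x : ℂ)) * C =
      C * Matrix.diagonal (fun x => (eps b x : ℂ)) := by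
    obtain ⟨A₀, h1, h2⟩ := hreal _ P.epsE
    obtain rfl : A₀ = Matrix.diagonal (fun x : Ix b => (eps b x : F)) :=
      hιi (by rw [h1, hepsι])
    rw [hepsσ, hcε] at h2
    exact h2
  have hBT₀ : B₀.transpose = B₀ * Matrix.diagonal (fun x : Ix b => (eps b x : F)) := by
    apply hιi
    rw [map_mul, hB₀, hepsι, ← P.hBT, ← hB₀]
    rfl
  have hεB₀ : Matrix.diagonal (fun x : Ix b => (eps b x : F)) * B₀ =
      B₀ * Matrix.diagonal (fun x : Ix b => (eps b x : F)) := by
    apply hιi
    rw [map_mul, map_mul, hB₀, hepsι, P.hεB]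
  have hdet : B₀.det ≠ 0 := by
    intro h0
    have h1 := (Matrix.isUnit_iff_isUnit_det _).1 P.hB
    rw [← hB₀, ← RingHom.map_det, h0, map_zero] at h1
    exact not_isUnit_zero h1
  have hBu₀ : IsUnit B₀ := by
    rw [Matrix.isUnit_iff_isUnit_det]
    exact isUnit_iff_ne_zero.2 hdet
  have hsumC : ∀ (c : Λ) (q : Fin (b c).N) (φ : Ix b → ℂ), ∑ y, C (⟨c, q⟩ : Ix b) y * φ y =
      ∑ q' : Fin (b c).N, C (⟨c, q⟩ : Ix b) (⟨c, q'⟩ : Ix b) * φ ⟨c, q'⟩ := by
    intro c q φ
    rw [Fintype.sum_sigma, Finset.sum_eq_single c]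
    · intro c' _ hc'
      apply Finset.sum_eq_zero
      intro q' _
      rw [hoffC q q' (Ne.symm hc'), zero_mul]
    · intro h0; exact absurd (Finset.mem_univ _) h0
  refine ⟨F, σ, fun a => C.submatrix (fun p => (⟨a, p⟩ : Ix b)) (fun p => (⟨a, p⟩ : Ix b)),
    fun a => B₀.submatrix (fun p => (⟨a, p⟩ : Ix b)) (fun p => (⟨a, p⟩ : Ix b)),
    ⟨?_, ?_, ?_, ?_⟩, hF1⟩
  · intro a p q
    have := congrFun (congrFun hB₀ (⟨a, p⟩ : Ix b)) (⟨a, q⟩ : Ix b)
    rw [Matrix.blockDiagonal'_apply_eq] at this
    exact this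
  · intro a
    have h1 : Function.Injective (fun p : Fin (b a).N => (⟨a, p⟩ : Ix b)) := by
      intro p q hpq
      simpa using hpq
    have h2 := hpos.submatrix h1
    convert h2 using 1
    ext p q
    rw [Matrix.submatrix_apply, Matrix.mul_apply, Matrix.mul_apply, Fintype.sum_sigma,
      Finset.sum_eq_single a]
    · rfl
    · intro a' _ ha'
      apply Finset.sum_eq_zero
      intro r _
      rw [hoffC r q ha', mul_zero]
    · intro h0; exact absurd (Finset.mem_univ _) h0
  · intro a p q hpq
    have h1 := congrFun (congrFun hεC (⟨a, p⟩ : Ix b)) (⟨a, q⟩ : Ix b)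
    rw [Matrix.diagonal_mul, Matrix.mul_diagonal, eps, eps] at h1
    rw [Nat.not_even_iff_odd] at hpq
    have h2 : (((-1) ^ (b a).dg p : ℤ) : ℂ) = -(((-1) ^ (b a).dg q : ℤ) : ℂ) := by
      have h3 : ((-1) ^ (b a).dg p : ℤ) * (-1) ^ (b a).dg q = -1 := by
        rw [← pow_add, hpq.neg_one_pow]
      have h4 : ((-1) ^ (b a).dg q : ℤ) * (-1) ^ (b a).dg q = 1 := by
        rw [← mul_pow]; norm_num
      have h5 : ((-1) ^ (b a).dg p : ℤ) = -(-1) ^ (b a).dg q := by
        linear_combination ((-1) ^ (b a).dg q : ℤ) * h3 - ((-1) ^ (b a).dg p : ℤ) * h4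
      rw [h5]
      push_cast
      ring
    have h6 : (((-1) ^ (b a).dg q : ℤ) : ℂ) ≠ 0 := by
      push_cast
      exact pow_ne_zero _ (by norm_num)
    change _ * C (⟨a, p⟩ : Ix b) (⟨a, q⟩ : Ix b) = C (⟨a, p⟩ : Ix b) (⟨a, q⟩ : Ix b) * _ at h1
    rw [h2] at h1
    have h7 : (((-1) ^ (b a).dg q : ℤ) : ℂ) * C (⟨a, p⟩ : Ix b) (⟨a, q⟩ : Ix b) = 0 := by
      linear_combination (-1 / 2 : ℂ) * h1
    exact (mul_eq_zero.1 h7).resolve_left h6
  · intro a c x hx
    -- the family
    set ξ : ∀ a c, W.H ((X a).prod (X c)) := Function.update 0 a (Function.update 0 c x) with hξ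
    have hξR : ∀ a' c', R a' c' (ξ a' c') := by
      intro a' c'
      by_cases ha : a' = a
      · subst ha
        rw [hξ, Function.update_self]
        by_cases hc : c' = c
        · subst hc
          rw [Function.update_self]; exact hx
        · rw [Function.update_of_ne hc]; exact (S.rat _ _).zero
      · rw [hξ, Function.update_of_ne ha]; exact (S.rat _ _).zero
    have hξx : ξ a c = x := by
      rw [hξ, Function.update_self, Function.update_self]
    set A : Matrix (Ix b) (Ix b) W.K := mat b (fun a c => th W (D a) (f a) (ξ a c)) with hA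
    have hE : ∀ a' c', RO R a' c' (blk b A a' c') := by
      intro a' c'
      rw [hA, blk_mat, th]
      exact S.ro_comp (S.ro_comp (S.star a') (S.par a')) ⟨_, hξR a' c', rfl⟩
    obtain ⟨A₀, hA₀, hr⟩ := hreal _ hE
    set G : Matrix (Ix b) (Ix b) W.K := fun x y =>
      ((b x.1).ex (b y.1)).repr (ξ x.1 y.1) (x.2, y.2) with hG
    have hGA : G.transpose * Matrix.blockDiagonal' (gram b D f) = A := by
      ext ⟨c', q⟩ ⟨a', r⟩
      rw [Matrix.mul_apply, Fintype.sum_sigma, Finset.sum_eq_single a', hA, mat, Matrix.of_apply,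
        th_coord (S.fr a') (b a') (b c') (S.alg (hξR a' c')), map_sum, Finsupp.finsetSum_apply,
        Fintype.sum_prod_type]
      · apply Finset.sum_congr rfl
        intro p _
        rw [Finset.sum_eq_single q]
        · rw [Matrix.blockDiagonal'_apply_eq, map_smul, Module.Basis.repr_self,
            Finsupp.smul_apply, Finsupp.single_eq_same, smul_eq_mul, mul_one,
            Matrix.transpose_apply]
          rfl
        · intro q' _ hq
          rw [map_smul, Module.Basis.repr_self, Finsupp.smul_apply,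
            Finsupp.single_eq_of_ne (Ne.symm hq), smul_zero]
        · intro h0; exact absurd (Finset.mem_univ _) h0
      · intro a'' _ ha''
        apply Finset.sum_eq_zero
        intro p _
        rw [Matrix.blockDiagonal'_apply_ne _ _ _ ha'', mul_zero]
      · intro h0; exact absurd (Finset.mem_univ _) h0
    set G₀ : Matrix (Ix b) (Ix b) F := (A₀ * B₀⁻¹).transpose with hG₀
    have hBdu : IsUnit B₀.det := isUnit_iff_ne_zero.2 hdet
    have hG₀A : G₀.transpose * B₀ = A₀ := by
      rw [hG₀, Matrix.transpose_transpose, mul_assoc, Matrix.nonsing_inv_mul _ hBdu, mul_one]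
    have hG₀G : ι.mapMatrix G₀ = G := by
      have h1 : (ι.mapMatrix G₀).transpose * Matrix.blockDiagonal' (gram b D f) =
          G.transpose * Matrix.blockDiagonal' (gram b D f) := by
        rw [hGA, ← hA₀, ← hG₀A, map_mul, ← hB₀]
        rfl
      have h2 := P.hB.mul_left_injective h1
      exact Matrix.transpose_injective h2
    have hmain : σ.mapMatrix G₀ = C * cj (σ.mapMatrix G₀) * C.transpose := by
      refine real_tensor (B := σ.mapMatrix B₀)
        (ε := Matrix.diagonal (fun x => (eps b x : ℂ))) (a := σ.mapMatrix A₀) ?_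
        (hBu₀.map _) ?_ ?_ hC hεC hpos.isHermitian hr hcε (Matrix.diagonal_transpose _) ?_
      · rw [← hG₀A, map_mul]; rfl
      · have := congrArg σ.mapMatrix hBT₀
        rw [map_mul, hepsσ] at this
        rw [← this]; rfl
      · have := congrArg σ.mapMatrix hεB₀
        rwa [map_mul, map_mul, hepsσ] at this
      · rw [Matrix.diagonal_mul_diagonal, ← Matrix.diagonal_one]
        congr 1
        ext i
        exact_mod_cast P.hε i
    refine ⟨fun p q => G₀ (⟨a, p⟩ : Ix b) (⟨c, q⟩ : Ix b), ?_, ?_⟩
    · intro p q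
      have h1 := congrFun (congrFun hG₀G (⟨a, p⟩ : Ix b)) (⟨c, q⟩ : Ix b)
      have h2 : ((b a).ex (b c)).repr x (p, q) = G (⟨a, p⟩ : Ix b) (⟨c, q⟩ : Ix b) := by
        change _ = ((b a).ex (b c)).repr (ξ a c) (p, q)
        rw [hξx]
      rw [h2, ← h1]
      rfl
    · intro p q
      have h1 := congrFun (congrFun hmain (⟨a, p⟩ : Ix b)) (⟨c, q⟩ : Ix b)
      change σ (G₀ (⟨a, p⟩ : Ix b) (⟨c, q⟩ : Ix b)) = _ at h1
      rw [h1, Matrix.mul_apply]
      have h2 : ∀ y, (C * cj (σ.mapMatrix G₀)) (⟨a, p⟩ : Ix b) y *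
          C.transpose y (⟨c, q⟩ : Ix b) = C (⟨c, q⟩ : Ix b) y *
            (C * cj (σ.mapMatrix G₀)) (⟨a, p⟩ : Ix b) y := fun y => mul_comm _ _
      rw [Finset.sum_congr rfl (fun y _ => h2 y), hsumC]
      simp only [Matrix.mul_apply, hsumC, Finset.mul_sum]
      rw [Finset.sum_comm]
      apply Finset.sum_congr rfl
      intro p' _
      apply Finset.sum_congr rfl
      intro q' _
      rw [Matrix.submatrix_apply, Matrix.submatrix_apply]
      change _ * (_ * starRingEnd ℂ (σ (G₀ (⟨a, p'⟩ : Ix b) (⟨c, q'⟩ : Ix b)))) = _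
      ring

omit [Fintype Λ] [DecidableEq Λ] in
/-- **The classes with a positive rational norm whose external squares are in the system are
real.** -/
theorem anti_sq {b : ∀ a, HB W (X a)} {F : Subfield W.K} {σ : F →+* ℂ}
    {C : ∀ a, Matrix (Fin (b a).N) (Fin (b a).N) ℂ}
    {B : ∀ a, Matrix (Fin (b a).N) (Fin (b a).N) F} (A : Anti W b D f R F σ C B) {a : Λ}
    {x : W.H (X a)} (hx : R a a (H281R3.HT.ext W x x)) (hu : ∀ p, (b a).e.repr x p ∈ F)
    (hpos : ∃ q : ℚ, 0 < q ∧ bf W (X a) (D a) (f a) x x = q) :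
    ∃ t : Fin (b a).N → F, (∀ p, (b a).e.repr x p = t p) ∧
      ∀ p, σ (t p) = ∑ q, C a p q * starRingEnd ℂ (σ (t q)) := by
  set u : Fin (b a).N → F := fun p => ⟨(b a).e.repr x p, hu p⟩ with hudef
  have hur : ∀ p, (b a).e.repr x p = u p := fun p => rfl
  obtain ⟨q₀, hq₀, hbf⟩ := hpos
  have h10 : ∃ p, u p ≠ 0 := by
    by_contra h0
    push Not at h0
    have h2 : x = 0 := by
      apply (b a).e.ext_elem
      intro p
      rw [hur, h0]; simp
    rw [h2, map_zero] at hbf
    have : (q₀ : W.K) = 0 := hbf.symm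
    exact hq₀.ne' (by exact_mod_cast this)
  obtain ⟨s, hs⟩ := h10
  have hσs : σ (u s) ≠ 0 := fun h0 => hs ((map_eq_zero σ).1 h0)
  set V : Fin (b a).N → ℂ := fun p => ∑ q, C a p q * starRingEnd ℂ (σ (u q)) with hV
  obtain ⟨t1, ht1, ht1r⟩ := A.real a a _ hx
  have e1 : ∀ p q, t1 p q = u p * u q := by
    intro p q
    apply Subtype.ext
    rw [← ht1, repr_ext]
    rfl
  have e2 : ∀ p q, σ (u p) * σ (u q) = V p * V q := by
    intro p q
    have h2 := ht1r p q
    rw [e1, map_mul] at h2
    rw [h2, hV, Finset.sum_mul_sum]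
    apply Finset.sum_congr rfl
    intro p' _
    apply Finset.sum_congr rfl
    intro q' _
    rw [e1, map_mul, map_mul]
    ring
  have e3 : V s = σ (u s) ∨ V s = -σ (u s) := by
    have := e2 s s
    have h2 : (V s - σ (u s)) * (V s + σ (u s)) = 0 := by linear_combination -this
    rcases mul_eq_zero.1 h2 with h | h
    · left; linear_combination h
    · right; linear_combination h
  have e4 : ∀ p, V p = σ (u p) := by
    rcases e3 with h | h
    · intro p
      have h2 := e2 p s
      rw [h] at h2
      exact (mul_right_cancel₀ hσs h2).symm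
    · exfalso
      have h3 : ∀ p, V p = -σ (u p) := by
        intro p
        have h2 := e2 p s
        rw [h] at h2
        apply mul_right_cancel₀ hσs
        linear_combination h2
      set v : Fin (b a).N → ℂ := fun p => starRingEnd ℂ (σ (u p)) with hv
      have hv0 : v ≠ 0 := by
        intro h0
        have h4 := congrFun h0 s
        rw [hv] at h4
        apply hσs
        simpa using h4
      have h5 := (A.pos a).dotProduct_mulVec_pos hv0
      have h6 : star v ⬝ᵥ (((B a).map σ * C a).mulVec v) = -(q₀ : ℂ) := by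
        have h7 : (C a).mulVec v = fun p => -σ (u p) := by
          funext p
          rw [← h3]
          rfl
        have h8 : bf W (X a) (D a) (f a) x x = ∑ p, ∑ q, (u p : W.K) * u q * B a p q := by
          conv_lhs => rw [← (b a).e.sum_repr x]
          rw [map_sum (bf W (X a) (D a) (f a)), LinearMap.sum_apply]
          apply Finset.sum_congr rfl
          intro p _
          rw [map_sum]
          apply Finset.sum_congr rfl
          intro q _
          rw [map_smul, map_smul, LinearMap.smul_apply, A.gram, hur, hur, smul_eq_mul,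
            smul_eq_mul]
          ring
        have h9 : ∑ p, ∑ q, u p * u q * B a p q = (q₀ : F) := by
          apply Subtype.ext
          have h10 : ((∑ p, ∑ q, u p * u q * B a p q : F) : W.K) =
              ∑ p, ∑ q, (u p : W.K) * u q * B a p q := by
            push_cast
            rfl
          rw [h10, ← h8, hbf]
          simp
        have h11 := congrArg σ h9
        rw [map_ratCast] at h11
        rw [← Matrix.mulVec_mulVec, h7, ← h11, map_sum, dotProduct, ← Finset.sum_neg_distrib]
        apply Finset.sum_congr rfl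
        intro p _
        rw [map_sum, Matrix.mulVec, dotProduct, Finset.mul_sum, ← Finset.sum_neg_distrib]
        apply Finset.sum_congr rfl
        intro q _
        rw [map_mul, map_mul, Pi.star_apply, hv]
        beta_reduce
        rw [← starRingEnd_apply, Complex.conj_conj, Matrix.map_apply]
        ring
      rw [h6] at h5
      have h12 : (0 : ℂ) < ((-q₀ : ℝ) : ℂ) := by simpa using h5
      have h13 : (0 : ℝ) < -(q₀ : ℝ) := Complex.zero_lt_real.1 h12
      have h14 : (0 : ℝ) < (q₀ : ℝ) := by exact_mod_cast hq₀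
      linarith
  exact ⟨u, hur, fun p => (e4 p).symm⟩

end Pool.Agent.W5h58.VL
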