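import Pool.Agent.W5h58.VL.Exist
import Pool.Agent.W552.IrrProj
import Pool.Agent.W458.MF.PDefs

/-!
# Varieties with a virtual class: the conjecture of Hodge type and orthogonal bases
-/

open CategoryTheory AlgebraicGeometry

universe u v w

namespace Pool.Agent.W5h58.VL

open Pool.Agent.H914 Pool.Agent.H914.VarClass Pool.Agent.H914.VarClass.Obj
  Pool.Agent.H914.WeilCohomology Pool.Agent.H281R3.HT Pool.Agent.H447 Pool.Agent.W552

variable {k : Type u} [Field k] {𝒱 : VarClass k} {ops : CycleOps 𝒱}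

/-- A variety with a virtual class `v` in the vanishing part of the middle cohomology, such that all
algebraic classes are sums of pull-backs and of multiples of `v`. -/
structure VMem (Θ : Th ops) (W : WeilCohomology.{u, v} ops) {X Y : 𝒱.Obj} (mor : X ⟶ Y)
    (D : X.Cycles) (V : Submodule W.K (W.H X)) (v : W.H X) (n : ℕ) : Prop where
  split : Split W mor V
  dim : X.dim = 2 * n
  mem : v ∈ V
  pv : PV Θ W X v
  sq : AS W (X.prod X) (ext W v v)
  norm : ∃ q : ℚ, 0 < q ∧ (-1 : W.K) ^ n * W.tr X (v * v) = q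
  isdiv : X.IsCyc 1 D
  div : ∃ y, W.cl X D = W.map mor y
  algY : ∀ y : W.H Y, y ∈ algSpan W Y
  alg : ∀ j z, X.IsCyc j z → ∃ y, ∃ c : W.K, W.cl X z = W.map mor y + c • v

namespace VMem

variable {Θ : Th ops} {W : WeilCohomology.{u, v} ops} {X Y : 𝒱.Obj} {mor : X ⟶ Y}
  {D : X.Cycles} {V : Submodule W.K (W.H X)} {v : W.H X} {n : ℕ}
  (h : VMem Θ W mor D V v n)

include h

lemma vgr : v ∈ W.gr X (2 * n) := by
  rw [← h.dim]; exact h.split.deg h.mem

lemma vev : v ∈ Ev W X := Ev.of h.vgr

lemma norm_ne : W.tr X (v * v) ≠ 0 := by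
  obtain ⟨q, hq, hq'⟩ := h.norm
  intro h0
  rw [h0, mul_zero] at hq'
  exact hq.ne' (by exact_mod_cast hq'.symm)

lemma v_ne : v ≠ 0 := by
  rintro rfl
  exact h.norm_ne (by rw [mul_zero, map_zero])

lemma Dv : W.cl X D * v = 0 := by
  obtain ⟨d, hd⟩ := h.div
  apply W.nondeg
  intro b
  obtain ⟨y, hy⟩ := h.split.gen b
  have e : b = W.map mor y + (b - W.map mor y) := by abel
  rw [e, mul_add, map_add]
  have h1 : W.tr X (W.cl X D * v * W.map mor y) = 0 := by
    have e1 : W.cl X D * v * W.map mor y = v * W.map mor (d * y) := by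
      rw [hd, ← Ev.comm h.vev, mul_assoc, map_mul]
    rw [e1, h.split.orth h.mem]
  have h2 : W.tr X (W.cl X D * v * (b - W.map mor y)) = 0 := by
    refine W.tr_eq_zero (W.mul_mem (W.mul_mem (W.cl_mem h.isdiv) h.vgr) (h.split.deg hy)) ?_
    rw [h.dim]
    omega
  rw [h1, h2, add_zero]

variable {f : Module.End W.K (W.H X)} (F : Fr W X D f)

include F

lemma wop_v : wop W X D f v = v := by
  have hwt : wt (W.isInternal X) X.dim v = -((0 : ℕ) : W.K) • v := by
    rw [Fr.wt_gr (h.split.deg h.mem)]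
    simp
  have h0 : ((LinearMap.mulLeft W.K (W.cl X D)) ^ (0 + 1)) v = 0 := by
    rw [zero_add, pow_one, LinearMap.mulLeft_apply, h.Dv]
  have h1 := F.sl2.f_eq_zero hwt h0
  rw [wop, wey_lowest F.sl2 h1 hwt]
  simp

lemma st_v : st W X D f v = (-1 : W.K) ^ n • v := by
  rw [st_apply h.vgr, h.wop_v F, sg_two_mul]
  push_cast
  rfl

lemma bf_vv : ∃ q : ℚ, 0 < q ∧ bf W X D f v v = q := by
  obtain ⟨q, hq, hq'⟩ := h.norm
  refine ⟨q, hq, ?_⟩
  rw [bf_apply, h.st_v F, mul_smul_comm, map_smul, smul_eq_mul, hq']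

lemma bf_map_v (y : W.H Y) : bf W X D f (W.map mor y) v = 0 := by
  rw [bf_apply, h.st_v F, mul_smul_comm, map_smul, h.split.orth' h.mem, smul_zero]

omit F

/-- The coefficient of the virtual class in a virtual class is rational. -/
lemma coeff_rat {x : W.H X} (hx : AV Θ W X x) {y : W.H Y} {c : W.K}
    (hxy : x = W.map mor y + c • v) : ∃ r : ℚ, c = r := by
  obtain ⟨q, hq⟩ := (hx.mul (AV.of h.pv)).tr
  obtain ⟨r, hr⟩ := (AV.of (h.pv.mul h.pv)).tr
  have h1 : W.tr X (x * v) = c * W.tr X (v * v) := by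
    rw [hxy, add_mul, map_add, h.split.orth' h.mem, zero_add, smul_mul_assoc, map_smul,
      smul_eq_mul]
  rw [hq, hr] at h1
  have hr0 : (r : W.K) ≠ 0 := by rw [← hr]; exact h.norm_ne
  refine ⟨q / r, ?_⟩
  rw [Rat.cast_div, h1, mul_div_assoc, div_self hr0, mul_one]

/-- Virtual classes which are pull-backs are algebraic. -/
lemma im_alg {x : W.H X} (hx : AV Θ W X x) {y : W.H Y} (hxy : x = W.map mor y) : AS W X x := by
  obtain ⟨B⟩ := exists_imB (Θ := Θ) h.split h.algY
  have h1 := B.rep y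
  rw [← hxy] at h1
  rw [h1]
  apply AS.ratSub.sum
  intro a _
  apply AS.ratSub.sum
  intro b _
  obtain ⟨q, hq⟩ := (hx.mul (AV.of_AS (B.ua a).AS)).tr
  rw [hq, ← Rat.cast_mul]
  exact (B.ua b).AS.smul _

/-- **The standard conjecture of Hodge type for the variety.** -/
theorem hodge (hH : Pool.Agent.W458.MF.Pol.HodgeTypeFor W X D (fun x => ∃ y, x = W.map mor y)) :
    HodgeType W X D := by
  intro j hj z hz hprim hz0
  obtain ⟨y, c, hyc⟩ := h.alg j z hz
  by_cases hjn : j = n
  · subst hjn
    obtain ⟨r, rfl⟩ := h.coeff_rat (AV.of_AS (AS.of ⟨z, hz, rfl⟩)) hyc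
    have hsub : X.dim - 2 * j = 0 := by rw [h.dim]; omega
    rw [hsub, zero_add, cl_divPow, pow_one, LinearMap.mulLeft_apply] at hprim
    rw [hsub]
    set x := W.map mor y with hx
    have hxz : x = W.cl X z + ((-r : ℚ) : W.K) • v := by
      rw [hyc, Rat.cast_neg, neg_smul]; abel
    have hxAV : AV Θ W X x := by
      rw [hxz]
      exact (AV.of_AS (AS.of ⟨z, hz, rfl⟩)).add ((AV.of h.pv).smul _)
    have hxgr : x ∈ W.gr X (2 * j) := by
      rw [hxz]
      exact Submodule.add_mem _ (W.cl_mem hz) (Submodule.smul_mem _ _ h.vgr)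
    obtain ⟨z', hz', hz'x⟩ := (h.im_alg hxAV hx).alg hxgr
    have hDx : W.cl X D * x = 0 := by
      rw [hxz, mul_add, hprim, mul_smul_comm, h.Dv, smul_zero, add_zero]
    obtain ⟨q, hq, hqv⟩ := h.norm
    have hzz : W.tr X (W.cl X z * W.cl X z) = W.tr X (x * x) + (r : W.K) ^ 2 *
        W.tr X (v * v) := by
      have e1 : W.cl X z * W.cl X z = x * x + (r : W.K) • (x * v) + (r : W.K) • (v * x) +
          ((r : W.K) * r) • (v * v) := by
        rw [hyc, add_mul, mul_add, mul_add, mul_smul_comm, smul_mul_assoc, smul_mul_smul_comm]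
        abel
      rw [e1, map_add, map_add, map_add, map_smul, map_smul, map_smul, hx,
        h.split.orth' h.mem, h.split.orth h.mem]
      simp only [smul_eq_mul]
      ring
    have hdeg : ((X.V.degCycle (ops.mul z (divPow ops D 0 z)) : ℚ) : W.K) =
        W.tr X (W.cl X z * W.cl X z) := by
      rw [← W.tr_cl, W.cl_mul]
      · rfl
      · have := ops.mul_mem hz hz
        rwa [← two_mul, ← h.dim] at this
    have hdeg' : ((X.V.degCycle (ops.mul z' (divPow ops D 0 z')) : ℚ) : W.K) =
        W.tr X (x * x) := by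
      rw [← W.tr_cl, W.cl_mul]
      · rw [hz'x]
        change W.tr X (x * W.cl X z') = _
        rw [hz'x]
      · have := ops.mul_mem hz' hz'
        rwa [← two_mul, ← h.dim] at this
    have hval : (-1 : ℚ) ^ j * X.V.degCycle (ops.mul z (divPow ops D 0 z)) =
        (-1 : ℚ) ^ j * X.V.degCycle (ops.mul z' (divPow ops D 0 z')) + r ^ 2 * q := by
      have h1 : (((-1 : ℚ) ^ j * X.V.degCycle (ops.mul z (divPow ops D 0 z)) : ℚ) : W.K) =
          (((-1 : ℚ) ^ j * X.V.degCycle (ops.mul z' (divPow ops D 0 z')) + r ^ 2 * q : ℚ) :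
            W.K) := by
        push_cast
        rw [hdeg, hdeg', hzz, ← hqv]
        ring
      exact_mod_cast h1
    rw [hval]
    by_cases hx0 : x = 0
    · have hr : r ≠ 0 := by
        rintro rfl
        apply hz0
        rw [hyc, hx0, Rat.cast_zero, zero_smul, add_zero]
      have h1 : ((X.V.degCycle (ops.mul z' (divPow ops D 0 z')) : ℚ) : W.K) = 0 := by
        rw [hdeg', hx0, mul_zero, map_zero]
      have h2 : X.V.degCycle (ops.mul z' (divPow ops D 0 z')) = 0 := by exact_mod_cast h1
      rw [h2, mul_zero, zero_add]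
      positivity
    · have h1 := hH j hj z' hz' ⟨y, by rw [hz'x]⟩ (by
        rw [hsub, zero_add, cl_divPow, pow_one, LinearMap.mulLeft_apply, hz'x, hDx]) (by
        rw [hz'x]; exact hx0)
      rw [hsub] at h1
      have h2 : 0 ≤ r ^ 2 * q := by positivity
      linarith
  · have hc : c = 0 := by
      have h1 : W.tr X (W.cl X z * v) = 0 := by
        refine W.tr_eq_zero (W.mul_mem (W.cl_mem hz) h.vgr) ?_
        rw [h.dim]
        omega
      rw [hyc, add_mul, map_add, h.split.orth' h.mem, zero_add, smul_mul_assoc, map_smul,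
        smul_eq_mul] at h1
      exact (mul_eq_zero.1 h1).resolve_right h.norm_ne
    refine hH j hj z hz ⟨y, ?_⟩ hprim hz0
    rw [hyc, hc, zero_smul, add_zero]

end VMem

section VB

/-- An orthogonal basis of a subspace consisting of virtual classes, with positive rational
norms. -/
structure VB (Θ : Th ops) (W : WeilCohomology.{u, v} ops) (X : 𝒱.Obj) (D : X.Cycles)
    (f : Module.End W.K (W.H X)) (T : Submodule W.K (W.H X)) where
  N : ℕ
  e : Fin N → W.H X
  w : Fin N → ℚ
  av : ∀ k, AV Θ W X (e k)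
  pos : ∀ k, 0 < w k
  orth : ∀ k l, bf W X D f (e k) (e l) = if k = l then (w k : W.K) else 0
  span : T ≤ Submodule.span W.K (Set.range e)

variable {Θ : Th ops} {W : WeilCohomology.{u, v} ops}

/-- The basis of the space of the algebraic classes. -/
lemma exists_vb {P : Polarized 𝒱} {f Φ : Module.End W.K (W.H P.X)} (l : Loc W P f Φ)
    (hH : HodgeType W P.X P.D) : Nonempty (VB Θ W P.X P.D f (algSpan W P.X)) := by
  obtain ⟨B⟩ := exists_rb l hH
  refine ⟨⟨B.N, B.ε, B.w, fun k => AV.of_AS (B.as k), B.pos, B.orth, ?_⟩⟩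
  refine Submodule.span_le.2 ?_
  intro x hx
  obtain ⟨j, hj⟩ := Set.mem_iUnion.1 hx
  obtain ⟨r, hr⟩ := B.span x (AS.of hj)
  rw [SetLike.mem_coe, hr]
  exact Submodule.sum_mem _ fun k _ => Submodule.smul_mem _ _ (Submodule.subset_span ⟨k, rfl⟩)

/-- The basis of the space of the algebraic classes and of the virtual class. -/
lemma VMem.exists_vb {X Y : 𝒱.Obj} {mor : X ⟶ Y} {D : X.Cycles} {V : Submodule W.K (W.H X)}
    {v : W.H X} {n : ℕ} (h : VMem Θ W mor D V v n) {f Φ : Module.End W.K (W.H X)}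
    (l : Loc W ⟨X, D⟩ f Φ)
    (hH : Pool.Agent.W458.MF.Pol.HodgeTypeFor W X D (fun x => ∃ y, x = W.map mor y)) :
    Nonempty (VB Θ W X D f (algSpan W X ⊔ Submodule.span W.K {v})) := by
  have hH' := h.hodge hH
  by_cases hv : v ∈ algSpan W X
  · obtain ⟨B⟩ := VL.exists_vb (Θ := Θ) l hH'
    refine ⟨⟨B.N, B.e, B.w, B.av, B.pos, B.orth, ?_⟩⟩
    refine sup_le B.span ?_
    rw [Submodule.span_singleton_le_iff_mem]
    exact B.span hv
  · obtain ⟨B⟩ := exists_rb l hH'
    have hAS : ∀ x, AS W X x → ∃ y, x = W.map mor y := by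
      intro x hx
      refine AS.ind (p := fun x => ∃ y, x = W.map mor y) ?_ ?_ hx
      · rintro j _ ⟨z, hz, rfl⟩
        obtain ⟨y, c, hyc⟩ := h.alg j z hz
        by_cases hc : c = 0
        · exact ⟨y, by rw [hyc, hc, zero_smul, add_zero]⟩
        · exfalso
          apply hv
          have h1 : v = c⁻¹ • (W.cl X z - W.map mor y) := by
            rw [hyc, add_sub_cancel_left, smul_smul, inv_mul_cancel₀ hc, one_smul]
          rw [h1]
          refine Submodule.smul_mem _ _ (Submodule.sub_mem _ ?_ ?_)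
          · exact Pool.Agent.W536.RR.cl_mem_algSpan hz
          · exact Pool.Agent.W536.RR.algSpan_map _ (h.algY y)
      · rintro a b ⟨y, rfl⟩ ⟨y', rfl⟩
        exact ⟨y + y', by rw [map_add]⟩
    obtain ⟨q, hq, hqv⟩ := h.bf_vv l.F
    have h1 : ∀ k, bf W X D f (B.ε k) v = 0 := by
      intro k
      obtain ⟨y, hy⟩ := hAS _ (B.as k)
      rw [hy]
      exact h.bf_map_v l.F y
    have h2 : ∀ k, bf W X D f v (B.ε k) = 0 := by
      intro k
      obtain ⟨y, hy⟩ := hAS _ (l.F.st_AS (B.as k))
      rw [bf_apply]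
      change W.tr X (v * st W X D f (B.ε k)) = 0
      rw [hy, h.split.orth h.mem]
    refine ⟨⟨B.N + 1, Fin.cons v B.ε, Fin.cons q B.w, ?_, ?_, ?_, ?_⟩⟩
    · intro k
      refine Fin.cases ?_ (fun k => ?_) k
      · exact AV.of h.pv
      · exact AV.of_AS (B.as k)
    · intro k
      refine Fin.cases ?_ (fun k => ?_) k
      · exact hq
      · exact B.pos k
    · intro k l
      refine Fin.cases ?_ (fun k => ?_) k
      · refine Fin.cases ?_ (fun l => ?_) l
        · rw [if_pos rfl]; exact hqv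
        · rw [if_neg (Fin.succ_ne_zero l).symm]; exact h2 l
      · refine Fin.cases ?_ (fun l => ?_) l
        · rw [if_neg (Fin.succ_ne_zero k)]; exact h1 k
        · have := B.orth k l
          simp only [Fin.succ_inj]
          exact this
    · refine sup_le (Submodule.span_le.2 ?_) ?_
      · intro x hx
        obtain ⟨j, hj⟩ := Set.mem_iUnion.1 hx
        obtain ⟨r, hr⟩ := B.span x (AS.of hj)
        rw [SetLike.mem_coe, hr]
        exact Submodule.sum_mem _ fun k _ => Submodule.smul_mem _ _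
          (Submodule.subset_span ⟨k.succ, rfl⟩)
      · rw [Submodule.span_singleton_le_iff_mem]
        exact Submodule.subset_span ⟨0, rfl⟩

/-- **Positivity on the products of two varieties.** -/
theorem VB.pair_pos {X Y : 𝒱.Obj} {D : X.Cycles} {E : Y.Cycles}
    {f : Module.End W.K (W.H X)} {f' : Module.End W.K (W.H Y)} (F : Fr W X D f)
    (F' : Fr W Y E f') {T : Submodule W.K (W.H X)} {T' : Submodule W.K (W.H Y)}
    (B : VB Θ W X D f T) (B' : VB Θ W Y E f' T') {x : W.H (X.prod Y)}
    (hx : AV Θ W (X.prod Y) x)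
    (hxs : x ∈ Submodule.span W.K {c | ∃ a ∈ T, ∃ b ∈ T', c = ext W a b}) (hx0 : x ≠ 0) :
    ∃ q : ℚ, 0 < q ∧ bf W (X.prod Y) (ops.pull (fst X Y) D + ops.pull (snd X Y) E)
      (extSum W f f') x x = q := by
  classical
  have hspan : x ∈ Submodule.span W.K
      (Set.range fun p : Fin B.N × Fin B'.N => ext W (B.e p.1) (B'.e p.2)) := by
    refine Submodule.span_le.2 ?_ hxs
    rintro c ⟨a, ha, b, hb, rfl⟩
    have ha' := B.span ha
    have hb' := B'.span hb
    rw [SetLike.mem_coe]
    clear ha hb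
    induction ha' using Submodule.span_induction with
    | mem a ha' =>
      obtain ⟨i, rfl⟩ := ha'
      induction hb' using Submodule.span_induction with
      | mem b hb' =>
        obtain ⟨j, rfl⟩ := hb'
        exact Submodule.subset_span ⟨(i, j), rfl⟩
      | zero => rw [H281R3.HT.ext, map_zero, mul_zero]; exact Submodule.zero_mem _
      | add b b' _ _ hb hb' =>
        have e : ext W (B.e i) (b + b') = ext W (B.e i) b + ext W (B.e i) b' := by
          simp only [ext, map_add, mul_add]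
        rw [e]; exact Submodule.add_mem _ hb hb'
      | smul c b _ hb =>
        have e : ext W (B.e i) (c • b) = c • ext W (B.e i) b := by
          simp only [ext, map_smul, mul_smul_comm]
        rw [e]; exact Submodule.smul_mem _ _ hb
    | zero => rw [H281R3.HT.ext, map_zero, zero_mul]; exact Submodule.zero_mem _
    | add a a' h1 h2 ha ha' =>
      have e : ext W (a + a') b = ext W a b + ext W a' b := by
        simp only [ext, map_add, add_mul]
      rw [e]; exact Submodule.add_mem _ ha ha'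
    | smul c a _ ha =>
      have e : ext W (c • a) b = c • ext W a b := by
        simp only [ext, map_smul, smul_mul_assoc]
      rw [e]; exact Submodule.smul_mem _ _ ha
  rw [Submodule.mem_span_range_iff_exists_fun] at hspan
  obtain ⟨c, hc⟩ := hspan
  set β := bf W (X.prod Y) (ops.pull (fst X Y) D + ops.pull (snd X Y) E) (extSum W f f') with hβ
  have hval : ∀ p p' : Fin B.N × Fin B'.N, β (ext W (B.e p.1) (B'.e p.2))
      (ext W (B.e p'.1) (B'.e p'.2)) = if p = p' then ((B.w p.1 * B'.w p.2 : ℚ) : W.K) else 0 := by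
    intro p p'
    rw [hβ, F.bf_ext F', B.orth, B'.orth]
    by_cases h1 : p.1 = p'.1
    · by_cases h2 : p.2 = p'.2
      · rw [if_pos h1, if_pos h2, if_pos (Prod.ext h1 h2)]; push_cast; rfl
      · rw [if_neg h2, mul_zero, if_neg (fun h => h2 (by rw [h]))]
    · rw [if_neg h1, zero_mul, if_neg (fun h => h1 (by rw [h]))]
  have hpp : ∀ p : Fin B.N × Fin B'.N, 0 < B.w p.1 * B'.w p.2 := fun p =>
    mul_pos (B.pos _) (B'.pos _)
  have hcr : ∀ p, ∃ r : ℚ, c p = r := by
    intro p
    obtain ⟨q, hq⟩ := bf_ratV (F.prod F') hx ((B.av p.1).ext (B'.av p.2))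
    rw [← hc, map_sum, LinearMap.sum_apply, Finset.sum_eq_single p] at hq
    · rw [map_smul, LinearMap.smul_apply] at hq
      have h1 := hval p p
      rw [if_pos rfl] at h1
      change c p • β _ _ = _ at hq
      rw [h1, smul_eq_mul] at hq
      refine ⟨q / (B.w p.1 * B'.w p.2), ?_⟩
      have h2 : ((B.w p.1 * B'.w p.2 : ℚ) : W.K) ≠ 0 := by exact_mod_cast (hpp p).ne'
      rw [Rat.cast_div, ← hq, mul_div_assoc, div_self h2, mul_one]
    · intro p' _ hp'
      rw [map_smul, LinearMap.smul_apply]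
      have h1 := hval p' p
      rw [if_neg hp'] at h1
      change c p' • β _ _ = _
      rw [h1, smul_zero]
    · intro h0; exact absurd (Finset.mem_univ _) h0
  choose r hr using hcr
  refine ⟨∑ p, r p ^ 2 * (B.w p.1 * B'.w p.2), ?_, ?_⟩
  · have hex : ∃ p, r p ≠ 0 := by
      by_contra h0
      push Not at h0
      apply hx0
      rw [← hc]
      exact Finset.sum_eq_zero fun p _ => by rw [hr, h0, Rat.cast_zero, zero_smul]
    obtain ⟨p, hp⟩ := hex
    refine Finset.sum_pos' (fun p _ => mul_nonneg (sq_nonneg _) (hpp p).le)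
      ⟨p, Finset.mem_univ _, mul_pos (by positivity) (hpp p)⟩
  · rw [← hc, map_sum β, LinearMap.sum_apply, Rat.cast_sum]
    apply Finset.sum_congr rfl
    intro p _
    rw [map_smul, LinearMap.smul_apply, map_sum, Finset.sum_eq_single p]
    · rw [map_smul, hval, if_pos rfl, smul_eq_mul, smul_eq_mul, hr]
      push_cast
      ring
    · intro p' _ hp'
      rw [map_smul, hval, if_neg (Ne.symm hp'), smul_zero]
    · intro h0; exact absurd (Finset.mem_univ _) h0

end VB

end Pool.Agent.W5h58.VL
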