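import Pool.Agent.W290.MF.Hodge
import Pool.Agent.W5h58.VL.Member

/-!
# The eigenvectors of the Frobenius endomorphism, with a further class
-/

open CategoryTheory AlgebraicGeometry Polynomial

universe u v w

namespace Pool.Agent.W5h58.VL

open Pool.Agent.H914 Pool.Agent.W534 Pool.Agent.W521.Frob VarClass Obj WeilCohomology
  Pool.Agent.H281R3.HT Pool.Agent.W536.RR Pool.Agent.W458.MF Pool.Agent.W290.MF

variable {k : Type u} [Field k] {𝒱 : VarClass k} {ops : CycleOps 𝒱}
  {W : WeilCohomology.{u, v} ops} {Y : 𝒱.Obj} {p : ℕ} {Φ : FrobSystem W p}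
  {I : Type} {σ : W.K →+* ℂ} {P : I → Piece W Y} {m : ℕ} {R : ℤ[X]}

/-- The generalised eigenvectors in `T` with eigenvalues in the monoid of the roots. -/
def ASetT (Φ : FrobSystem W p) (σ : W.K →+* ℂ) (R : ℤ[X]) (X : 𝒱.Obj) (s : ℕ)
    (T : Submodule W.K (W.H X)) : Set (W.H X) :=
  {z | z ∈ T ∧ ∃ ν : W.K, z ∈ Module.End.maxGenEigenspace (frob Φ X s) ν ∧
    σ ν ∈ Submonoid.closure {z : ℂ | aeval z R = 0}}

variable {i : I} {D : (P i).obj.Cycles} {M s t b : ℕ}

lemma ext_level (hL : Lvl Φ (P i) D m M s t b) {z : W.H (P i).obj}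
    (hz : IsExt p (P i) m z) : ∃ n, (P i).obj.dim = 2 * n ∧
      frob Φ (P i).obj s z = (p : W.K) ^ (n * m * t) • z := by
  obtain ⟨-, n, hn, hz2⟩ := hz
  obtain ⟨t', ht'⟩ := hL.even
  refine ⟨n, hn, ?_⟩
  rcases hz2 with hz2 | hz2
  · rw [hL.eig _ _ hz2, ← pow_mul]
  · rw [hL.eig _ _ hz2, ht', neg_pow, ← pow_mul, pow_mul (-1 : W.K), neg_one_sq, one_pow,
      one_mul]

section

variable {T : Submodule W.K (W.H (P i).obj)} (hT : algSpan W (P i).obj ≤ T)

include hT

lemma span_allT [IsAlgClosed W.K] (H : GSetup Φ σ P m R) (hL : Lvl Φ (P i) D m M s t b)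
    (hY : ∀ x : W.H Y, x ∈ algSpan W Y)
    (hE : ∀ x, IsExt p (P i) m x → x ∈ T) (y : W.H (P i).obj) :
    y ∈ Submodule.span W.K
      (ASetT Φ σ R (P i).obj s T ∪ {z | ∃ lam, IsEig p (P i) m lam z}) := by
  obtain ⟨w, hw⟩ := H.gen i y
  have h1 : y = W.map (P i).mor w + (y - W.map (P i).mor w) := by abel
  rw [h1]
  refine Submodule.add_mem _ ?_ ?_
  · have h2 := Submodule.apply_mem_span_image_of_mem_span (W.map (P i).mor).toLinearMap
      (span_gen_top (frob Φ Y b) w)
    refine Submodule.span_le.2 ?_ h2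
    rintro _ ⟨w', ⟨ν, hν⟩, rfl⟩
    by_cases h0 : W.map (P i).mor w' = 0
    · change W.map (P i).mor w' ∈ _
      rw [h0]
      exact Submodule.zero_mem _
    · refine Submodule.subset_span (Or.inl ⟨hT (algSpan_map _ (hY w')), 1 * ν, ?_, ?_⟩)
      · refine gen_map (θ := (W.map (P i).mor).toLinearMap) (c := 1) ?_ hν
        intro y
        rw [one_smul]
        exact hL.comm y
      · rw [one_mul]
        have hw0 : w' ≠ 0 := by
          rintro rfl
          exact h0 (map_zero _)
        exact eig_Y σ H.hR b (hasEigenvalue_of_gen hν hw0)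
  · refine Submodule.span_mono ?_ (H.span i _ hw)
    rintro z (hz | hz)
    · exact Or.inr hz
    · refine Or.inl ⟨hE z hz, ?_⟩
      obtain ⟨n, -, hz2⟩ := ext_level hL hz
      refine ⟨(p : W.K) ^ (n * m * t), eig_mem_gen hz2, ?_⟩
      rw [map_pow, map_natCast]
      refine Submonoid.pow_mem _ (Submonoid.subset_closure ?_) _
      exact H.hRp

/-- The generalised eigenspace for the eigenvalue of an eigenvector. -/
lemma simple_genT [IsAlgClosed W.K] (H : GSetup Φ σ P m R) (hL : Lvl Φ (P i) D m M s t b)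
    (hY : ∀ x : W.H Y, x ∈ algSpan W Y)
    (hE : ∀ x, IsExt p (P i) m x → x ∈ T) {lam : W.K} {x : W.H (P i).obj}
    (hx : IsEig p (P i) m lam x) (y : W.H (P i).obj)
    (hy : y ∈ Module.End.maxGenEigenspace (frob Φ (P i).obj s) (lam ^ t)) :
    ∃ c : W.K, y = c • x := by
  have hroot := fun {mu : W.K} {z : W.H (P i).obj} (hz : IsEig p (P i) m mu z) =>
    aeval_sigma σ hz.root
  have h3 := mem_span_gen (fun z hz => by
    rcases hz with ⟨-, ν, hν, -⟩ | ⟨mu, hz⟩
    · exact ⟨ν, hν⟩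
    · exact ⟨mu ^ t, eig_mem_gen (hL.eig _ _ hz.eig)⟩) (span_allT hT H hL hY hE y) hy
  have h4 : Submodule.span W.K {v | v ∈ ASetT Φ σ R (P i).obj s T ∪
      {z | ∃ lam, IsEig p (P i) m lam z} ∧
      v ∈ Module.End.maxGenEigenspace (frob Φ (P i).obj s) (lam ^ t)} ≤
      Submodule.span W.K {x} := by
    rw [Submodule.span_le]
    rintro z ⟨⟨-, ν, hν, hνR⟩ | ⟨mu, hz⟩, hz2⟩
    · by_cases h0 : z = 0
      · rw [h0]
        exact Submodule.zero_mem _
      · exfalso
        have h6 := eq_of_mem_gen hν hz2 h0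
        refine sep_fixed (Q_pos H) H.monic H.bal H.sep i hL.t_pos (hroot hx) hνR ?_
        rw [h6, map_pow]
    · have h6 := eq_of_mem_gen (eig_mem_gen (hL.eig _ _ hz.eig)) hz2 hz.ne
      have h7 : σ mu = σ lam := by
        refine sep_roots (Q_pos H) H.monic H.bal H.sep i hL.t_pos (hroot hz) (hroot hx) ?_
        rw [← map_pow, h6, map_pow]
      have h8 : mu = lam := σ.injective h7
      subst h8
      obtain ⟨c, hc⟩ := H.uniq i mu x z hx hz
      exact Submodule.mem_span_singleton.2 ⟨c, hc.symm⟩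
  obtain ⟨c, hc⟩ := Submodule.mem_span_singleton.1 (h4 h3)
  exact ⟨c, hc.symm⟩

/-- Two cases for generalised eigenvectors. -/
lemma cases_genT [IsAlgClosed W.K] (H : GSetup Φ σ P m R) (hL : Lvl Φ (P i) D m M s t b)
    (hY : ∀ x : W.H Y, x ∈ algSpan W Y)
    (hE : ∀ x, IsExt p (P i) m x → x ∈ T) {α : W.K} {y : W.H (P i).obj}
    (hy : y ∈ Module.End.maxGenEigenspace (frob Φ (P i).obj s) α) (hy0 : y ≠ 0) :
    (∃ lam x, IsEig p (P i) m lam x ∧ α = lam ^ t ∧ ∃ c : W.K, y = c • x) ∨
    (y ∈ T ∧ σ α ∈ Submonoid.closure {z : ℂ | aeval z R = 0}) := by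
  by_cases h : ∃ lam x, IsEig p (P i) m lam x ∧ α = lam ^ t
  · obtain ⟨lam, x, hx, rfl⟩ := h
    exact Or.inl ⟨lam, x, hx, rfl, simple_genT hT H hL hY hE hx y hy⟩
  · right
    have h3 := mem_span_gen (fun z hz => by
      rcases hz with ⟨-, ν, hν, -⟩ | ⟨mu, hz⟩
      · exact ⟨ν, hν⟩
      · exact ⟨mu ^ t, eig_mem_gen (hL.eig _ _ hz.eig)⟩) (span_allT hT H hL hY hE y) hy
    constructor
    · refine Submodule.span_le.2 ?_ h3
      rintro z ⟨⟨hz, -⟩ | ⟨mu, hz⟩, hz2⟩
      · exact hz
      · exfalso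
        exact h ⟨mu, z, hz, (eq_of_mem_gen (eig_mem_gen (hL.eig _ _ hz.eig)) hz2 hz.ne).symm⟩
    · by_contra hcon
      apply hy0
      have h4 : Submodule.span W.K {v | v ∈ ASetT Φ σ R (P i).obj s T ∪
          {z | ∃ lam, IsEig p (P i) m lam z} ∧
          v ∈ Module.End.maxGenEigenspace (frob Φ (P i).obj s) α} = ⊥ := by
        rw [Submodule.span_eq_bot]
        rintro z ⟨⟨hz, ν, hν, hνR⟩ | ⟨mu, hz⟩, hz2⟩
        · by_contra h0
          have h6 := eq_of_mem_gen hν hz2 h0
          subst h6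
          exact hcon hνR
        · exfalso
          exact h ⟨mu, z, hz, (eq_of_mem_gen (eig_mem_gen (hL.eig _ _ hz.eig)) hz2 hz.ne).symm⟩
      rw [h4, Submodule.mem_bot] at h3
      exact h3

end

/-- Homogeneous eigenvectors in the sum of the algebraic classes and of the line of a further
eigenvector have Tate eigenvalues. -/
lemma tate_T (hL : Lvl Φ (P i) D m M s t b) (hsub : (P i).sub ≤ W.gr (P i).obj (P i).obj.dim)
    {v : W.H (P i).obj} (hv : v = 0 ∨ IsExt p (P i) m v)
    {y : W.H (P i).obj} (hyT : y ∈ algSpan W (P i).obj ⊔ Submodule.span W.K {v}) {d : ℕ}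
    (hyd : y ∈ W.gr (P i).obj d) (hy0 : y ≠ 0) {α : W.K}
    (hya : frob Φ (P i).obj s y = α • y) :
    W552.IsTateRel (p ^ M) ({(d, α)} : Multiset (ℕ × W.K)) := by
  obtain ⟨a, ha, b', hb', rfl⟩ := Submodule.mem_sup.1 hyT
  obtain ⟨c, rfl⟩ := Submodule.mem_span_singleton.1 hb'
  have hproj : H914.proj (W.isInternal (P i).obj) d (a + c • v) = a + c • v := proj_same _ hyd
  -- the degree is even
  have hvgr : ∃ n, v ∈ W.gr (P i).obj (2 * n) ∧ frob Φ (P i).obj s v =
      (p : W.K) ^ (n * m * t) • v := by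
    rcases hv with rfl | hv
    · exact ⟨0, Submodule.zero_mem _, by rw [map_zero, smul_zero]⟩
    · obtain ⟨n, hn, h⟩ := ext_level hL hv
      refine ⟨n, ?_, h⟩
      rw [← hn]
      exact hsub hv.1
  obtain ⟨n, hvn, hvf⟩ := hvgr
  obtain ⟨j, rfl⟩ : ∃ j, d = 2 * j := by
    by_contra hcon
    apply hy0
    rw [← hproj, map_add, map_smul, proj_ne _ hvn (fun h => hcon ⟨n, h.symm⟩), smul_zero, add_zero]
    refine algSpan_induction (p := fun c => H914.proj (W.isInternal (P i).obj) d c = 0)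
      ?_ ?_ ?_ ?_ ha
    · rw [map_zero]
    · intro a b ha hb
      rw [map_add, ha, hb, add_zero]
    · intro r a ha
      rw [map_smul, ha, smul_zero]
    · intro j z hz
      exact proj_ne _ (W.cl_mem hz) (fun h => hcon ⟨j, h.symm⟩)
  set a' := H914.proj (W.isInternal (P i).obj) (2 * j) a with ha'
  set v' := H914.proj (W.isInternal (P i).obj) (2 * j) v with hv'
  have hy' : a + c • v = a' + c • v' := by rw [← hproj, map_add, map_smul]
  have ha'A : a' ∈ spanCycles W (P i).obj j := by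
    have h1 : a' ∈ algSpan W (P i).obj := by
      refine algSpan_induction (p := fun a => H914.proj (W.isInternal (P i).obj) (2 * j) a ∈
        algSpan W (P i).obj) ?_ ?_ ?_ ?_ ha
      · rw [map_zero]; exact Submodule.zero_mem _
      · intro a b ha hb
        rw [map_add]; exact Submodule.add_mem _ ha hb
      · intro r a ha
        rw [map_smul]; exact Submodule.smul_mem _ _ ha
      · intro l z hz
        by_cases hl : l = j
        · subst hl
          rw [proj_same _ (W.cl_mem hz)]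
          exact cl_mem_algSpan hz
        · rw [proj_ne _ (W.cl_mem hz) (by omega)]
          exact Submodule.zero_mem _
    exact spanCycles_of_alg h1 (proj_mem _ _ _)
  obtain ⟨r, hr, h2⟩ := exists_span_eig Φ (P i).obj j
  have h3 := span_eig_mul' Φ (h2 a' ha'A) s
  have hv'f : frob Φ (P i).obj (s * r) v' = ((card Φ (P i).obj (s * r) : W.K) ^ j) • v' := by
    by_cases hjn : n = j
    · subst hjn
      have e1 : v' = v := proj_same _ hvn
      rw [e1]
      have h4 : frob Φ (P i).obj (s * r) v = ((p : W.K) ^ (n * m * t)) ^ r • v := by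
        rw [frob_mul_eq, Module.End.pow_apply]
        exact W534.iterate_eig (fun a x => map_smul (frob Φ (P i).obj s) a x) hvf r
      rw [h4, card, Nat.cast_pow, ← pow_mul, ← pow_mul]
      congr 2
      calc n * m * t * r = (t * m) * (r * n) := by ring
        _ = Φ.e (P i).obj * (s * r) * n := by rw [hL.tm, ← hL.se]; ring
    · have e1 : v' = 0 := proj_ne _ hvn (by omega)
      rw [e1, map_zero, smul_zero]
  have h4 : frob Φ (P i).obj (s * r) (a + c • v) = α ^ r • (a + c • v) := by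
    rw [frob_mul_eq, Module.End.pow_apply]
    exact W534.iterate_eig (fun a x => map_smul (frob Φ (P i).obj s) a x) hya r
  refine ⟨j, ?_, r, hr, ?_⟩
  · simp
  · have h5 : frob Φ (P i).obj (s * r) (a + c • v) =
        ((card Φ (P i).obj (s * r) : W.K) ^ j) • (a + c • v) := by
      rw [hy', map_add, map_smul, hv'f, smul_add, smul_comm c, h3]
    rw [h4] at h5
    have h6 := smul_left_injective W.K hy0 h5
    rw [Multiset.map_singleton, Multiset.prod_singleton]
    change α ^ r = _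
    rw [h6, card, Nat.cast_pow, ← pow_mul, ← hL.se]
    push_cast
    rw [← pow_mul]
    congr 1
    ring

end Pool.Agent.W5h58.VL
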