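import Pool.Agent.W5h58.VL.Anti

/-!
# Positivity on the classes generated by classes on pairs of factors and by virtual classes
-/

open CategoryTheory AlgebraicGeometry
open scoped ComplexOrder

universe u v w

namespace Pool.Agent.W5h58.VL

open Pool.Agent.H914 Pool.Agent.H914.VarClass Pool.Agent.H914.VarClass.Obj
  Pool.Agent.H914.WeilCohomology Pool.Agent.H281R3.HT Pool.Agent.H447 Pool.Agent.W552

variable {k : Type u} [Field k] {𝒱 : VarClass k} {ops : CycleOps 𝒱}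
  {W : WeilCohomology.{u, v} ops} {Θ : Th ops}

section Match

variable {Λ : Type} [DecidableEq Λ] {X : Λ → 𝒱.Obj}

/-- The products of pull-backs of classes of the system and of the virtual classes `v a`, no
factor being used twice. -/
inductive MchV (W : WeilCohomology.{u, v} ops) {Λ : Type} [DecidableEq Λ] (X : Λ → 𝒱.Obj)
    (R : ∀ a b, W.H ((X a).prod (X b)) → Prop) (v : ∀ a, W.H (X a)) {Y : 𝒱.Obj}
    (π : ∀ a, Y ⟶ X a) : Finset Λ → W.H Y → Prop
  | one : MchV W X R v π ∅ 1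
  | single {S c a x} : MchV W X R v π S c → a ∉ S → R a a (W.map (fst (X a) (X a)) x) →
      MchV W X R v π (insert a S) (W.map (π a) x * c)
  | virt {S c a} : MchV W X R v π S c → a ∉ S →
      MchV W X R v π (insert a S) (W.map (π a) (v a) * c)
  | pair {S c a b x} : MchV W X R v π S c → a ∉ S → b ∉ S → a ≠ b → R a b x →
      MchV W X R v π (insert a (insert b S)) (W.map (Obj.lift (π a) (π b)) x * c)

variable {R : ∀ a b, W.H ((X a).prod (X b)) → Prop} {v : ∀ a, W.H (X a)} {Y : 𝒱.Obj}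
  {π : ∀ a, Y ⟶ X a}

lemma MchV.AV (hR : ∀ {a b x}, R a b x → AS W _ x) (hv : ∀ a, PV Θ W (X a) (v a))
    {S : Finset Λ} {c : W.H Y} (h : MchV W X R v π S c) : AV Θ W Y c := by
  induction h with
  | one => exact AV.of_AS AS.one
  | @single S c a x _ _ hx ih =>
    have h1 : W552.AS W (X a) x := by
      have h2 := (hR hx).map (diag (X a))
      rwa [← W.map_comp, diag, lift_fst, W.map_id] at h2
    exact (AV.of_AS (h1.map _)).mul ih
  | @virt S c a _ _ ih => exact (AV.of ((hv a).map _)).mul ih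
  | pair _ _ _ _ hx ih => exact (AV.of_AS ((hR hx).map _)).mul ih

lemma MchV.extend (h1 : ∀ a, R a a 1) {S : Finset Λ} {c : W.H Y}
    (h : MchV W X R v π S c) (T : Finset Λ) : MchV W X R v π (T ∪ S) c := by
  induction T using Finset.induction_on with
  | empty => rwa [Finset.empty_union]
  | insert a T _ ih =>
    rw [Finset.insert_union]
    by_cases ha : a ∈ T ∪ S
    · rwa [Finset.insert_eq_of_mem ha]
    · have h2 := MchV.single (x := 1) ih ha (by rw [map_one]; exact h1 a)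
      rwa [map_one, one_mul] at h2

variable {D : ∀ a, (X a).Cycles} {f : ∀ a, Module.End W.K (W.H (X a))}
  {b : ∀ a, HB W (X a)} {F : Subfield W.K} {σ : F →+* ℂ}
  {C : ∀ a, Matrix (Fin (b a).N) (Fin (b a).N) ℂ}
  {B : ∀ a, Matrix (Fin (b a).N) (Fin (b a).N) F}

lemma MchV.RC (A : Anti W b D f R F σ C B) (h1 : ∀ a, R a a 1)
    (hu : ∀ a p, (b a).e.repr 1 p ∈ F)
    (hpos : ∀ a, ∃ q : ℚ, 0 < q ∧ bf W (X a) (D a) (f a) 1 1 = q)
    (hv1 : ∀ a, R a a (H281R3.HT.ext W (v a) (v a))) (hv2 : ∀ a p, (b a).e.repr (v a) p ∈ F)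
    (hv3 : ∀ a, v a ≠ 0 → ∃ q : ℚ, 0 < q ∧ bf W (X a) (D a) (f a) (v a) (v a) = q)
    {S : Finset Λ} {c : W.H Y}
    (h : MchV W X R v π S c) : ∃ l : List Λ, l.Nodup ∧ l.toFinset = S ∧
      RC (fun a p => W.map (π a) ((b a).e p)) F σ C l c := by
  induction h with
  | one => exact ⟨[], List.nodup_nil, rfl, RC.nil⟩
  | @single S c a x _ ha hx ih =>
    obtain ⟨l, hl, hlS, hc⟩ := ih
    obtain ⟨t, ht, htr⟩ := A.single (h1 a) (hu a) (hpos a) hx
    refine ⟨a :: l, List.nodup_cons.2 ⟨fun h0 => ha (hlS ▸ List.mem_toFinset.2 h0), hl⟩,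
      by rw [List.toFinset_cons, hlS], hc.cons1 (t := t) ?_ htr⟩
    conv_lhs => rw [← (b a).e.sum_repr x]
    rw [map_sum]
    apply Finset.sum_congr rfl
    intro p _
    rw [map_smul, ht]
  | @virt S c a _ ha ih =>
    obtain ⟨l, hl, hlS, hc⟩ := ih
    refine ⟨a :: l, List.nodup_cons.2 ⟨fun h0 => ha (hlS ▸ List.mem_toFinset.2 h0), hl⟩,
      by rw [List.toFinset_cons, hlS], ?_⟩
    have ht : ∃ t : Fin (b a).N → F, (∀ p, (b a).e.repr (v a) p = t p) ∧
        ∀ p, σ (t p) = ∑ q, C a p q * starRingEnd ℂ (σ (t q)) := by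
      by_cases h0 : v a = 0
      · refine ⟨0, fun p => ?_, fun p => ?_⟩
        · rw [h0]; simp
        · simp
      · exact anti_sq A (hv1 a) (hv2 a) (hv3 a h0)
    obtain ⟨t, ht, htr⟩ := ht
    refine hc.cons1 (t := t) ?_ htr
    conv_lhs => rw [← (b a).e.sum_repr (v a)]
    rw [map_sum]
    apply Finset.sum_congr rfl
    intro p _
    rw [map_smul, ht]
  | @pair S c a a' x _ ha ha' haa hx ih =>
    obtain ⟨l, hl, hlS, hc⟩ := ih
    obtain ⟨t, ht, htr⟩ := A.real a a' x hx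
    refine ⟨a :: a' :: l, ?_, by rw [List.toFinset_cons, List.toFinset_cons, hlS],
      hc.cons2 (t := t) ?_ htr⟩
    · rw [List.nodup_cons, List.nodup_cons, List.mem_cons]
      refine ⟨?_, fun h0 => ha' (hlS ▸ List.mem_toFinset.2 h0), hl⟩
      rintro (h0 | h0)
      · exact haa h0
      · exact ha (hlS ▸ List.mem_toFinset.2 h0)
    · conv_lhs => rw [← ((b a).ex (b a')).sum_repr x]
      rw [map_sum, Fintype.sum_prod_type]
      apply Finset.sum_congr rfl
      intro p _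
      apply Finset.sum_congr rfl
      intro q _
      rw [map_smul, ht, HB.ex_apply, H281R3.HT.ext, map_mul, ← W.map_comp, ← W.map_comp, lift_fst,
        lift_snd]

end Match

/-- Positivity on the span of the products of pull-backs of classes of the system and of the
virtual classes. -/
theorem coreV_aux {Λ : Type} [Fintype Λ] [DecidableEq Λ] {X : Λ → 𝒱.Obj}
    {D : ∀ a, (X a).Cycles} {f : ∀ a, Module.End W.K (W.H (X a))}
    {R : ∀ a b, W.H ((X a).prod (X b)) → Prop} (S : RSys W X D f R) (h1 : ∀ a, R a a 1)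
    (hpos : ∀ a, ∃ q : ℚ, 0 < q ∧ bf W (X a) (D a) (f a) 1 1 = q) {v : ∀ a, W.H (X a)}
    (hv1 : ∀ a, R a a (H281R3.HT.ext W (v a) (v a))) (hv2 : ∀ a, PV Θ W (X a) (v a))
    (hv3 : ∀ a, v a ≠ 0 → ∃ q : ℚ, 0 < q ∧ bf W (X a) (D a) (f a) (v a) (v a) = q)
    (b : ∀ a, HB W (X a))
    {Y : 𝒱.Obj} {E : Y.Cycles} {π : ∀ a, Y ⟶ X a} {g : Module.End W.K (W.H Y)}
    (hG : Fr W Y E g) (hGS : Sy W Y E g) {l₀ : List Λ} (hl₀ : l₀.Nodup) (hla : ∀ a, a ∈ l₀)
    (hB : ∀ (r u : Idx (fun a => (b a).N) l₀),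
        bf W Y E g (mon (fun a p => W.map (π a) ((b a).e p)) l₀ r)
          (mon (fun a p => W.map (π a) ((b a).e p)) l₀ u) =
        Kron (fun a => (Matrix.of fun p q => bf W (X a) (D a) (f a)
          ((b a).e p) ((b a).e q) : Matrix (Fin (b a).N) (Fin (b a).N) W.K)) l₀ r u)
    (z : W.H Y) (hz : AV Θ W Y z)
    (hzs : z ∈ Submodule.span W.K {c | ∃ T, MchV W X R v π T c})
    (hz0 : z ≠ 0) : ∃ q : ℚ, 0 < q ∧ bf W Y E g z z = q := by
  obtain ⟨F, σ, C, B, A, hF⟩ := exists_anti' S b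
    (S' := (Set.range fun x : Ix b => (b x.1).e.repr 1 x.2) ∪
      (Set.range fun x : Ix b => (b x.1).e.repr (v x.1) x.2))
    ((Set.countable_range _).union (Set.countable_range _))
  have hu : ∀ a p, (b a).e.repr 1 p ∈ F := fun a p => hF (Or.inl ⟨⟨a, p⟩, rfl⟩)
  have huv : ∀ a p, (b a).e.repr (v a) p ∈ F := fun a p => hF (Or.inr ⟨⟨a, p⟩, rfl⟩)
  set e : ∀ a, Fin (b a).N → W.H Y := fun a p => W.map (π a) ((b a).e p) with he
  have hcomm : ∀ a a' p q, e a p * e a' q =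
      (-1 : W.K) ^ ((b a).dg p * (b a').dg q) • (e a' q * e a p) := by
    intro a a' p q
    exact W.comm (W.map_mem _ ((b a).mem p)) (W.map_mem _ ((b a').mem q))
  have hM : RatSub W.K (fun y => AV Θ W Y y ∧ RC e F σ C l₀ y) :=
    ⟨⟨AV.zero, RC.zero _⟩, fun h h' => ⟨h.1.add h'.1, h.2.add h'.2⟩,
      fun q _ h => ⟨h.1.smul q, h.2.smul q⟩⟩
  have hBK : ∀ r u : Idx (fun a => (b a).N) l₀, bf W Y E g (mon e l₀ r)
      (mon e l₀ u) = ((Kron B l₀ r u : F) : W.K) := by
    intro r u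
    rw [hB]
    have h2 := Kron_map F.subtype B l₀ r u
    change ((Kron B l₀ r u : F) : W.K) = _ at h2
    rw [h2]
    have h3 : (fun a => (Matrix.of fun p q => bf W (X a) (D a) (f a)
          ((b a).e p) ((b a).e q) : Matrix (Fin (b a).N) (Fin (b a).N) W.K)) =
        fun a => (B a).map F.subtype := by
      funext a
      ext p q
      exact (A.gram a p q).symm
    rw [h3]
  have hMpos : ∀ y, (AV Θ W Y y ∧ RC e F σ C l₀ y) → y ≠ 0 → ∃ q : ℚ, 0 < q ∧
      bf W Y E g y y = q := by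
    rintro y ⟨hy, T, hT, hTr⟩ hy0
    obtain ⟨q, hq⟩ := bf_ratV hG hy hy
    refine ⟨q, ?_, hq⟩
    have hT0 : T ≠ 0 := by
      rintro rfl
      apply hy0
      rw [hT]
      simp
    refine real_pos (B := B) A.pos hT0 hTr (q := q) ?_
    apply Subtype.ext
    have h3 : bf W Y E g y y = ((∑ r, ∑ u, T r * T u * Kron B l₀ r u : F) : W.K) := by
      rw [hT, map_sum (bf W Y E g), LinearMap.sum_apply]
      push_cast
      apply Finset.sum_congr rfl
      intro r _
      rw [map_sum]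
      apply Finset.sum_congr rfl
      intro u _
      rw [map_smul, map_smul, LinearMap.smul_apply, hBK, smul_eq_mul, smul_eq_mul]
      ring
    rw [← h3, hq]
    simp
  obtain ⟨N, ε, w, hε, hw, horth, hspan⟩ := exists_ratBasis hM (bf W Y E g)
    (fun x y hx hy => bf_ratV hG hx.1 hy.1)
    (fun x y hx hy => bf_symmV hGS hy.1)
    hMpos
  obtain ⟨r, hr⟩ := hspan z (by
    refine Submodule.span_mono ?_ hzs
    rintro c ⟨T, hc⟩
    refine ⟨hc.AV (fun h => S.alg h) hv2, ?_⟩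
    have h2 := hc.extend h1 Finset.univ
    rw [Finset.union_eq_left.2 (Finset.subset_univ T)] at h2
    obtain ⟨l, hl, hlu, hlc⟩ := h2.RC A h1 hu hpos hv1 huv hv3
    refine hlc.perm hcomm A.par (List.perm_of_nodup_nodup_toFinset_eq hl hl₀ ?_)
    rw [hlu]
    ext a
    simp [hla a]) (fun k => bf_ratV hG hz (hε k).1)
  apply hMpos z _ hz0
  rw [hr]
  exact hM.sum _ (fun k _ => hM.smul _ (hε k))

lemma sy_of {Λ : Type} [Fintype Λ] [DecidableEq Λ] {X : Λ → 𝒱.Obj}
    {D : ∀ a, (X a).Cycles} {f : ∀ a, Module.End W.K (W.H (X a))}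
    {R : ∀ a b, W.H ((X a).prod (X b)) → Prop} (S : RSys W X D f R) (a : Λ) :
    Sy W (X a) (D a) (f a) := by
  intro x y
  refine gr_induction (W.isInternal (X a)) (p := fun y => bf W (X a) (D a) (f a) x y =
    bf W (X a) (D a) (f a) (par (W.isInternal (X a)) y) x) ?_ ?_ y
  swap
  · intro y y' hy hy'
    rw [map_add, hy, hy', map_add, map_add, LinearMap.add_apply]
  intro j y hy
  refine gr_induction (W.isInternal (X a)) (p := fun x => bf W (X a) (D a) (f a) x y =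
    bf W (X a) (D a) (f a) (par (W.isInternal (X a)) y) x) ?_ ?_ x
  swap
  · intro x x' hx hx'
    rw [map_add, LinearMap.add_apply, hx, hx', map_add]
  intro i x hx
  rw [par, scal_apply _ _ hy, map_smul, LinearMap.smul_apply, smul_eq_mul]
  exact S.bf_symm hy hx

/-- **Positivity on the span of the products of pull-backs of classes of the system and of the
virtual classes.** -/
theorem coreV {n : ℕ} {P : Fin (n + 1) → Polarized 𝒱}
    {f : ∀ a, Module.End W.K (W.H (P a).X)} {R : ∀ a b, W.H ((P a).X.prod (P b).X) → Prop}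
    (S : RSys W (fun a => (P a).X) (fun a => (P a).D) f R) (h1 : ∀ a, R a a 1)
    (hpos : ∀ a, ∃ q : ℚ, 0 < q ∧ bf W (P a).X (P a).D (f a) 1 1 = q)
    {v : ∀ a, W.H (P a).X}
    (hv1 : ∀ a, R a a (H281R3.HT.ext W (v a) (v a))) (hv2 : ∀ a, PV Θ W (P a).X (v a))
    (hv3 : ∀ a, v a ≠ 0 → ∃ q : ℚ, 0 < q ∧ bf W (P a).X (P a).D (f a) (v a) (v a) = q) :
    ∃ g, Fr W (nest ops n P).X (nest ops n P).D g ∧ ∀ z : W.H (nest ops n P).X, AV Θ W _ z →
      z ∈ Submodule.span W.K {c | ∃ T, MchV W (fun a => (P a).X) R v (prj ops n P) T c} →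
      z ≠ 0 → ∃ q : ℚ, 0 < q ∧ bf W (nest ops n P).X (nest ops n P).D g z z = q := by
  have hSy : ∀ a, Sy W (P a).X (P a).D (f a) := fun a => sy_of S a
  obtain ⟨g, l₀, hG, hGS, hl₀, hla, hB⟩ := exists_nest n P f S.fr hSy
    (fun a => (exists_HB W (P a).X).some)
  exact ⟨g, hG, coreV_aux S h1 hpos hv1 hv2 hv3 _ hG hGS hl₀ hla hB⟩

end Pool.Agent.W5h58.VL
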