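import Pool.Agent.Y134.Two.Alt

/-!
# The norm of the fixed vector of a similitude of a quadratic space of odd dimension
-/

open Matrix Polynomial

namespace Pool.Agent.W5h58.VL

variable {K : Type} [Field K] [CharZero K] {g : ℕ}

lemma eigen_unique {n : Type} [Fintype n] [DecidableEq n] {M : Matrix n n K} {r : K} {P : K[X]}
    (hP : M.charpoly = P * (X - C r)) (h1 : P.eval r ≠ 0) {e x : n → K} (he0 : e ≠ 0)
    (he : M *ᵥ e = r • e) (hx : M *ᵥ x = r • x) : ∃ c : K, x = c • e := by
  have h2 : (Matrix.toLin' M).charpoly.rootMultiplicity r = 1 := by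
    have hP0 : P ≠ 0 := by
      rintro rfl
      simp at h1
    rw [Matrix.charpoly_toLin', hP, rootMultiplicity_mul (mul_ne_zero hP0 (X_sub_C_ne_zero r)),
      rootMultiplicity_X_sub_C_self, rootMultiplicity_eq_zero h1, zero_add]
  have h3 := LinearMap.finrank_eigenspace_le (Matrix.toLin' M) r
  rw [h2] at h3
  rw [finrank_le_one_iff] at h3
  obtain ⟨v, hv⟩ := h3
  have he' : e ∈ Module.End.eigenspace (Matrix.toLin' M) r := by
    rw [Module.End.mem_eigenspace_iff, Matrix.toLin'_apply, he]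
  have hx' : x ∈ Module.End.eigenspace (Matrix.toLin' M) r := by
    rw [Module.End.mem_eigenspace_iff, Matrix.toLin'_apply, hx]
  obtain ⟨a, ha⟩ := hv ⟨e, he'⟩
  obtain ⟨b, hb⟩ := hv ⟨x, hx'⟩
  have ha' : a • (v : n → K) = e := congrArg Subtype.val ha
  have hb' : b • (v : n → K) = x := congrArg Subtype.val hb
  have ha0 : a ≠ 0 := by
    rintro rfl
    rw [zero_smul] at ha'
    exact he0 ha'.symm
  refine ⟨b * a⁻¹, ?_⟩
  rw [← ha', ← hb', smul_smul, mul_assoc, inv_mul_cancel₀ ha0, mul_one]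

/-- The adjugate of `r - M` on an eigenvector. -/
lemma adj_eigen {n : Type} [Fintype n] [DecidableEq n] {M : Matrix n n K} {r : K} {P : K[X]}
    (hP : M.charpoly = P * (X - C r)) {e : n → K} (he : M *ᵥ e = r • e) :
    (Matrix.scalar n r - M).adjugate *ᵥ e = P.eval r • e := by
  set e' : n → K[X] := fun i => C (e i) with he'
  have h1 : M.charmatrix *ᵥ e' = (X - C r) • e' := by
    funext i
    have h2 := congrFun he i
    rw [Matrix.mulVec, dotProduct] at h2 ⊢
    simp only [Pi.smul_apply, smul_eq_mul] at h2 ⊢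
    have h3 : ∀ j, M.charmatrix i j * e' j = (if i = j then X * C (e j) else 0) - C (M i j * e j) := by
      intro j
      rw [Matrix.charmatrix_apply, he', Matrix.diagonal_apply, map_mul]
      split_ifs <;> ring
    rw [Finset.sum_congr rfl (fun j _ => h3 j), Finset.sum_sub_distrib, Finset.sum_ite_eq,
      if_pos (Finset.mem_univ _), ← map_sum, h2, map_mul]
    ring
  have h2 : M.charmatrix.adjugate *ᵥ e' = P • e' := by
    have h3 : M.charmatrix.adjugate *ᵥ (M.charmatrix *ᵥ e') = M.charpoly • e' := by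
      rw [Matrix.mulVec_mulVec, Matrix.adjugate_mul, Matrix.smul_mulVec, Matrix.one_mulVec]
      rfl
    rw [h1, Matrix.mulVec_smul, hP, mul_comm P, mul_smul] at h3
    funext i
    have h4 := congrFun h3 i
    rw [Pi.smul_apply, Pi.smul_apply, smul_eq_mul, smul_eq_mul] at h4
    exact mul_left_cancel₀ (X_sub_C_ne_zero r) h4
  have h3 : (Matrix.scalar n r - M) = (Polynomial.evalRingHom r).mapMatrix M.charmatrix := by
    ext i j
    rw [RingHom.mapMatrix_apply, Matrix.map_apply, Matrix.charmatrix_apply, Matrix.sub_apply,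
      Matrix.scalar_apply, Matrix.diagonal_apply, Matrix.diagonal_apply]
    split_ifs <;> simp
  rw [h3, ← RingHom.map_adjugate]
  funext i
  have h4 := congrArg (Polynomial.eval r) (congrFun h2 i)
  rw [Matrix.mulVec, dotProduct, Polynomial.eval_finset_sum, Pi.smul_apply, smul_eq_mul,
    Polynomial.eval_mul] at h4
  rw [Matrix.mulVec, dotProduct, Pi.smul_apply, smul_eq_mul]
  simp only [he', Polynomial.eval_mul, Polynomial.eval_C] at h4
  rw [← h4]
  rfl

/-- **The norm of the fixed vector.** -/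
theorem disc (G M : Matrix (Fin (2 * g + 1)) (Fin (2 * g + 1)) K) (hG : Gᵀ = G)
    (hGd : G.det ≠ 0) {r : K} (hr : r ≠ 0) (hM : Mᵀ * G * M = (r ^ 2) • G) {P : K[X]}
    (hP : M.charpoly = P * (X - C r)) (h1 : P.eval r ≠ 0) (h2 : P.eval (-r) ≠ 0) {c : K}
    (h0 : P.eval 0 = c ^ 2) (hc : c ≠ 0) : ∃ w : Fin (2 * g + 1) → K, M *ᵥ w = r • w ∧
      w ⬝ᵥ (G *ᵥ w) = P.eval r * P.eval (-r) * G.det := by
  have hcard : Fintype.card (Fin (2 * g + 1)) = 2 * g + 1 := Fintype.card_fin _
  have hneg : ∀ A : Matrix (Fin (2 * g + 1)) (Fin (2 * g + 1)) K, (-A).det = -A.det := by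
    intro A
    rw [Matrix.det_neg, hcard, Odd.neg_one_pow ⟨g, rfl⟩, neg_one_mul]
  have hadjneg : ∀ A : Matrix (Fin (2 * g + 1)) (Fin (2 * g + 1)) K,
      (-A).adjugate = A.adjugate := by
    intro A
    have h := Matrix.adjugate_smul (-1 : K) A
    rw [hcard, Nat.add_sub_cancel, pow_mul, neg_one_sq, one_pow, one_smul, neg_one_smul] at h
    exact h
  have hev : ∀ t, (Matrix.scalar (Fin (2 * g + 1)) t - M).det = P.eval t * (t - r) := by
    intro t
    rw [← Matrix.eval_charpoly, hP, eval_mul, eval_sub, eval_X, eval_C]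
  have hdM : M.det = P.eval 0 * r := by
    have h := hev 0
    rw [map_zero, zero_sub, hneg, zero_sub] at h
    linear_combination -h
  set M1 := M + Matrix.scalar (Fin (2 * g + 1)) r with hM1
  set M2 := M - Matrix.scalar (Fin (2 * g + 1)) r with hM2
  have hd1 : M1.det = 2 * r * P.eval (-r) := by
    have h := hev (-r)
    have e : Matrix.scalar (Fin (2 * g + 1)) (-r) - M = -M1 := by
      rw [hM1, map_neg]; abel
    rw [e, hneg] at h
    linear_combination -h
  have hd1' : M1.det ≠ 0 := by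
    rw [hd1]; exact mul_ne_zero (mul_ne_zero two_ne_zero hr) h2
  have hdM' : M.det ≠ 0 := by
    rw [hdM, h0]; exact mul_ne_zero (pow_ne_zero _ hc) hr
  -- the eigenvector
  obtain ⟨e, he0, he⟩ : ∃ e : Fin (2 * g + 1) → K, e ≠ 0 ∧ M *ᵥ e = r • e := by
    have h : (Matrix.scalar (Fin (2 * g + 1)) r - M).det = 0 := by rw [hev, sub_self, mul_zero]
    obtain ⟨e, he0, he⟩ := Matrix.exists_mulVec_eq_zero_iff.2 h
    refine ⟨e, he0, ?_⟩
    rw [Matrix.sub_mulVec, sub_eq_zero] at he
    rw [← he]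
    funext i
    simp [Matrix.scalar_apply, Matrix.mulVec_diagonal]
  have hM2adj : M2.adjugate *ᵥ e = P.eval r • e := by
    have h := adj_eigen hP he
    have e1 : M2 = -(Matrix.scalar (Fin (2 * g + 1)) r - M) := by rw [hM2]; abel
    rw [e1, hadjneg]
    exact h
  have hM1e : M1 *ᵥ e = (2 * r) • e := by
    rw [hM1, Matrix.add_mulVec, he]
    funext i
    simp [Matrix.scalar_apply, Matrix.mulVec_diagonal]
    ring
  have hadj_of : ∀ (A : Matrix (Fin (2 * g + 1)) (Fin (2 * g + 1)) K) (t : K), A *ᵥ e = t • e →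
      t • (A.adjugate *ᵥ e) = A.det • e := by
    intro A t h
    have h3 : A.adjugate *ᵥ (A *ᵥ e) = A.det • e := by
      rw [Matrix.mulVec_mulVec, Matrix.adjugate_mul, Matrix.smul_mulVec, Matrix.one_mulVec]
    rw [h, Matrix.mulVec_smul] at h3
    exact h3
  -- the alternating matrix
  set A := G * M - Mᵀ * G with hA
  have hAT : Aᵀ = -A := by
    rw [hA, Matrix.transpose_sub, Matrix.transpose_mul, Matrix.transpose_mul,
      Matrix.transpose_transpose, hG]
    abel
  have hAM : A * M = G * (M1 * M2) := by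
    have e1 : M1 * M2 = M * M - (r ^ 2) • (1 : Matrix _ _ K) := by
      have e2 : Matrix.scalar (Fin (2 * g + 1)) r = r • (1 : Matrix _ _ K) := by
        rw [Matrix.smul_one_eq_diagonal, Matrix.scalar_apply]
      rw [hM1, hM2, e2]
      simp only [mul_sub, add_mul, Matrix.mul_smul, Matrix.smul_mul, mul_one, one_mul]
      rw [sub_eq_iff_eq_add, smul_smul, pow_two]
      simp only [sub_eq_add_neg]
      abel
    rw [hA, sub_mul, hM, e1, mul_sub, Matrix.mul_smul, mul_one, mul_assoc]
  have hGe : Mᵀ *ᵥ (G *ᵥ e) = r • (G *ᵥ e) := by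
    have h : Mᵀ *ᵥ (G *ᵥ (M *ᵥ e)) = (r ^ 2) • (G *ᵥ e) := by
      rw [Matrix.mulVec_mulVec, Matrix.mulVec_mulVec, hM, Matrix.smul_mulVec]
    rw [he, Matrix.mulVec_smul, Matrix.mulVec_smul, pow_two, mul_smul] at h
    exact smul_right_injective _ hr h
  have hAe : A *ᵥ e = 0 := by
    rw [hA, Matrix.sub_mulVec, ← Matrix.mulVec_mulVec, he, ← Matrix.mulVec_mulVec, hGe,
      Matrix.mulVec_smul, sub_self]
  have hdA : A.det = 0 := Matrix.exists_mulVec_eq_zero_iff.1 ⟨e, he0, hAe⟩
  have hker : ∀ x, A *ᵥ x = 0 → ∃ t : K, x = t • e := by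
    intro x hx
    set x' := M⁻¹ *ᵥ x with hx'
    have e1 : M *ᵥ x' = x := by
      rw [hx', Matrix.mulVec_mulVec, Matrix.mul_nonsing_inv _ (isUnit_iff_ne_zero.2 hdM'),
        Matrix.one_mulVec]
    have e2 : G *ᵥ (M1 *ᵥ (M2 *ᵥ x')) = 0 := by
      rw [Matrix.mulVec_mulVec, Matrix.mulVec_mulVec, mul_assoc, ← hAM, ← Matrix.mulVec_mulVec,
        e1, hx]
    have e3 : M2 *ᵥ x' = 0 := by
      by_contra h3
      have h4 : M1 *ᵥ (M2 *ᵥ x') = 0 := by
        by_contra h4
        exact hGd (Matrix.exists_mulVec_eq_zero_iff.1 ⟨_, h4, e2⟩)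
      exact hd1' (Matrix.exists_mulVec_eq_zero_iff.1 ⟨_, h3, h4⟩)
    have e4 : M *ᵥ x' = r • x' := by
      rw [hM2, Matrix.sub_mulVec, sub_eq_zero] at e3
      rw [e3]
      funext i
      simp [Matrix.scalar_apply, Matrix.mulVec_diagonal]
    obtain ⟨t, ht⟩ := eigen_unique hP h1 he0 he e4
    refine ⟨r * t, ?_⟩
    rw [← e1, e4, ht, smul_smul]
  -- the adjugate
  have hadjsymm : A.adjugateᵀ = A.adjugate := by
    rw [Matrix.adjugate_transpose, hAT, hadjneg]
  have hcol : ∀ j, ∃ t : K, ∀ i, A.adjugate i j = t * e i := by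
    intro j
    obtain ⟨t, ht⟩ := hker (fun i => A.adjugate i j) (by
      have h3 := Matrix.mul_adjugate A
      rw [hdA, zero_smul] at h3
      funext i
      have := congrFun (congrFun h3 i) j
      exact this)
    exact ⟨t, fun i => congrFun ht i⟩
  choose t ht using hcol
  obtain ⟨i₀, hi₀⟩ : ∃ i, e i ≠ 0 := by
    by_contra h
    push Not at h
    exact he0 (funext h)
  have htt : ∀ j, t j = t i₀ / e i₀ * e j := by
    intro j
    have h3 : A.adjugate i₀ j = A.adjugate j i₀ := by
      have := congrFun (congrFun hadjsymm j) i₀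
      exact this
    rw [ht, ht] at h3
    rw [div_mul_eq_mul_div, eq_div_iff hi₀, h3]
  obtain ⟨s, hs⟩ : IsSquare (A.adjugate i₀ i₀) := by
    rw [Matrix.adjugate_fin_succ_eq_det_submatrix, ← two_mul, pow_mul, neg_one_sq, one_pow,
      one_mul]
    refine Pool.Agent.Y134.Two.isSquare_det_of_alt _ _ rfl _ ?_ ?_
    · intro i j
      have := congrFun (congrFun hAT (i₀.succAbove j)) (i₀.succAbove i)
      rw [Matrix.transpose_apply, Matrix.neg_apply] at this
      rw [Matrix.submatrix_apply, Matrix.submatrix_apply, this]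
    · intro i
      have := congrFun (congrFun hAT (i₀.succAbove i)) (i₀.succAbove i)
      rw [Matrix.transpose_apply, Matrix.neg_apply] at this
      rw [Matrix.submatrix_apply]
      exact self_eq_neg.1 this
  set μ := s / e i₀ with hμ
  have hadj : ∀ i j, A.adjugate i j = μ ^ 2 * (e i * e j) := by
    intro i j
    rw [ht, htt]
    rw [ht] at hs
    have h3 : t i₀ / e i₀ = μ ^ 2 := by
      rw [hμ, div_pow, div_eq_div_iff hi₀ (pow_ne_zero _ hi₀)]
      linear_combination (e i₀) * hs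
    rw [h3]
    ring
  set B := e ⬝ᵥ (G *ᵥ e) with hB
  have hadjG : A.adjugate *ᵥ (G *ᵥ e) = (μ ^ 2 * B) • e := by
    funext i
    rw [Matrix.mulVec, dotProduct, Pi.smul_apply, smul_eq_mul, hB, dotProduct, Finset.mul_sum,
      Finset.sum_mul]
    apply Finset.sum_congr rfl
    intro j _
    rw [hadj]
    ring
  -- the relation
  have hrel : (μ ^ 2 * B * M.det) • e = (G.det * P.eval r * (r * P.eval (-r))) • e := by
    have h3 := congrArg Matrix.adjugate hAM
    rw [Matrix.adjugate_mul_distrib, Matrix.adjugate_mul_distrib, Matrix.adjugate_mul_distrib] at h3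
    have h4 := congrArg (fun Z => r • (2 * r) • (Z *ᵥ (G *ᵥ e))) h3
    beta_reduce at h4
    rw [← Matrix.mulVec_mulVec, hadjG, Matrix.mulVec_smul] at h4
    have h5 : (M2.adjugate * M1.adjugate * G.adjugate) *ᵥ (G *ᵥ e) =
        G.det • (M2.adjugate *ᵥ (M1.adjugate *ᵥ e)) := by
      rw [← Matrix.mulVec_mulVec, Matrix.mulVec_mulVec (N := G), Matrix.adjugate_mul,
        Matrix.smul_mulVec, Matrix.one_mulVec, Matrix.mulVec_smul, ← Matrix.mulVec_mulVec]
    rw [h5] at h4
    have h6 := hadj_of M r he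
    have h7 := hadj_of M1 (2 * r) hM1e
    have h8 : r • (2 * r) • (μ ^ 2 * B) • (M.adjugate *ᵥ e) =
        ((2 * r) * (μ ^ 2 * B)) • (M.det • e) := by
      rw [← h6, smul_smul, smul_smul, smul_smul]
      congr 1
      ring
    have h9 : r • (2 * r) • G.det • (M2.adjugate *ᵥ (M1.adjugate *ᵥ e)) =
        (r * G.det) • (M1.det • (P.eval r • e)) := by
      have h10 : (2 * r) • (M2.adjugate *ᵥ (M1.adjugate *ᵥ e)) = M1.det • (P.eval r • e) := by
        rw [← Matrix.mulVec_smul, h7, Matrix.mulVec_smul, hM2adj]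
      rw [← h10, smul_smul, smul_smul, smul_smul]
      congr 1
      ring
    rw [h8, h9, hd1] at h4
    have h11 : (2 * r) • ((μ ^ 2 * B * M.det) • e) =
        (2 * r) • ((G.det * P.eval r * (r * P.eval (-r))) • e) := by
      rw [smul_smul, smul_smul] at h4
      rw [smul_smul, smul_smul]
      rw [smul_smul] at h4
      convert h4 using 2 <;> ring
    exact smul_right_injective _ (mul_ne_zero two_ne_zero hr) h11
  have hrel' := congrFun hrel i₀
  rw [Pi.smul_apply, Pi.smul_apply, smul_eq_mul, smul_eq_mul] at hrel'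
  have hrel2 := mul_right_cancel₀ hi₀ hrel'
  rw [hdM, h0] at hrel2
  have hfin : (μ * c) ^ 2 * B = P.eval r * P.eval (-r) * G.det := by
    apply mul_left_cancel₀ hr
    linear_combination hrel2
  refine ⟨(μ * c) • e, ?_, ?_⟩
  · rw [Matrix.mulVec_smul, he, smul_comm]
  · rw [Matrix.mulVec_smul, smul_dotProduct, dotProduct_smul, ← hfin, smul_eq_mul, smul_eq_mul]
    ring

end Pool.Agent.W5h58.VL
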