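import Pool.Agent.W5h58.VL.Split
import Pool.Agent.W534.Tate
import Pool.Agent.W534.PoleDefs

/-!
# The external square of the fixed vector as a class of cycles in all theories
-/

open CategoryTheory AlgebraicGeometry Polynomial

universe u v w

namespace Pool.Agent.W5h58.VL

open Pool.Agent.H914 Pool.Agent.H914.VarClass Pool.Agent.H914.VarClass.Obj
  Pool.Agent.H914.WeilCohomology Pool.Agent.H281R3.HT Pool.Agent.H447 Pool.Agent.W552
open Pool.Agent.W534 (charpolyOn)

variable {k : Type u} [Field k] {𝒱 : VarClass k} {ops : CycleOps 𝒱}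

lemma line_of {K E : Type*} [Field K] [AddCommGroup E] [Module K E] [Module.Finite K E]
    (f : E →ₗ[K] E) {ρ : K} (h : f.charpoly.rootMultiplicity ρ = 1) {w x : E} (hw0 : w ≠ 0)
    (hw : f w = ρ • w) (hx : f x = ρ • x) : ∃ c : K, x = c • w := by
  have h3 := LinearMap.finrank_eigenspace_le f ρ
  rw [h, finrank_le_one_iff] at h3
  obtain ⟨v, hv⟩ := h3
  have hwm : w ∈ Module.End.eigenspace f ρ := Module.End.mem_eigenspace_iff.2 hw
  have hxm : x ∈ Module.End.eigenspace f ρ := Module.End.mem_eigenspace_iff.2 hx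
  obtain ⟨a, ha⟩ := hv ⟨w, hwm⟩
  obtain ⟨b, hb⟩ := hv ⟨x, hxm⟩
  have ha' : a • (v : E) = w := congrArg Subtype.val ha
  have hb' : b • (v : E) = x := congrArg Subtype.val hb
  have ha0 : a ≠ 0 := by
    rintro rfl
    rw [zero_smul] at ha'
    exact hw0 ha'.symm
  refine ⟨b * a⁻¹, ?_⟩
  rw [← ha', ← hb', smul_smul, mul_assoc, inv_mul_cancel₀ ha0, mul_one]

/-- The class of the graph of an iterate. -/
noncomputable def gam (T : WeilCohomology.{u, v} ops) {X : 𝒱.Obj} (fr : X ⟶ X) (m : ℕ) :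
    T.H (X.prod X) :=
  T.cl _ (ops.push (Obj.lift (W534.iter fr m) (𝟙 X)) X.V.fundCycle)

section

variable {T : WeilCohomology.{u, v} ops} {X : 𝒱.Obj} {fr : X ⟶ X}

lemma corr_gam (m : ℕ) (a : T.H X) : T.corr (gam T fr m) a = (T.map fr)^[m] a := by
  have e1 : Obj.lift (W534.iter fr m) (𝟙 X) ≫ snd X X = 𝟙 X := Obj.lift_snd _ _
  have e2 : Obj.lift (W534.iter fr m) (𝟙 X) ≫ fst X X = W534.iter fr m := Obj.lift_fst _ _
  rw [gam, T.cl_push, T.cl_fund, corr_apply, ← T.push_mul, ← T.push_comp, ← T.map_comp, e1, e2,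
    T.push_id, one_mul, W534.map_iter]

lemma ua_gam {Θ : Th ops} {W : WeilCohomology.{u, v} ops} (m : ℕ) :
    UA Θ W (X.prod X) (gam W fr m) (fun i => gam (Θ.T i) fr m) := by
  refine UA.of (j := X.dim) (ops.push_mem _ X.V.fundCycle_mem ?_)
  rw [dim_prod]; omega

lemma UA.ev {Θ : Th ops} {W : WeilCohomology.{u, v} ops} {x : W.H X} {y : ∀ i, (Θ.T i).H X}
    (h : UA Θ W X x y) : x ∈ Ev W X ∧ ∀ i, y i ∈ Ev (Θ.T i) X := by
  refine UA.ind (p := fun x y => x ∈ Ev W X ∧ ∀ i, y i ∈ Ev (Θ.T i) X) ?_ ?_ h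
  · intro j z hz
    exact ⟨Ev.of (W.cl_mem hz), fun i => Ev.of ((Θ.T i).cl_mem hz)⟩
  · intro a b a' b' ha ha'
    exact ⟨Submodule.add_mem _ ha.1 ha'.1, fun i => Submodule.add_mem _ (ha.2 i) (ha'.2 i)⟩

lemma UA.sum {Θ : Th ops} {W : WeilCohomology.{u, v} ops} {J : Type*} (t : Finset J)
    (x : J → W.H X) (y : J → ∀ i, (Θ.T i).H X) (h : ∀ j ∈ t, UA Θ W X (x j) (y j)) :
    UA Θ W X (∑ j ∈ t, x j) (fun i => ∑ j ∈ t, y j i) := by
  classical
  induction t using Finset.induction_on with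
  | empty => simp only [Finset.sum_empty]; exact UA.zero
  | insert j t hj ih =>
    have := (h j (by simp)).add (ih (fun l hl => h l (by simp [hl])))
    rw [Finset.sum_insert hj]
    convert this using 1
    funext i
    rw [Finset.sum_insert hj]
    rfl

lemma corr_ext {Y : 𝒱.Obj} {a : T.H X} {b : T.H Y} (hb : b ∈ Ev T Y) (x : T.H X) :
    T.corr (ext T a b) x = T.tr X (a * x) • b := by
  rw [corr_apply, H281R3.HT.ext, mul_assoc, Ev.comm (Ev.map _ hb), ← mul_assoc, ← map_mul, T.push_snd]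

variable (T) in
/-- The class which is the external square of the fixed vector. -/
noncomputable def epsT (fr : X ⟶ X) {I : Type w} [Fintype I] (s : I → T.H X) (H : I → I → ℚ)
    (G : ℚ[X]) (r₁ : ℚ) : T.H (X.prod X) :=
  (r₁ : T.K) • ∑ m ∈ Finset.range (G.natDegree + 1), ((G.coeff m : ℚ) : T.K) •
    (gam T fr m + ((-1 : ℚ) : T.K) • ∑ a, ∑ b, ((H a b : ℚ) : T.K) •
      ext T (s a) (T.map (W534.iter fr m) (s b)))

lemma epsT_ua {Θ : Th ops} {W : WeilCohomology.{u, v} ops} {I : Type w} [Fintype I]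
    {s : I → W.H X} {s' : I → ∀ i, (Θ.T i).H X} (h : ∀ a, UA Θ W X (s a) (s' a))
    (H : I → I → ℚ) (G : ℚ[X]) (r₁ : ℚ) :
    UA Θ W (X.prod X) (epsT W fr s H G r₁)
      (fun i => epsT (Θ.T i) fr (fun a => s' a i) H G r₁) := by
  unfold epsT
  refine UA.smul r₁ (y := fun i => ∑ m ∈ Finset.range (G.natDegree + 1),
    ((G.coeff m : ℚ) : (Θ.T i).K) • (gam (Θ.T i) fr m + ((-1 : ℚ) : (Θ.T i).K) • ∑ a, ∑ b,
      ((H a b : ℚ) : (Θ.T i).K) • ext (Θ.T i) (s' a i) ((Θ.T i).map (W534.iter fr m) (s' b i))))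
    (UA.sum _ _ (fun m i => ((G.coeff m : ℚ) : (Θ.T i).K) • (gam (Θ.T i) fr m +
      ((-1 : ℚ) : (Θ.T i).K) • ∑ a, ∑ b, ((H a b : ℚ) : (Θ.T i).K) •
        ext (Θ.T i) (s' a i) ((Θ.T i).map (W534.iter fr m) (s' b i)))) ?_)
  intro m _
  refine UA.smul (G.coeff m) (y := fun i => gam (Θ.T i) fr m +
      ((-1 : ℚ) : (Θ.T i).K) • ∑ a, ∑ b, ((H a b : ℚ) : (Θ.T i).K) •
        ext (Θ.T i) (s' a i) ((Θ.T i).map (W534.iter fr m) (s' b i))) ?_
  refine UA.add (ua_gam m) (y' := fun i => ((-1 : ℚ) : (Θ.T i).K) • ∑ a, ∑ b,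
    ((H a b : ℚ) : (Θ.T i).K) • ext (Θ.T i) (s' a i) ((Θ.T i).map (W534.iter fr m) (s' b i))) ?_
  refine UA.smul (-1) (y := fun i => ∑ a, ∑ b, ((H a b : ℚ) : (Θ.T i).K) •
    ext (Θ.T i) (s' a i) ((Θ.T i).map (W534.iter fr m) (s' b i))) ?_
  refine UA.sum _ _ (fun a i => ∑ b, ((H a b : ℚ) : (Θ.T i).K) •
    ext (Θ.T i) (s' a i) ((Θ.T i).map (W534.iter fr m) (s' b i))) ?_
  intro a _
  refine UA.sum _ _ (fun b i => ((H a b : ℚ) : (Θ.T i).K) •
    ext (Θ.T i) (s' a i) ((Θ.T i).map (W534.iter fr m) (s' b i))) ?_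
  intro b _
  refine UA.smul (H a b) (y := fun i =>
    ext (Θ.T i) (s' a i) ((Θ.T i).map (W534.iter fr m) (s' b i))) ?_
  exact ((h a).map (fst X X)).mul (((h b).map (W534.iter fr m)).map (snd X X))

lemma aeval_range (F : Module.End T.K (T.H X)) (G : ℚ[X]) (x : T.H X) :
    (aeval F (G.map (Rat.castHom T.K))) x =
      ∑ m ∈ Finset.range (G.natDegree + 1), ((G.coeff m : ℚ) : T.K) • F^[m] x := by
  rw [aeval_eq_sum_range' (n := G.natDegree + 1) (by
    have := Polynomial.natDegree_map_le (f := Rat.castHom T.K) (p := G)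
    omega), LinearMap.sum_apply]
  apply Finset.sum_congr rfl
  intro m _
  rw [coeff_map, LinearMap.smul_apply, Module.End.pow_apply]
  rfl

/-- **The class is the external square of the fixed vector.** -/
theorem epsT_eq {Y : 𝒱.Obj} {mor : X ⟶ Y} {V : Submodule T.K (T.H X)} (hs : Split T mor V)
    {I : Type w} [Fintype I] {s : I → T.H X} {H : I → I → ℚ}
    (him : ∀ a, ∃ y, s a = T.map mor y) (hev : ∀ a, s a ∈ Ev T X)
    (hrep : ∀ y, T.map mor y = ∑ a, ∑ b, ((H a b : T.K) * T.tr X (T.map mor y * s a)) • s b)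
    {G : ℚ[X]} {r₁ : ℚ} {w : T.H X} (hwV : w ∈ V) (hwe : w ∈ Ev T X)
    (hG : ∀ t ∈ V, (r₁ : T.K) • (aeval (T.map fr).toLinearMap (G.map (Rat.castHom T.K))) t =
      T.tr X (w * t) • w) :
    epsT T fr s H G r₁ = ext T w w := by
  rw [← sub_eq_zero]
  apply corr_inj
  have e0 : epsT T fr s H G r₁ - ext T w w = epsT T fr s H G r₁ + (-1 : T.K) • ext T w w := by
    rw [neg_one_smul, sub_eq_add_neg]
  rw [e0, corr_add, corr_smul]
  apply LinearMap.ext
  intro x
  rw [LinearMap.add_apply, LinearMap.smul_apply, corr_ext hwe, neg_one_smul, LinearMap.zero_apply,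
    add_neg_eq_zero]
  obtain ⟨y, hy⟩ := hs.gen x
  set t := x - T.map mor y with ht
  have hx : x = T.map mor y + t := by rw [ht]; abel
  have h1 : T.tr X (w * x) = T.tr X (w * t) := by
    rw [hx, mul_add, map_add, hs.orth hwV, zero_add]
  have h2 : ∑ a, ∑ b, ((H a b : T.K) * T.tr X (s a * x)) • s b = T.map mor y := by
    rw [hrep y]
    apply Finset.sum_congr rfl
    intro a _
    apply Finset.sum_congr rfl
    intro b _
    congr 2
    obtain ⟨y', hy'⟩ := him a
    rw [Ev.comm (hev a), hx, add_mul, map_add, hy', hs.orth hy, add_zero]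
  rw [h1, ← hG t hy, epsT, corr_smul, LinearMap.smul_apply, aeval_range]
  congr 1
  have h3 : ∀ (J : Finset ℕ) (c : ℕ → T.H (X.prod X)), T.corr (∑ m ∈ J, c m) x =
      ∑ m ∈ J, T.corr (c m) x := by
    intro J c
    classical
    induction J using Finset.induction_on with
    | empty => rw [Finset.sum_empty, Finset.sum_empty, corr_zero, LinearMap.zero_apply]
    | insert j J hj ih => rw [Finset.sum_insert hj, Finset.sum_insert hj, corr_add,
        LinearMap.add_apply, ih]
  have h4 : ∀ {J : Type w} [Fintype J] (c : J → T.H (X.prod X)), T.corr (∑ m, c m) x =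
      ∑ m, T.corr (c m) x := by
    intro J _ c
    classical
    induction (Finset.univ : Finset J) using Finset.induction_on with
    | empty => rw [Finset.sum_empty, Finset.sum_empty, corr_zero, LinearMap.zero_apply]
    | insert j J hj ih => rw [Finset.sum_insert hj, Finset.sum_insert hj, corr_add,
        LinearMap.add_apply, ih]
  rw [h3]
  apply Finset.sum_congr rfl
  intro m _
  rw [corr_smul, LinearMap.smul_apply, corr_add, LinearMap.add_apply, corr_gam, corr_smul,
    LinearMap.smul_apply, h4]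
  congr 1
  have h5 : ∑ a, T.corr (∑ b, ((H a b : ℚ) : T.K) • ext T (s a) (T.map (W534.iter fr m) (s b))) x =
      (T.map fr)^[m] (T.map mor y) := by
    rw [← h2, ← W534.map_iter, map_sum]
    apply Finset.sum_congr rfl
    intro a _
    rw [h4, map_sum]
    apply Finset.sum_congr rfl
    intro b _
    rw [corr_smul, LinearMap.smul_apply, corr_ext (Ev.map _ (hev b)), map_smul, smul_smul]
  have h6 : ∀ z : T.H X, (T.map fr)^[m] z = T.map (W534.iter fr m) z := fun z =>
    (W534.map_iter fr m z).symm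
  rw [h5, Rat.cast_neg, Rat.cast_one, neg_one_smul, h6, h6]
  change _ = (T.map fr)^[m] t
  rw [h6, ht, map_sub, sub_eq_add_neg]

/-- The image under the complementary factor of the characteristic polynomial. -/
theorem line_data {V : Submodule T.K (T.H X)} {P : ℚ[X]} (hPm : P.Monic) {ρ : ℚ} (hρ : ρ ≠ 0)
    (hcp : charpolyOn (T.map fr).toLinearMap V =
      (P * (Polynomial.X - C ρ)).map (Rat.castHom T.K))
    (hP : P.eval ρ ≠ 0) (hQ : ∀ x, T.tr X (T.map fr x) = ((ρ ^ 2 : ℚ) : T.K) * T.tr X x)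
    {w : T.H X} (hwV : w ∈ V) (hw : T.map fr w = (ρ : T.K) • w) (hw0 : w ≠ 0)
    (t : T.H X) (ht : t ∈ V) :
    ∃ c : T.K, aeval (T.map fr).toLinearMap (P.map (Rat.castHom T.K)) t = c • w ∧
      c * T.tr X (w * w) = ((P.eval ρ : ℚ) : T.K) * T.tr X (t * w) := by
  have hρ' : (ρ : T.K) ≠ 0 := by exact_mod_cast hρ
  -- stability
  have hst : ∀ x ∈ V, (T.map fr).toLinearMap x ∈ V := by
    by_contra hcon
    have h1 : charpolyOn (T.map fr).toLinearMap V = 1 := by
      unfold charpolyOn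
      exact dif_neg hcon
    rw [h1] at hcp
    have h2 := congrArg Polynomial.natDegree hcp
    rw [natDegree_one, (hPm.mul (monic_X_sub_C ρ)).natDegree_map,
      hPm.natDegree_mul (monic_X_sub_C ρ), natDegree_X_sub_C] at h2
    omega
  set f := (T.map fr).toLinearMap.restrict hst with hf
  have hfc : f.charpoly = P.map (Rat.castHom T.K) * (Polynomial.X - C (ρ : T.K)) := by
    have h1 : charpolyOn (T.map fr).toLinearMap V = f.charpoly := by
      unfold charpolyOn
      exact dif_pos hst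
    rw [← h1, hcp, Polynomial.map_mul, Polynomial.map_sub, map_X, map_C]
    rfl
  have hP' : (P.map (Rat.castHom T.K)).eval (ρ : T.K) = ((P.eval ρ : ℚ) : T.K) := by
    have : (ρ : T.K) = Rat.castHom T.K ρ := rfl
    rw [this, Polynomial.eval_map, Polynomial.eval₂_hom]
    rfl
  have hP'0 : (P.map (Rat.castHom T.K)).eval (ρ : T.K) ≠ 0 := by
    rw [hP']; exact_mod_cast hP
  have hPm0 : P.map (Rat.castHom T.K) ≠ 0 := (hPm.map _).ne_zero
  have hmult : f.charpoly.rootMultiplicity (ρ : T.K) = 1 := by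
    rw [hfc, rootMultiplicity_mul (mul_ne_zero hPm0 (X_sub_C_ne_zero _)),
      rootMultiplicity_X_sub_C_self, rootMultiplicity_eq_zero hP'0, zero_add]
  -- the image under P
  set t' : V := ⟨t, ht⟩ with ht'
  set w' : V := ⟨w, hwV⟩ with hw'
  have hCH : f (aeval f (P.map (Rat.castHom T.K)) t') =
      (ρ : T.K) • aeval f (P.map (Rat.castHom T.K)) t' := by
    have h1 := LinearMap.aeval_self_charpoly f
    rw [hfc, mul_comm, map_mul, map_sub, aeval_X, aeval_C] at h1
    have h2 := LinearMap.congr_fun h1 t'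
    rw [Module.End.mul_apply, LinearMap.sub_apply, LinearMap.zero_apply, sub_eq_zero,
      Module.algebraMap_end_apply] at h2
    exact h2
  have hline : ∀ x : V, f x = (ρ : T.K) • x → ∃ c : T.K, x = c • w' := by
    intro x hx
    exact line_of f hmult (fun h => hw0 (congrArg Subtype.val h)) (Subtype.ext hw) hx
  obtain ⟨c, hc⟩ := hline _ hCH
  have hco : ∀ (R : T.K[X]) (x : V), ((aeval f R x : V) : T.H X) =
      aeval (T.map fr).toLinearMap R (x : T.H X) := by
    intro R x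
    rw [aeval_eq_sum_range, aeval_eq_sum_range, LinearMap.sum_apply, LinearMap.sum_apply,
      Submodule.coe_sum]
    apply Finset.sum_congr rfl
    intro i _
    rw [LinearMap.smul_apply, LinearMap.smul_apply, Submodule.coe_smul]
    congr 1
    have h1 : ∀ (i : ℕ) (x : V), (((f ^ i) x : V) : T.H X) =
        ((T.map fr).toLinearMap ^ i) (x : T.H X) := by
      intro i
      induction i with
      | zero => intro x; rfl
      | succ i ih =>
        intro x
        rw [pow_succ, pow_succ, Module.End.mul_apply, Module.End.mul_apply, ih]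
        rfl
    exact h1 i x
  have hc' : aeval (T.map fr).toLinearMap (P.map (Rat.castHom T.K)) t = c • w := by
    rw [← hco _ t', hc]
    rfl
  -- the adjoint
  have hadj : ∀ x : T.H X, T.tr X (T.map fr x * w) = (ρ : T.K) * T.tr X (x * w) := by
    intro x
    apply mul_left_cancel₀ hρ'
    have h1 : T.tr X (T.map fr x * T.map fr w) = ((ρ ^ 2 : ℚ) : T.K) * T.tr X (x * w) := by
      rw [← map_mul, hQ]
    rw [hw, mul_smul_comm, map_smul, smul_eq_mul] at h1
    rw [h1]
    push_cast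
    ring
  have hadjR : ∀ (R : T.K[X]) (x : T.H X), T.tr X (aeval (T.map fr).toLinearMap R x * w) =
      R.eval (ρ : T.K) * T.tr X (x * w) := by
    intro R x
    have h1 : ∀ (i : ℕ) (x : T.H X), T.tr X (((T.map fr).toLinearMap ^ i) x * w) =
        (ρ : T.K) ^ i * T.tr X (x * w) := by
      intro i
      induction i with
      | zero => intro x; rw [pow_zero, pow_zero, one_mul]; rfl
      | succ i ih =>
        intro x
        rw [pow_succ, Module.End.mul_apply, ih]
        change (ρ : T.K) ^ i * T.tr X (T.map fr x * w) = _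
        rw [hadj]
        ring
    rw [aeval_eq_sum_range, LinearMap.sum_apply, Finset.sum_mul, map_sum, eval_eq_sum_range,
      Finset.sum_mul]
    apply Finset.sum_congr rfl
    intro i _
    rw [LinearMap.smul_apply, smul_mul_assoc, map_smul, h1, smul_eq_mul]
    ring
  refine ⟨c, hc', ?_⟩
  have h1 := hadjR (P.map (Rat.castHom T.K)) t
  rw [hc', smul_mul_assoc, map_smul, smul_eq_mul, hP'] at h1
  exact h1

/-- The projection to the line of the fixed vectors. -/
theorem proj_line {V : Submodule T.K (T.H X)} {P : ℚ[X]} (hPm : P.Monic) {ρ : ℚ} (hρ : ρ ≠ 0)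
    (hcp : charpolyOn (T.map fr).toLinearMap V =
      (P * (Polynomial.X - C ρ)).map (Rat.castHom T.K))
    (hP : P.eval ρ ≠ 0) (hQ : ∀ x, T.tr X (T.map fr x) = ((ρ ^ 2 : ℚ) : T.K) * T.tr X x)
    {w : T.H X} (hwV : w ∈ V) (hwe : w ∈ Ev T X) (hw : T.map fr w = (ρ : T.K) • w) {r₁ : ℚ}
    (hr₁ : T.tr X (w * w) = r₁) (hr₁0 : r₁ ≠ 0) (t : T.H X) (ht : t ∈ V) :
    (r₁ : T.K) • (aeval (T.map fr).toLinearMap ((C (P.eval ρ)⁻¹ * P).map (Rat.castHom T.K))) t =
      T.tr X (w * t) • w := by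
  have hw0 : w ≠ 0 := by
    rintro rfl
    rw [mul_zero, map_zero] at hr₁
    exact hr₁0 (by exact_mod_cast hr₁.symm)
  obtain ⟨c, hc', h1⟩ := line_data hPm hρ hcp hP hQ hwV hw hw0 t ht
  rw [hr₁] at h1
  have hPρ : ((P.eval ρ : ℚ) : T.K) ≠ 0 := by exact_mod_cast hP
  rw [Polynomial.map_mul, map_C, map_mul, aeval_C, Module.End.mul_apply, hc',
    Module.algebraMap_end_apply, smul_smul, smul_smul, Ev.comm hwe]
  congr 1
  have e1 : (Rat.castHom T.K) (P.eval ρ)⁻¹ = ((P.eval ρ : ℚ) : T.K)⁻¹ := by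
    rw [map_inv₀]; rfl
  rw [e1]
  field_simp
  linear_combination h1

end

end Pool.Agent.W5h58.VL
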