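import Pool.Agent.W5h58.VL.Fix

/-!
# Existence of virtual classes
-/

open CategoryTheory AlgebraicGeometry Polynomial

universe u v w

namespace Pool.Agent.W5h58.VL

open Pool.Agent.H914 Pool.Agent.H914.VarClass Pool.Agent.H914.VarClass.Obj
  Pool.Agent.H914.WeilCohomology Pool.Agent.H281R3.HT Pool.Agent.H447 Pool.Agent.W552
open Pool.Agent.W534 (charpolyOn)

variable {k : Type u} [Field k] {𝒱 : VarClass k} {ops : CycleOps 𝒱}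

lemma UA.AS {Θ : Th ops} {W : WeilCohomology.{u, v} ops} {X : 𝒱.Obj} {x : W.H X}
    {y : ∀ i, (Θ.T i).H X} (h : UA Θ W X x y) : AS W X x := by
  refine UA.ind (p := fun x _ => W552.AS W X x) ?_ ?_ h
  · intro j z hz
    exact AS.of ⟨z, hz, rfl⟩
  · intro a b a' b' ha ha'
    exact ha.add ha'

/-- The data of a theory: the vanishing part, the characteristic polynomial, the Gram matrix. -/
def HasForm (T : WeilCohomology.{u, v} ops) {X Y : 𝒱.Obj} (mor : X ⟶ Y) (fr : X ⟶ X) (n : ℕ)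
    (χ : ℚ[X]) {N : ℕ} (G : Matrix (Fin N) (Fin N) ℚ) : Prop :=
  (∀ y : T.H Y, y ∈ algSpan T Y) ∧ ∃ V : Submodule T.K (T.H X), Split T mor V ∧
    charpolyOn (T.map fr).toLinearMap V = χ.map (Rat.castHom T.K) ∧
    ∃ b : Module.Basis (Fin N) T.K V, ∀ i j,
      (-1 : T.K) ^ n * T.tr X ((b i : T.H X) * (b j : T.H X)) = ((G i j : ℚ) : T.K)

lemma sign_cast {K : Type*} [Field K] [CharZero K] {t : K} {r₀ : ℚ} (n : ℕ)
    (ht : t = (((-1) ^ n * r₀ : ℚ) : K)) : (-1 : K) ^ n * t = ((r₀ : ℚ) : K) := by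
  rw [ht]
  push_cast
  rw [← mul_assoc, ← mul_pow]
  simp

lemma sign_cast' {K : Type*} [Field K] [CharZero K] {t : K} {r₀ : ℚ} (n : ℕ)
    (ht : (-1 : K) ^ n * t = ((r₀ : ℚ) : K)) : t = (((-1) ^ n * r₀ : ℚ) : K) := by
  push_cast
  rw [← ht, ← mul_assoc, ← mul_pow]
  simp

/-- **Existence of virtual classes.** -/
theorem exists_virtual {Θ : Th ops} {W : WeilCohomology.{u, v} ops} [IsAlgClosed W.K]
    {X Y : 𝒱.Obj} {mor : X ⟶ Y} {fr : X ⟶ X} {V : Submodule W.K (W.H X)} (hs : Split W mor V)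
    (hY : ∀ y : W.H Y, y ∈ algSpan W Y) {n : ℕ} (hdim : X.dim = 2 * n) {P : ℚ[X]}
    (hPm : P.Monic) {ρ : ℚ} (hρ : ρ ≠ 0)
    (hcp : charpolyOn (W.map fr).toLinearMap V =
      (P * (Polynomial.X - C ρ)).map (Rat.castHom W.K))
    (hP : P.eval ρ ≠ 0) (hP' : P.eval (-ρ) ≠ 0) {c : ℚ} (hc : c ≠ 0) (h0 : P.eval 0 = c ^ 2)
    {g : ℕ} (hg : P.natDegree = 2 * g)
    (hQ : ∀ x, W.tr X (W.map fr x) = ((ρ ^ 2 : ℚ) : W.K) * W.tr X x) {z : X.Cycles} {j : ℕ}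
    (hz : X.IsCyc j z) (hz0 : W.tr X (W.cl X z) ≠ 0) {N : ℕ} {G : Matrix (Fin N) (Fin N) ℚ}
    (hGd : G.det ≠ 0)
    (hT : ∀ᶠ i in Θ.F, HasForm (Θ.T i) mor fr n (P * (Polynomial.X - C ρ)) G) :
    ∃ w ∈ V, W.map fr w = (ρ : W.K) • w ∧ (-1 : W.K) ^ n * W.tr X (w * w) =
      ((P.eval ρ * P.eval (-ρ) * G.det : ℚ) : W.K) ∧ PV Θ W X w ∧
      AS W (X.prod X) (ext W w w) := by
  set r₀ : ℚ := P.eval ρ * P.eval (-ρ) * G.det with hr₀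
  have hr₀0 : r₀ ≠ 0 := mul_ne_zero (mul_ne_zero hP hP') hGd
  set r₁ : ℚ := (-1) ^ n * r₀ with hr₁
  have hr₁0 : r₁ ≠ 0 := mul_ne_zero (pow_ne_zero _ (by norm_num)) hr₀0
  have hevV : ∀ x ∈ V, x ∈ Ev W X := fun x hx => Ev.of (by rw [← hdim]; exact hs.deg hx)
  obtain ⟨w, hwV, hw, hww⟩ := fix_of_closed W hs hPm hρ hcp hP hQ hevV (r₁ : W.K)
  obtain ⟨B⟩ := exists_imB (Θ := Θ) hs hY
  set Gp : ℚ[X] := C (P.eval ρ)⁻¹ * P with hGp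
  have hW : epsT W fr B.s B.H Gp r₁ = ext W w w :=
    epsT_eq hs B.im (fun a => (B.ua a).ev.1) B.rep hwV (hevV w hwV)
      (proj_line hPm hρ hcp hP hQ hwV (hevV w hwV) hw hww hr₁0)
  have hua := epsT_ua (fr := fr) (s' := B.s') B.ua B.H Gp r₁
  rw [hW] at hua
  refine ⟨w, hwV, hw, sign_cast n hww, ⟨⟨n, by rw [← hdim]; exact hs.deg hwV⟩, _, hua, ?_⟩, hua.AS⟩
  filter_upwards [hT] with i hi
  obtain ⟨hYi, Vi, hsi, hcpi, b, hb⟩ := hi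
  have hQi := deg_transfer (Θ := Θ) fr (q := ρ ^ 2) hQ hz hz0 i
  obtain ⟨wi, hwiV, hwi, hwwi⟩ := fix_of_gram (Θ.T i) hsi hdim hPm hρ hcpi hP hP' hc h0 hg hQi b G
    hb hGd
  have hevi : wi ∈ Ev (Θ.T i) X := Ev.of (by rw [← hdim]; exact hsi.deg hwiV)
  refine ⟨wi, hevi, ?_⟩
  exact epsT_eq hsi (fun a => B.im' a i) (fun a => (B.ua a).ev.2 i) (B.rep' i hYi ⟨Vi, hsi⟩)
    hwiV hevi (proj_line hPm hρ hcpi hP hQi hwiV hevi hwi (sign_cast' n hwwi) hr₁0)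

end Pool.Agent.W5h58.VL
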