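import Pool.Agent.W5h58.VL.Eps
import Pool.Agent.W5h58.VL.Disc

/-!
# The fixed vectors in all the theories
-/

open CategoryTheory AlgebraicGeometry Polynomial

universe u v w

namespace Pool.Agent.W5h58.VL

open Pool.Agent.H914 Pool.Agent.H914.VarClass Pool.Agent.H914.VarClass.Obj
  Pool.Agent.H914.WeilCohomology Pool.Agent.H281R3.HT Pool.Agent.H447 Pool.Agent.W552
open Pool.Agent.W534 (charpolyOn)

variable {k : Type u} [Field k] {𝒱 : VarClass k} {ops : CycleOps 𝒱}

section One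

variable {T : WeilCohomology.{u, v} ops} {X : 𝒱.Obj} {fr : X ⟶ X}

lemma stable_of {V : Submodule T.K (T.H X)} {P : ℚ[X]} (hPm : P.Monic) {ρ : ℚ}
    (hcp : charpolyOn (T.map fr).toLinearMap V =
      (P * (Polynomial.X - C ρ)).map (Rat.castHom T.K)) :
    ∀ x ∈ V, (T.map fr).toLinearMap x ∈ V := by
  by_contra hcon
  have h1 : charpolyOn (T.map fr).toLinearMap V = 1 := by
    unfold charpolyOn
    exact dif_neg hcon
  rw [h1] at hcp
  have h2 := congrArg Polynomial.natDegree hcp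
  rw [natDegree_one, (hPm.mul (monic_X_sub_C ρ)).natDegree_map,
    hPm.natDegree_mul (monic_X_sub_C ρ), natDegree_X_sub_C] at h2
  omega

lemma restrict_charpoly {V : Submodule T.K (T.H X)} {P : ℚ[X]} (hPm : P.Monic) {ρ : ℚ}
    (hcp : charpolyOn (T.map fr).toLinearMap V =
      (P * (Polynomial.X - C ρ)).map (Rat.castHom T.K)) :
    ((T.map fr).toLinearMap.restrict (stable_of hPm hcp)).charpoly =
      P.map (Rat.castHom T.K) * (Polynomial.X - C (ρ : T.K)) := by
  have h1 : charpolyOn (T.map fr).toLinearMap V =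
      ((T.map fr).toLinearMap.restrict (stable_of hPm hcp)).charpoly := by
    unfold charpolyOn
    exact dif_pos (stable_of hPm hcp)
  rw [← h1, hcp, Polynomial.map_mul, Polynomial.map_sub, map_X, map_C]
  rfl

lemma eval_cast (P : ℚ[X]) (q : ℚ) :
    (P.map (Rat.castHom T.K)).eval (q : T.K) = ((P.eval q : ℚ) : T.K) := by
  have : (q : T.K) = Rat.castHom T.K q := rfl
  rw [this, Polynomial.eval_map, Polynomial.eval₂_hom]
  rfl

end One

/-- The expansion of the form in a basis. -/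
lemma quad_expand {K E : Type*} [Field K] [Ring E] [Algebra K E] (φ : E →ₗ[K] K) {N : ℕ}
    (b : Fin N → E) (G : Matrix (Fin N) (Fin N) K) (hG : ∀ i j, φ (b i * b j) = G i j)
    (c d : Fin N → K) : φ ((∑ i, c i • b i) * (∑ j, d j • b j)) = dotProduct c (G.mulVec d) := by
  rw [Finset.sum_mul_sum, map_sum, dotProduct]
  apply Finset.sum_congr rfl
  intro i _
  rw [map_sum, Matrix.mulVec, dotProduct, Finset.mul_sum]
  apply Finset.sum_congr rfl
  intro j _
  rw [smul_mul_smul_comm, map_smul, hG, smul_eq_mul]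
  ring

/-- **The fixed vector in a theory with a rational Gram matrix.** -/
theorem fix_of_gram (T : WeilCohomology.{u, 0} ops) {X Y : 𝒱.Obj} {mor : X ⟶ Y} {fr : X ⟶ X}
    {V : Submodule T.K (T.H X)} (hs : Split T mor V) {n : ℕ} (hdim : X.dim = 2 * n) {P : ℚ[X]}
    (hPm : P.Monic) {ρ : ℚ} (hρ : ρ ≠ 0)
    (hcp : charpolyOn (T.map fr).toLinearMap V =
      (P * (Polynomial.X - C ρ)).map (Rat.castHom T.K))
    (hP : P.eval ρ ≠ 0) (hP' : P.eval (-ρ) ≠ 0) {c : ℚ} (hc : c ≠ 0) (h0 : P.eval 0 = c ^ 2)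
    {g : ℕ} (hg : P.natDegree = 2 * g)
    (hQ : ∀ x, T.tr X (T.map fr x) = ((ρ ^ 2 : ℚ) : T.K) * T.tr X x) {N : ℕ}
    (b : Module.Basis (Fin N) T.K V) (G : Matrix (Fin N) (Fin N) ℚ)
    (hG : ∀ i j, (-1 : T.K) ^ n * T.tr X ((b i : T.H X) * (b j : T.H X)) = ((G i j : ℚ) : T.K))
    (hGd : G.det ≠ 0) :
    ∃ w ∈ V, T.map fr w = (ρ : T.K) • w ∧ (-1 : T.K) ^ n * T.tr X (w * w) =
      ((P.eval ρ * P.eval (-ρ) * G.det : ℚ) : T.K) := by
  have hst := stable_of hPm hcp
  have hfc := restrict_charpoly hPm hcp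
  set f := (T.map fr).toLinearMap.restrict hst with hf
  have hN : N = 2 * g + 1 := by
    have h1 := Module.finrank_eq_card_basis b
    rw [Fintype.card_fin] at h1
    have h2 := LinearMap.charpoly_natDegree f
    rw [hfc, (hPm.map _).natDegree_mul (monic_X_sub_C _), natDegree_X_sub_C,
      hPm.natDegree_map, hg, h1] at h2
    exact h2.symm
  subst hN
  set φ : T.H X →ₗ[T.K] T.K := ((-1 : T.K) ^ n) • T.tr X with hφ
  have hφa : ∀ x, φ x = (-1 : T.K) ^ n * T.tr X x := fun x => rfl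
  set GK : Matrix (Fin (2 * g + 1)) (Fin (2 * g + 1)) T.K := G.map (Rat.castHom T.K) with hGK
  have hGφ : ∀ i j, φ ((b i : T.H X) * (b j : T.H X)) = GK i j := fun i j => hG i j
  set M := LinearMap.toMatrix b b f with hM
  have hfb : ∀ i, ((f (b i) : V) : T.H X) = ∑ l, M l i • (b l : T.H X) := by
    intro i
    have h1 := b.sum_repr (f (b i))
    have h2 := congrArg (Submodule.subtype V) h1
    rw [map_sum] at h2
    rw [Submodule.subtype_apply] at h2
    rw [← h2]
    apply Finset.sum_congr rfl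
    intro l _
    rw [map_smul, hM, LinearMap.toMatrix_apply]
    rfl
  have hsymm : GK.transpose = GK := by
    ext i j
    rw [Matrix.transpose_apply, ← hGφ, ← hGφ]
    congr 1
    have h1 : (b j : T.H X) ∈ Ev T X := Ev.of (by rw [← hdim]; exact hs.deg (b j).2)
    exact Ev.comm h1 _
  have hdet : GK.det = ((G.det : ℚ) : T.K) := by
    rw [hGK]
    exact ((Rat.castHom T.K).map_det G).symm
  have hMM : M.transpose * GK * M = ((ρ : T.K) ^ 2) • GK := by
    ext i j
    have h1 : φ (((f (b i) : V) : T.H X) * ((f (b j) : V) : T.H X)) = (ρ : T.K) ^ 2 * GK i j := by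
      have h2 : ((f (b i) : V) : T.H X) * ((f (b j) : V) : T.H X) =
          T.map fr ((b i : T.H X) * (b j : T.H X)) := by
        rw [map_mul]
        rfl
      rw [h2, hφa, hQ, ← hGφ, hφa]
      push_cast
      ring
    rw [hfb, hfb, quad_expand φ (fun l => (b l : T.H X)) GK hGφ] at h1
    rw [Matrix.smul_apply, smul_eq_mul, ← h1, mul_assoc, Matrix.mul_apply, dotProduct]
    apply Finset.sum_congr rfl
    intro l _
    rw [Matrix.transpose_apply, Matrix.mul_apply, Matrix.mulVec, dotProduct]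
  have hρ' : (ρ : T.K) ≠ 0 := by exact_mod_cast hρ
  have hev := eval_cast (T := T) P
  obtain ⟨x, hx1, hx2⟩ := disc (K := T.K) GK M hsymm (by rw [hdet]; exact_mod_cast hGd) hρ' hMM
    (P := P.map (Rat.castHom T.K)) (by rw [hM, LinearMap.charpoly_toMatrix]; exact hfc)
    (by rw [hev]; exact_mod_cast hP) (by rw [← Rat.cast_neg, hev]; exact_mod_cast hP')
    (c := (c : T.K)) (by
      have h1 := hev 0
      rw [Rat.cast_zero] at h1
      rw [h1, h0]; push_cast; rfl) (by exact_mod_cast hc)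
  set w : V := ∑ i, x i • b i with hw
  have hwc : (w : T.H X) = ∑ i, x i • (b i : T.H X) := by
    rw [hw, Submodule.coe_sum]
    rfl
  refine ⟨w, w.2, ?_, ?_⟩
  · have h1 : f w = (ρ : T.K) • w := by
      apply b.repr.injective
      have h2 : ∀ y : V, (b.repr (f y) : Fin (2 * g + 1) → T.K) = M.mulVec (b.repr y) := by
        intro y
        rw [hM, LinearMap.toMatrix_mulVec_repr]
      have h3 : (b.repr w : Fin (2 * g + 1) → T.K) = x := by
        rw [hw]
        funext l
        rw [map_sum, Finsupp.finsetSum_apply]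
        simp [Finsupp.single_apply]
      apply DFunLike.coe_injective
      rw [h2, h3, hx1, map_smul, Finsupp.coe_smul, h3]
    exact congrArg Subtype.val h1
  · have h1 := quad_expand φ (fun l => (b l : T.H X)) GK hGφ x x
    rw [← hwc] at h1
    rw [← hφa, h1, hx2, hdet, hev, ← Rat.cast_neg, hev]
    push_cast
    ring

/-- **The fixed vector in a theory with algebraically closed coefficients.** -/
theorem fix_of_closed (W : WeilCohomology.{u, v} ops) [IsAlgClosed W.K] {X Y : 𝒱.Obj}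
    {mor : X ⟶ Y} {fr : X ⟶ X} {V : Submodule W.K (W.H X)} (hs : Split W mor V) {P : ℚ[X]}
    (hPm : P.Monic) {ρ : ℚ} (hρ : ρ ≠ 0)
    (hcp : charpolyOn (W.map fr).toLinearMap V =
      (P * (Polynomial.X - C ρ)).map (Rat.castHom W.K))
    (hP : P.eval ρ ≠ 0) (hQ : ∀ x, W.tr X (W.map fr x) = ((ρ ^ 2 : ℚ) : W.K) * W.tr X x)
    (hev : ∀ x ∈ V, x ∈ Ev W X) (r₁ : W.K) :
    ∃ w ∈ V, W.map fr w = (ρ : W.K) • w ∧ W.tr X (w * w) = r₁ := by
  have hst := stable_of hPm hcp
  have hfc := restrict_charpoly hPm hcp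
  set f := (W.map fr).toLinearMap.restrict hst with hf
  have hroot : Module.End.HasEigenvalue f (ρ : W.K) := by
    rw [Module.End.hasEigenvalue_iff_isRoot_charpoly, hfc, IsRoot.def, eval_mul, eval_sub, eval_X,
      eval_C, sub_self, mul_zero]
  obtain ⟨e, he⟩ := hroot.exists_hasEigenvector
  have he1 : W.map fr (e : W.H X) = (ρ : W.K) • (e : W.H X) :=
    congrArg Subtype.val (Module.End.mem_eigenspace_iff.1 he.1)
  have he0 : (e : W.H X) ≠ 0 := fun h => he.2 (Subtype.ext h)
  have hee : W.tr X ((e : W.H X) * e) ≠ 0 := by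
    intro h0
    apply he0
    apply hs.nondegV e.2
    intro t ht
    obtain ⟨c, -, hc⟩ := line_data hPm hρ hcp hP hQ e.2 he1 he0 t ht
    rw [h0, mul_zero] at hc
    rw [Ev.comm (hev e e.2)]
    exact (mul_eq_zero.1 hc.symm).resolve_left (by exact_mod_cast hP)
  obtain ⟨c, hc⟩ := IsAlgClosed.exists_eq_mul_self (r₁ / W.tr X ((e : W.H X) * e))
  refine ⟨c • (e : W.H X), Submodule.smul_mem _ _ e.2, ?_, ?_⟩
  · rw [map_smul, he1, smul_comm]
  · rw [smul_mul_smul_comm, map_smul, ← hc, smul_eq_mul, div_mul_cancel₀ _ hee]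

/-- The push-forward of the unit. -/
lemma push_one {T : WeilCohomology.{u, v} ops} {X : 𝒱.Obj} (fr : X ⟶ X) :
    ∃ c : T.K, T.push fr 1 = c • 1 := by
  have h1 := T.push_mem fr (T.one_mem X)
  rw [sub_self, mul_zero, add_zero, grZ_natCast, T.gr_zero] at h1
  obtain ⟨c, hc⟩ := Submodule.mem_span_singleton.1 h1
  exact ⟨c, hc.symm⟩

/-- **The degree of an endomorphism is the same in all the theories.** -/
theorem deg_transfer {Θ : Th ops} {W : WeilCohomology.{u, v} ops} {X : 𝒱.Obj} (fr : X ⟶ X)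
    {q : ℚ} (h : ∀ x, W.tr X (W.map fr x) = (q : W.K) * W.tr X x) {z : X.Cycles} {j : ℕ}
    (hz : X.IsCyc j z) (hz0 : W.tr X (W.cl X z) ≠ 0) (i : Θ.ι) (x : (Θ.T i).H X) :
    (Θ.T i).tr X ((Θ.T i).map fr x) = (q : (Θ.T i).K) * (Θ.T i).tr X x := by
  have key : ∀ (T : WeilCohomology.{u, 0} ops) (x : T.H X) (c : T.K), T.push fr 1 = c • 1 →
      T.tr X (T.map fr x) = c * T.tr X x := by
    intro T x c hc
    have h1 := T.tr_push fr 1 x
    rw [one_mul, hc, smul_mul_assoc, one_mul, map_smul, smul_eq_mul] at h1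
    exact h1.symm
  obtain ⟨c, hc⟩ := push_one (T := Θ.T i) fr
  rw [key _ x c hc]
  congr 1
  -- compare the degrees
  have hua : UA Θ W X (W.push fr 1) (fun i => (Θ.T i).push fr 1) := by
    have := UA.of (Θ := Θ) (W := W) (j := 0) (z := ops.push fr X.V.fundCycle)
      (ops.push_mem fr X.V.fundCycle_mem (by omega))
    simp only [WeilCohomology.cl_push, WeilCohomology.cl_fund] at this
    exact this
  obtain ⟨t, ht, ht'⟩ := (hua.mul (UA.of hz)).tr
  obtain ⟨t₁, ht₁, ht₁'⟩ := (UA.of (Θ := Θ) (W := W) hz).tr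
  have h2 : (t : W.K) = (q : W.K) * t₁ := by
    rw [← ht, W.tr_push, one_mul, h, ht₁]
  have h3 : t = q * t₁ := by exact_mod_cast h2
  have h4 := ht' i
  rw [hc, smul_mul_assoc, one_mul, map_smul, ht₁', h3, smul_eq_mul, Rat.cast_mul] at h4
  have h5 : (t₁ : (Θ.T i).K) ≠ 0 := by
    rw [ht₁] at hz0
    have : t₁ ≠ 0 := by
      rintro rfl
      exact hz0 Rat.cast_zero
    exact_mod_cast this
  exact mul_right_cancel₀ h5 h4

end Pool.Agent.W5h58.VL
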