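import Pool.Agent.W5h58.VL.Cases
import Pool.Agent.W552.IrrConv
import Pool.Agent.W458.MF.Geo7

/-!
# The primitive transcendental cohomology, with a further class
-/

open CategoryTheory AlgebraicGeometry Polynomial

universe u v w

namespace Pool.Agent.W5h58.VL

open Pool.Agent.H914 Pool.Agent.W534 Pool.Agent.W521.Frob VarClass Obj WeilCohomology
  Pool.Agent.H281R3.HT Pool.Agent.W536.RR Pool.Agent.W458.MF Pool.Agent.W290.MF

variable {k : Type u} [Field k] {𝒱 : VarClass k} {ops : CycleOps 𝒱}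
  {W : WeilCohomology.{u, v} ops} {Y : 𝒱.Obj} {p : ℕ} {Φ : FrobSystem W p}

/-- The possible generalised eigenvectors in the primitive transcendental cohomology: multiples of
eigenvectors for roots, and of the further eigenvector `v`. -/
def PTCases (Φ : FrobSystem W p) (P : Piece W Y) (D : P.obj.Cycles) (m s t : ℕ)
    (v : W.H P.obj) : Prop :=
  ∀ (α : W.K) (j : ℕ) (y : W.H P.obj), y ≠ 0 → W552.PT W ⟨P.obj, D⟩ j y →
    W552.GenEig (W.map (W534.iter (Φ.Fr P.obj) s)) α y → j = P.obj.dim ∧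
    ((∃ lam x, IsEig p P m lam x ∧ α = lam ^ t ∧ ∃ c : W.K, y = c • x) ∨
      (∃ n, P.obj.dim = 2 * n ∧ α = (p : W.K) ^ (n * m * t) ∧ ∃ c : W.K, y = c • v))

variable {I : Type} {σ : W.K →+* ℂ} {P : I → Piece W Y} {m : ℕ} {R : ℤ[X]}
  {i : I} {D : (P i).obj.Cycles} {M s t b : ℕ} {v : W.H (P i).obj}

lemma ptc_of_alg [IsAlgClosed W.K] (H : GSetup Φ σ P m R) (hL : Lvl Φ (P i) D m M s t b)
    (hY : ∀ x : W.H Y, x ∈ algSpan W Y)
    (hE : ∀ x, IsExt p (P i) m x → x ∈ algSpan W (P i).obj) : PTCases Φ (P i) D m s t v := by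
  intro α j y hy0 h1 h2
  obtain ⟨lam, x, hx, hα, hj, hc⟩ := pt_eig H hL hY hE hy0 h1 h2
  exact ⟨hj, Or.inl ⟨lam, x, hx, hα, hc⟩⟩

lemma ptc_of_sub [IsAlgClosed W.K] (H : GSetup Φ σ P m R) (hL : Lvl Φ (P i) D m M s t b)
    (hY : ∀ x : W.H Y, x ∈ algSpan W Y) (hs : Split W (P i).mor (P i).sub)
    (hE : ∀ x, IsExt p (P i) m x → ∃ c : W.K, x = c • v) : PTCases Φ (P i) D m s t v := by
  intro α j y hy0 h1 h2
  have hy : y ∈ Module.End.maxGenEigenspace (frob Φ (P i).obj s) α := by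
    rw [Module.End.mem_maxGenEigenspace]
    exact h2
  obtain ⟨-, h4, -, h5⟩ := h1
  have h6 := algSpan_of h5
  -- the vector is in the vanishing part
  have hyV : y ∈ (P i).sub := by
    obtain ⟨w, hw⟩ := hs.gen y
    have h7 : W.map (P i).mor w = 0 := by
      apply hs.nondeg
      intro y'
      have e : W.map (P i).mor w = y - (y - W.map (P i).mor w) := by abel
      rw [e, sub_mul, map_sub, h6 _ (algSpan_map _ (hY y')), hs.orth hw, sub_zero]
    rwa [h7, sub_zero] at hw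
  have hj : j = (P i).obj.dim := by
    by_contra hne
    apply hy0
    rw [← proj_same (W.isInternal (P i).obj) h4]
    exact proj_ne _ (hs.deg hyV) (Ne.symm hne)
  refine ⟨hj, ?_⟩
  have h3 := mem_span_gen (M := {z | (∃ lam, IsEig p (P i) m lam z) ∨ IsExt p (P i) m z})
    (fun z hz => by
      rcases hz with ⟨lam, hz⟩ | hz
      · exact ⟨lam ^ t, eig_mem_gen (hL.eig _ _ hz.eig)⟩
      · obtain ⟨n, -, hz2⟩ := ext_level hL hz
        exact ⟨_, eig_mem_gen hz2⟩) (H.span i y hyV) hy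
  by_cases h7 : ∃ lam x, IsEig p (P i) m lam x ∧ α = lam ^ t
  · obtain ⟨lam, x, hx, rfl⟩ := h7
    refine Or.inl ⟨lam, x, hx, rfl, ?_⟩
    have h8 : Submodule.span W.K {v | v ∈ {z | (∃ lam, IsEig p (P i) m lam z) ∨
        IsExt p (P i) m z} ∧
        v ∈ Module.End.maxGenEigenspace (frob Φ (P i).obj s) (lam ^ t)} ≤
        Submodule.span W.K {x} := by
      rw [Submodule.span_le]
      rintro z ⟨⟨mu, hz⟩ | hz, hz2⟩
      · have h6 := eq_of_mem_gen (eig_mem_gen (hL.eig _ _ hz.eig)) hz2 hz.ne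
        have h7 : σ mu = σ lam := by
          refine sep_roots (Q_pos H) H.monic H.bal H.sep i hL.t_pos (aeval_sigma σ hz.root)
            (aeval_sigma σ hx.root) ?_
          rw [← map_pow, h6, map_pow]
        have h8 : mu = lam := σ.injective h7
        subst h8
        obtain ⟨c, hc⟩ := H.uniq i mu x z hx hz
        exact Submodule.mem_span_singleton.2 ⟨c, hc.symm⟩
      · by_cases h0 : z = 0
        · rw [h0]
          exact Submodule.zero_mem _
        · exfalso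
          obtain ⟨n, -, hz3⟩ := ext_level hL hz
          have h6 := eq_of_mem_gen (eig_mem_gen hz3) hz2 h0
          have h7 := congrArg σ h6
          rw [map_pow, map_natCast, map_pow, ← Nat.cast_pow] at h7
          exact Pool.Agent.W458.MF.G.sep_nat (Q_pos H) H.monic H.bal H.sep i hL.t_pos (aeval_sigma σ hx.root)
            (pow_pos Φ.p_pos _) h7.symm
    obtain ⟨c, hc⟩ := Submodule.mem_span_singleton.1 (h8 h3)
    exact ⟨c, hc.symm⟩
  · right
    have h8 : ∃ n, (P i).obj.dim = 2 * n ∧ α = (p : W.K) ^ (n * m * t) := by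
      by_contra hcon
      apply hy0
      have h9 : Submodule.span W.K {v | v ∈ {z | (∃ lam, IsEig p (P i) m lam z) ∨
          IsExt p (P i) m z} ∧
          v ∈ Module.End.maxGenEigenspace (frob Φ (P i).obj s) α} = ⊥ := by
        rw [Submodule.span_eq_bot]
        rintro z ⟨⟨mu, hz⟩ | hz, hz2⟩
        · exfalso
          exact h7 ⟨mu, z, hz, (eq_of_mem_gen (eig_mem_gen (hL.eig _ _ hz.eig)) hz2 hz.ne).symm⟩
        · by_contra h0
          obtain ⟨n, hn, hz3⟩ := ext_level hL hz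
          exact hcon ⟨n, hn, (eq_of_mem_gen (eig_mem_gen hz3) hz2 h0).symm⟩
      rw [h9, Submodule.mem_bot] at h3
      exact h3
    obtain ⟨n, hn, hα⟩ := h8
    refine ⟨n, hn, hα, ?_⟩
    have h9 : Submodule.span W.K {v | v ∈ {z | (∃ lam, IsEig p (P i) m lam z) ∨
        IsExt p (P i) m z} ∧
        v ∈ Module.End.maxGenEigenspace (frob Φ (P i).obj s) α} ≤
        Submodule.span W.K {v} := by
      rw [Submodule.span_le]
      rintro z ⟨⟨mu, hz⟩ | hz, hz2⟩
      · exfalso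
        exact h7 ⟨mu, z, hz, (eq_of_mem_gen (eig_mem_gen (hL.eig _ _ hz.eig)) hz2 hz.ne).symm⟩
      · obtain ⟨c, hc⟩ := hE z hz
        exact Submodule.mem_span_singleton.2 ⟨c, hc.symm⟩
    obtain ⟨c, hc⟩ := Submodule.mem_span_singleton.1 (h9 h3)
    exact ⟨c, hc.symm⟩

/-- Separation of the eigenvalues. -/
lemma ptc_pow (H : GSetup Φ σ P m R) (hL : Lvl Φ (P i) D m M s t b)
    (hpt : PTCases Φ (P i) D m s t v) {α β : W.K} {j j' : ℕ} {y y' : W.H (P i).obj} (hy0 : y ≠ 0)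
    (hy0' : y' ≠ 0) (h1 : W552.PT W ⟨(P i).obj, D⟩ j y) (h1' : W552.PT W ⟨(P i).obj, D⟩ j' y')
    (h2 : W552.GenEig (W.map (W534.iter (Φ.Fr (P i).obj) s)) α y)
    (h2' : W552.GenEig (W.map (W534.iter (Φ.Fr (P i).obj) s)) β y') {n : ℕ} (hn : 0 < n)
    (h : α ^ n = β ^ n) : α = β ∧ j = j' ∧ ∃ c : W.K, y' = c • y := by
  obtain ⟨hj, h3⟩ := hpt α j y hy0 h1 h2
  obtain ⟨hj', h3'⟩ := hpt β j' y' hy0' h1' h2'
  have hkey : ∀ {lam : W.K} {x : W.H (P i).obj} {r : ℕ}, IsEig p (P i) m lam x →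
      (lam ^ t) ^ n = ((p : W.K) ^ r) ^ n → False := by
    intro lam x r hx he
    have h7 := congrArg σ he
    rw [← pow_mul, ← pow_mul, map_pow, map_pow, map_natCast, ← Nat.cast_pow] at h7
    exact Pool.Agent.W458.MF.G.sep_nat (Q_pos H) H.monic H.bal H.sep i (Nat.mul_pos hL.t_pos hn)
      (aeval_sigma σ hx.root) (pow_pos Φ.p_pos _) h7
  rcases h3 with ⟨lam, x, hx, hα, c, hc⟩ | ⟨r, hr, hα, c, hc⟩
  · rcases h3' with ⟨mu, x', hx', hβ, c', hc'⟩ | ⟨r', hr', hβ, c', hc'⟩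
    · have h4 : σ lam = σ mu := by
        refine sep_roots (Q_pos H) H.monic H.bal H.sep i (Nat.mul_pos hL.t_pos hn)
          (aeval_sigma σ hx.root) (aeval_sigma σ hx'.root) ?_
        rw [pow_mul, pow_mul, ← map_pow, ← map_pow, ← map_pow, ← map_pow, ← hα, ← hβ, h]
      have h5 : lam = mu := σ.injective h4
      subst h5
      refine ⟨by rw [hα, hβ], hj.trans hj'.symm, ?_⟩
      obtain ⟨d, hd⟩ := H.uniq i lam x x' hx hx'
      have hc0 : c ≠ 0 := by
        rintro rfl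
        rw [zero_smul] at hc
        exact hy0 hc
      refine ⟨c' * d * c⁻¹, ?_⟩
      rw [hc', hd, hc, smul_smul, smul_smul, mul_assoc, inv_mul_cancel₀ hc0, mul_one]
    · exfalso
      rw [hα, hβ] at h
      exact hkey hx h
  · rcases h3' with ⟨mu, x', hx', hβ, c', hc'⟩ | ⟨r', hr', hβ, c', hc'⟩
    · exfalso
      rw [hα, hβ] at h
      exact hkey hx' h.symm
    · have h5 : r = r' := by omega
      subst h5
      refine ⟨by rw [hα, hβ], hj.trans hj'.symm, ?_⟩
      have hc0 : c ≠ 0 := by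
        rintro rfl
        rw [zero_smul] at hc
        exact hy0 hc
      refine ⟨c' * c⁻¹, ?_⟩
      rw [hc', hc, smul_smul, mul_assoc, inv_mul_cancel₀ hc0, mul_one]

/-- **The generalised eigenspaces on the primitive transcendental cohomology are lines.** -/
theorem irrFrob' (H : GSetup Φ σ P m R) (hL : Lvl Φ (P i) D m M s t b)
    (hpt : PTCases Φ (P i) D m s t v) :
    W552.IrrFrob W ⟨(P i).obj, D⟩ (W534.iter (Φ.Fr (P i).obj) s) (p ^ M) := by
  have hp0 : ((p : ℚ) ^ M) ≠ 0 := pow_ne_zero _ (Nat.cast_ne_zero.2 Φ.p_pos.ne')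
  refine ⟨Multiplicative ℤ, inferInstance, zpowersHom _ (frE Φ (P i).obj s),
    (Units.coeHom ℚ).comp (zpowersHom ℚˣ (Units.mk0 ((p : ℚ) ^ M) hp0)),
    Multiplicative.ofAdd 1, ?_, ⟨?_, ?_, ?_, ?_⟩, ?_⟩
  · intro g
    have e : (((Units.coeHom ℚ).comp (zpowersHom ℚˣ (Units.mk0 ((p : ℚ) ^ M) hp0))) g) =
        ((p : ℚ) ^ M) ^ (Multiplicative.toAdd g) := by
      rw [MonoidHom.comp_apply, zpowersHom_apply, Units.coeHom_apply, Units.val_zpow_eq_zpow_val,
        Units.val_mk0]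
    rw [e, zpowersHom_apply]
    refine ⟨?_, ?_, ?_⟩
    · have : (0 : ℚ) < p := by exact_mod_cast Φ.p_pos
      positivity
    · rw [zpow_eig (c := (p : W.K) ^ M) (pow_ne_zero _ (cast_p_ne Φ)) hL.div]
      push_cast
      rfl
    · exact isAlgCorr_of (rop_zpow (rop_frE s) (rop_frE_inv s) _)
  · intro a
    rw [zpowersHom_apply, toAdd_ofAdd, zpow_one]
    rfl
  · rw [MonoidHom.comp_apply, zpowersHom_apply, Units.coeHom_apply, toAdd_ofAdd, zpow_one,
      Units.val_mk0]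
    push_cast
    rfl
  · intro g
    exact mul_comm _ _
  · have : Subgroup.zpowers (Multiplicative.ofAdd (1 : ℤ)) = ⊤ := by
      rw [Subgroup.eq_top_iff']
      intro g
      rw [Subgroup.mem_zpowers_iff]
      refine ⟨Multiplicative.toAdd g, ?_⟩
      rw [← ofAdd_zsmul, smul_eq_mul, mul_one, ofAdd_toAdd]
    rw [this]
    infer_instance
  · intro j α u hu _
    by_cases h0 : ∃ x, (W552.PT W ⟨(P i).obj, D⟩ j x ∧
        W552.GenEig (W.map (W534.iter (Φ.Fr (P i).obj) s)) α x) ∧ x ≠ 0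
    · obtain ⟨x₀, hx₀, hx0⟩ := h0
      have key : ∀ y, W552.PT W ⟨(P i).obj, D⟩ j y →
          W552.GenEig (W.map (W534.iter (Φ.Fr (P i).obj) s)) α y →
          ∃ c : W.K, y = c • x₀ := by
        intro y hy1 hy2
        by_cases hy0 : y = 0
        · exact ⟨0, by rw [hy0, zero_smul]⟩
        · exact (ptc_pow H hL hpt hx0 hy0 hx₀.1 hy1 hx₀.2 hy2 one_pos rfl).2.2
      obtain ⟨c, hc⟩ := key (u x₀) (hu x₀ hx₀).1 (hu x₀ hx₀).2
      refine ⟨c, fun y hy => ?_⟩
      obtain ⟨d, hd⟩ := key y hy.1 hy.2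
      rw [hd, map_smul, hc, smul_comm]
    · refine ⟨0, fun y hy => ?_⟩
      have : y = 0 := by
        by_contra hy0
        exact h0 ⟨y, hy, hy0⟩
      rw [this, map_zero, smul_zero]

lemma frob_family (hL : Lvl Φ (P i) D m M s t b) (hM : 0 < M) (hD : (P i).obj.IsCyc 1 D)
    (hdeg : 0 < (P i).obj.V.degCycle (divPow ops D (P i).obj.dim (P i).obj.V.fundCycle))
    (hHL : HardLefschetz W (P i).obj D) (hB : LefschetzB W (P i).obj D)
    (hRH : RiemannHypothesis W (P i).obj (Φ.Fr (P i).obj) (card Φ (P i).obj 1)) :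
    W552.IsFrobFamily W (fun _ : Unit => (⟨(P i).obj, D⟩ : Polarized 𝒱))
      (fun _ => W534.iter (Φ.Fr (P i).obj) s) (p ^ M) where
  q_ne := pow_ne_zero _ Φ.p_pos.ne'
  div := fun _ => hD
  deg := fun _ => hdeg
  hardLef := fun _ => hHL
  lef := fun _ => hB
  rh := fun _ => rh_iter hL.se hRH
  frob := fun n _ => frob_nest hM n (fun _ => ⟨(P i).obj, D⟩) (fun _ => s) (fun _ => hL.se)

/-- **The standard conjecture of Hodge type for the square.** -/
theorem hodge_square [IsAlgClosed W.K] (H : GSetup Φ σ P m R) (hL : Lvl Φ (P i) D m M s t b)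
    (hpt : PTCases Φ (P i) D m s t v) (hM : 0 < M) (hD : (P i).obj.IsCyc 1 D)
    (hdeg : 0 < (P i).obj.V.degCycle (divPow ops D (P i).obj.dim (P i).obj.V.fundCycle))
    (hHL : HardLefschetz W (P i).obj D) (hB : LefschetzB W (P i).obj D)
    (hRH : RiemannHypothesis W (P i).obj (Φ.Fr (P i).obj) (card Φ (P i).obj 1))
    (hH : HodgeType W (P i).obj D) :
    HodgeType W ((P i).obj.prod (P i).obj) (ops.pull (fst (P i).obj (P i).obj) D +
      ops.pull (snd (P i).obj (P i).obj) D) := by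
  have hfam := frob_family hL hM hD hdeg hHL hB hRH
  have hirr : ∀ _ : Unit, W552.IrrFrob W (⟨(P i).obj, D⟩ : Polarized 𝒱)
      (W534.iter (Φ.Fr (P i).obj) s) (p ^ M) := fun _ => irrFrob' H hL hpt
  have hq0 : ((p ^ M : ℕ) : W.K) ≠ 0 := by
    rw [Nat.cast_pow]
    exact pow_ne_zero _ (cast_p_ne Φ)
  have hsep : W552.SeparatedSpectrum W (fun _ : Unit => (⟨(P i).obj, D⟩ : Polarized 𝒱))
      (fun _ => W534.iter (Φ.Fr (P i).obj) s) (p ^ M) := by
    intro _ _ j j' a b n α β hn hα hβ hjj hαβ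
    obtain ⟨x, hx, hx0, hxα⟩ := hα
    obtain ⟨y, hy, hy0, hyβ⟩ := hβ
    have hgx : W552.GenEig (W.map (W534.iter (Φ.Fr (P i).obj) s)) α x := ⟨1, by
      rw [pow_one, LinearMap.sub_apply, LinearMap.smul_apply, Module.End.one_apply, sub_eq_zero]
      exact hxα⟩
    have hgy : W552.GenEig (W.map (W534.iter (Φ.Fr (P i).obj) s)) β y := ⟨1, by
      rw [pow_one, LinearMap.sub_apply, LinearMap.smul_apply, Module.End.one_apply, sub_eq_zero]
      exact hyβ⟩
    have hj := (hpt α j x hx0 hx hgx).1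
    have hj' := (hpt β j' y hy0 hy hgy).1
    have hab : a = b := by omega
    subst hab
    have h1 : α ^ n = β ^ n := mul_right_cancel₀ (pow_ne_zero _ hq0) hαβ
    have h2 := ptc_pow H hL hpt hx0 hy0 hx hy hgx hgy (by omega : 0 < n) h1
    exact ⟨rfl, h2.2.1, h2.1⟩
  exact ((W552.irr_main hfam hirr hsep).1.1 (fun _ => hH) () ()).1

/-- The Frobenius endomorphism is semisimple. -/
theorem diag_frob (H : GSetup Φ σ P m R) (hL : Lvl Φ (P i) D m M s t b) [IsAlgClosed W.K]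
    (hpt : PTCases Φ (P i) D m s t v) (hM : 0 < M) (hD : (P i).obj.IsCyc 1 D)
    (hdeg : 0 < (P i).obj.V.degCycle (divPow ops D (P i).obj.dim (P i).obj.V.fundCycle))
    (hHL : HardLefschetz W (P i).obj D) (hB : LefschetzB W (P i).obj D)
    (hRH : RiemannHypothesis W (P i).obj (Φ.Fr (P i).obj) (card Φ (P i).obj 1))
    (hH : HodgeType W (P i).obj D) :
    W552.Diagonalizable W (W534.iter (Φ.Fr (P i).obj) s) := by
  have hfam := frob_family hL hM hD hdeg hHL hB hRH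
  obtain ⟨A, hA⟩ := W552.irrG_of (irrFrob' H hL hpt)
  obtain ⟨g, Φ', l⟩ := W552.exists_loc (P := ⟨(P i).obj, D⟩) hD hHL hB (W552.topNe (P := ⟨(P i).obj, D⟩) hD hdeg)
  obtain ⟨B⟩ := W552.exists_rb l hH
  exact W552.diag_of l B hA hfam.q_ne (hfam.frob 0 (fun _ => ()))

end Pool.Agent.W5h58.VL
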