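import Pool.Agent.W5h58.VL.Sign

/-!
# The members of the families with one further eigenvalue
-/

open CategoryTheory AlgebraicGeometry Polynomial Filter

universe u v w

namespace Pool.Agent.W5h58.VL

open Pool.Agent.H914 Pool.Agent.W534 Pool.Agent.W521.Frob VarClass Obj WeilCohomology
  Pool.Agent.H281R3.HT Pool.Agent.W458.MF Pool.Agent.W290.MF

variable {k : Type u} [Field k] {𝒱 : VarClass k} {ops : CycleOps 𝒱}
  {W : WeilCohomology.{u, v} ops} {Y : 𝒱.Obj} {p : ℕ} {Φ : FrobSystem W p}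

section A

variable {Θ : Th ops} {P : Piece W Y} {m : ℕ} {D : P.obj.Cycles}

lemma algV_zero {X : 𝒱.Obj} : algV W (0 : W.H X) = algSpan W X := by
  rw [algV, Submodule.span_zero_singleton, sup_bot_eq]

/-- The members whose further eigenvectors are algebraic. -/
lemma mdataA (hH : HodgeType W P.obj D) (hE : ∀ x, IsExt p P m x → x ∈ algSpan W P.obj) :
    MData Θ P p m D 0 where
  hodge := hH
  pv := by
    have h1 := (PV.of (Θ := Θ) (W := W) (X := P.obj) (j := 0)
      ⟨_, P.obj.V.fundCycle_mem, rfl⟩).smul 0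
    rwa [Rat.cast_zero, zero_smul] at h1
  sq := by
    have h1 : ext W (0 : W.H P.obj) (0 : W.H P.obj) = 0 := by
      rw [H281R3.HT.ext, map_zero, zero_mul]
    rw [h1]
    exact W552.AS.ratSub.zero
  veig := Or.inl rfl
  ext := fun x hx => by rw [algV_zero]; exact hE x hx
  vb := fun f Φ' l => by rw [algV_zero]; exact exists_vb l hH
  bfv := fun h => absurd rfl h
  pt := Or.inl hE

/-- The members with a virtual class. -/
lemma mdataB {v : W.H P.obj} {n : ℕ} (h : VMem Θ W P.mor D P.sub v n) (hv : IsExt p P m v)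
    (hE : ∀ x, IsExt p P m x → ∃ c : W.K, x = c • v)
    (hH : Pol.HodgeTypeFor W P.obj D (fun x => ∃ y, x = W.map P.mor y)) :
    MData Θ P p m D v where
  hodge := h.hodge hH
  pv := h.pv
  sq := h.sq
  veig := Or.inr hv
  ext := fun x hx => by
    obtain ⟨c, rfl⟩ := hE x hx
    exact Submodule.mem_sup_right (Submodule.smul_mem _ _ (Submodule.mem_span_singleton_self v))
  vb := fun f Φ' l => h.exists_vb l hH
  bfv := fun _ f F => h.bf_vv F
  pt := Or.inr ⟨h.split, hE⟩

end A

section B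

variable {I : Type} {σ : W.K →+* ℂ} {P : I → Piece W Y} {m : ℕ} {R : ℤ[X]}

/-- The algebraic classes are sums of pull-backs and multiples of the further class. -/
lemma alg_range' [IsAlgClosed W.K] (H : GSetup Φ σ P m R) (i : I) {v : W.H (P i).obj} {ρ : W.K}
    (hv : W.map (P i).fr v = ρ • v) (hE : ∀ x, IsExt p (P i) m x → ∃ c : W.K, x = c • v) {j : ℕ}
    {z : (P i).obj.Cycles} (hz : (P i).obj.IsCyc j z) :
    ∃ y, ∃ c : W.K, W.cl (P i).obj z = W.map (P i).mor y + c • v := by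
  obtain ⟨a, b, ha, hb, hab, h⟩ := frob_comm Φ (P i).mor
  obtain ⟨a₀, b₀, ha₀, hb₀, hlev⟩ := G.exists_glevel (H.frob i)
  obtain ⟨c, hc, hcyc⟩ := Φ.cyc hz
  have hL := hlev (a * c) (Nat.mul_pos ha hc)
  set s := b₀ * (a * c) with hs
  set t := a₀ * (a * c) with ht
  have hcomm : ∀ y : W.H Y, frob Φ (P i).obj s (W.map (P i).mor y) =
      W.map (P i).mor (frob Φ Y (b * (b₀ * c)) y) := by
    intro y
    have e : s = a * (b₀ * c) := by rw [hs]; ring
    rw [e]
    exact h (b₀ * c) y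
  set x := W.cl (P i).obj z with hx
  have hx1 : frob Φ (P i).obj s x = ((card Φ (P i).obj s : W.K) ^ j) • x := by
    have h1 := frob_mul Φ hcyc (b₀ * a)
    rw [card_pow, frob_apply, show s = c * (b₀ * a) by rw [hs]; ring]
    exact h1
  set M : Set (W.H (P i).obj) := {z | (∃ (w : W.H Y) (ν : W.K),
    w ∈ Module.End.maxGenEigenspace (frob Φ Y (b * (b₀ * c))) ν ∧ z = W.map (P i).mor w) ∨
    (∃ mu, IsEig p (P i) m mu z) ∨ ∃ c : W.K, z = c • v} with hM
  have hMgen : ∀ z ∈ M, ∃ ν : W.K, z ∈ Module.End.maxGenEigenspace (frob Φ (P i).obj s) ν := by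
    rintro z (⟨w, ν, hw, rfl⟩ | ⟨mu, hz⟩ | ⟨c', rfl⟩)
    · refine ⟨1 * ν, gen_map (θ := (W.map (P i).mor).toLinearMap) (c := 1) ?_ hw⟩
      intro y
      rw [one_smul]
      exact hcomm y
    · exact ⟨mu ^ t, eig_mem_gen (hL.eig hz.eig)⟩
    · exact ⟨ρ ^ t, Submodule.smul_mem _ _ (eig_mem_gen (hL.eig hv))⟩
  have hspan : x ∈ Submodule.span W.K M := by
    obtain ⟨w, hw⟩ := (H.gen i) x
    have h1 : x = W.map (P i).mor w + (x - W.map (P i).mor w) := by abel
    rw [h1]
    refine Submodule.add_mem _ ?_ ?_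
    · have h2 := Submodule.apply_mem_span_image_of_mem_span (W.map (P i).mor).toLinearMap
        (span_gen_top (frob Φ Y (b * (b₀ * c))) w)
      refine Submodule.span_mono ?_ h2
      rintro _ ⟨w', ⟨ν, hν⟩, rfl⟩
      exact Or.inl ⟨w', ν, hν, rfl⟩
    · refine Submodule.span_le.2 ?_ (H.span i _ hw)
      rintro z (hz | hz)
      · exact Submodule.subset_span (Or.inr (Or.inl hz))
      · exact Submodule.subset_span (Or.inr (Or.inr (hE z hz)))
  have h3 := mem_span_gen hMgen hspan (eig_mem_gen hx1)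
  have h4 : Submodule.span W.K {v | v ∈ M ∧
      v ∈ Module.End.maxGenEigenspace (frob Φ (P i).obj s) ((card Φ (P i).obj s : W.K) ^ j)} ≤
      LinearMap.range (W.map (P i).mor).toLinearMap ⊔ Submodule.span W.K {v} := by
    rw [Submodule.span_le]
    rintro z ⟨hz | hz | ⟨c', rfl⟩, hz2⟩
    · obtain ⟨w, ν, hw, rfl⟩ := hz
      exact Submodule.mem_sup_left ⟨w, rfl⟩
    · obtain ⟨mu, hz⟩ := hz
      exfalso
      have h6 := eq_of_mem_gen (eig_mem_gen (hL.eig hz.eig)) hz2 hz.ne
      have h7 := congrArg σ h6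
      rw [map_pow, map_pow, map_natCast, ← Nat.cast_pow] at h7
      exact G.sep_nat (G.GSetup.Q_pos H) H.monic H.bal H.sep i hL.2.1 (aeval_sigma σ hz.root)
        (pow_pos (card_pos Φ s) j) h7
    · exact Submodule.mem_sup_right (Submodule.smul_mem _ _ (Submodule.mem_span_singleton_self v))
  obtain ⟨y, ⟨y, rfl⟩, y', hy', hyy⟩ := Submodule.mem_sup.1 (h4 h3)
  obtain ⟨c', rfl⟩ := Submodule.mem_span_singleton.1 hy'
  exact ⟨y, c', hyy.symm⟩

variable {n : ℕ} {δ : ℤˣ}

lemma split_of (H : GSetup Φ σ P m R) (i : I) {e : ℕ} (hP : Fam.IsMember (P i) Φ m n e δ) :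
    Split W (P i).mor (P i).sub where
  gen := H.gen i
  deg := H.sub_le i
  gys := fun _ hx => LinearMap.mem_ker.1 (hP.gysin hx)

lemma exists_eig [IsAlgClosed W.K] {P : Piece W Y} {e : ℕ} (hP : Fam.IsMember P Φ m n e δ)
    {lam : W.K} (hl : aeval lam (weil (P.Q p m) P.pol) = 0) : ∃ x, IsEig p P m lam x := by
  have hμ : ((weil (P.Q p m) P.pol).map (Int.castRingHom W.K)).eval lam = 0 := by
    rw [Polynomial.eval_map]
    exact hl
  have h1 : (((W.map P.fr).toLinearMap).restrict (member_stable hP)).charpoly.IsRoot lam := by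
    rw [member_charpoly hP, IsRoot.def, eval_mul, hμ, zero_mul]
  obtain ⟨v, hv, hv0⟩ :=
    ((Module.End.hasEigenvalue_iff_isRoot_charpoly _ lam).2 h1).exists_hasEigenvector
  exact ⟨v, v.2, fun h => hv0 (Subtype.ext h),
    congrArg Subtype.val (Module.End.mem_eigenspace_iff.1 hv), hl⟩

/-- The degree of the Frobenius endomorphism. -/
lemma deg_of [IsAlgClosed W.K] (H : GSetup Φ σ P m R) (i : I) {e : ℕ}
    (hP : Fam.IsMember (P i) Φ m n e δ) (x : W.H (P i).obj) :
    W.tr (P i).obj (W.map (P i).fr x) = (p : W.K) ^ ((P i).obj.dim * m) * W.tr (P i).obj x := by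
  have hQ : ((P i).Q p m : W.K) = (p : W.K) ^ ((P i).obj.dim * m) := by
    rw [Piece.Q, Nat.cast_pow]
  exact W216.MF.deg W Φ (P i) m H.hp H.hm (H.frob i) (H.gen i)
    (fun x hx => LinearMap.mem_ker.1 (hP.gysin hx)) (H.span i) (member_exists hP) (by
      intro lam lam' v v' hv hv' a ha h
      rw [← hQ] at h ⊢
      have hQ0 : ((P i).Q p m : ℂ) ≠ 0 := by
        exact_mod_cast (G.GSetup.Q_pos H i).ne'
      have h0' : σ lam' ≠ 0 := root_ne_zero (G.GSetup.Q_pos H i).ne' (H.monic i)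
        (aeval_sigma σ hv'.root)
      have h1 : (σ lam) ^ a = (((P i).Q p m : ℂ) / σ lam') ^ a := by
        have h2 := congrArg σ h
        rw [mul_pow, map_mul, map_pow, map_pow, map_pow, map_natCast] at h2
        rw [div_pow, eq_div_iff (pow_ne_zero _ h0')]
        exact h2
      have h3 := sep_roots (G.GSetup.Q_pos H) H.monic H.bal H.sep i ha (aeval_sigma σ hv.root)
        (root_conj (G.GSetup.Q_pos H i).ne' (H.monic i) (aeval_sigma σ hv'.root)) h1
      apply σ.injective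
      rw [map_mul, h3, div_mul_cancel₀ _ h0', map_natCast]) (by
      intro lam v hv a ha
      rw [← hQ]
      exact setup_no H i ha lam hv.root) x

/-- The polynomial of the vanishing part. -/
noncomputable def chi (p : ℕ) (P : Piece W Y) (m n e : ℕ) (δ : ℤˣ) : ℤ[X] :=
  Fam.weilPoly (p ^ (P.obj.dim * m)) P.pol * Fam.extraPoly e (δ * (p : ℤ) ^ (n * m))

/-- The further eigenvalue. -/
def rho (p m n : ℕ) (δ : ℤˣ) : ℤ := δ * (p : ℤ) ^ (n * m)

lemma chi_eq (P : Piece W Y) (K : Type*) [Field K] [CharZero K] :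
    (chi p P m n 1 δ).map (Int.castRingHom K) =
      (((weil (P.Q p m) P.pol).map (Int.castRingHom ℚ)) *
        (Polynomial.X - C ((rho p m n δ : ℤ) : ℚ))).map (Rat.castHom K) := by
  have h1 : (Rat.castHom K).comp (Int.castRingHom ℚ) = Int.castRingHom K := RingHom.ext_int _ _
  rw [chi, extra_one, weilPoly_eq, Polynomial.map_mul, Polynomial.map_mul, Polynomial.map_map, h1,
    Polynomial.map_sub, Polynomial.map_sub, map_X, map_X, map_C, map_C]
  congr 2
  rw [rho]
  simp

lemma rho_sq {d : ℕ} (hdim : d = 2 * n) : ((rho p m n δ : ℤ) : ℚ) ^ 2 = (p : ℚ) ^ (d * m) := by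
  rw [rho, hdim]
  rcases unit_sq δ ((p : ℤ) ^ (n * m)) with h | h <;> rw [h] <;> push_cast <;> ring

lemma rho_ne (hp : 1 < p) : ((rho p m n δ : ℤ) : ℚ) ≠ 0 := by
  have h1 : (p : ℤ) ^ (n * m) ≠ 0 := pow_ne_zero _ (by exact_mod_cast (by omega : p ≠ 0))
  rw [rho]
  rcases unit_sq δ ((p : ℤ) ^ (n * m)) with h | h
  · rw [h]; exact_mod_cast h1
  · rw [h]; exact_mod_cast neg_ne_zero.2 h1

/-- **The virtual class of a member with one further eigenvalue.** -/
theorem exists_w {Θ : Th ops} [IsAlgClosed W.K] (H : GSetup Φ σ P m R) (i : I)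
    (hP : Fam.IsMember (P i) Φ m n 1 δ) (hdim : (P i).obj.dim = 2 * n)
    (hRH : RiemannHypothesis W (P i).obj (Φ.Fr (P i).obj) (card Φ (P i).obj 1))
    (hY : ∀ y : W.H Y, y ∈ algSpan W Y) {D : (P i).obj.Cycles} (hD : (P i).obj.IsCyc 1 D)
    (hdeg : 0 < (P i).obj.V.degCycle (divPow ops D (P i).obj.dim (P i).obj.V.fundCycle))
    {N : ℕ} {G : Matrix (Fin N) (Fin N) ℚ} (hG : 0 < G.det)
    (hT : ∀ᶠ j in Θ.F, HasForm (Θ.T j) (P i).mor (P i).fr n
      ((chi p (P i) m n 1 δ).map (Int.castRingHom ℚ)) G) :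
    ∃ w ∈ (P i).sub, W.map (P i).fr w = ((rho p m n δ : ℤ) : W.K) • w ∧
      (∃ q : ℚ, 0 < q ∧ (-1 : W.K) ^ n * W.tr (P i).obj (w * w) = q) ∧
      PV Θ W (P i).obj w ∧ W552.AS W ((P i).obj.prod (P i).obj) (ext W w w) := by
  set Pq : ℚ[X] := (weil ((P i).Q p m) (P i).pol).map (Int.castRingHom ℚ) with hPq
  have hPm : Pq.Monic := (weil_monic _ (H.monic i)).map _
  have hpos := weil_eval_pos H i hRH (fun lam hl => exists_eig hP hl)
  have h0 : Pq.eval 0 = (((p : ℚ) ^ (n * m)) ^ (P i).pol.natDegree) ^ 2 := by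
    have h1 := weil_eval_zero ((P i).Q p m) (H.monic i)
    have h2 : Pq.eval 0 = (((weil ((P i).Q p m) (P i).pol).eval 0 : ℤ) : ℚ) := by
      have h3 := Polynomial.eval_intCast_map (Int.castRingHom ℚ)
        (weil ((P i).Q p m) (P i).pol) 0
      rw [Int.cast_zero] at h3
      exact h3
    rw [h2, h1, Piece.Q, hdim]
    push_cast
    ring
  have hn1 := divPow_mem (ops := ops) hD (P i).obj.dim (P i).obj.V.fundCycle_mem
  rw [zero_add] at hn1
  have hdegQ : ∀ x, W.tr (P i).obj (W.map (P i).fr x) =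
      ((((rho p m n δ : ℤ) : ℚ) ^ 2 : ℚ) : W.K) * W.tr (P i).obj x := by
    intro x
    rw [deg_of H i hP, rho_sq hdim, Rat.cast_pow, Rat.cast_natCast]
  obtain ⟨w, hw1, hw2, hw3, hw4, hw5⟩ := exists_virtual (Θ := Θ) (W := W)
    (split_of H i hP) hY hdim hPm (ρ := ((rho p m n δ : ℤ) : ℚ)) (rho_ne H.hp) (by
      have h1 := hP.charpoly
      rw [Piece.charpoly] at h1
      rw [h1]
      exact chi_eq (P i) W.K)
    (hpos _).ne' (hpos _).ne' (c := ((p : ℚ) ^ (n * m)) ^ (P i).pol.natDegree)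
    (pow_ne_zero _ (pow_ne_zero _ (by
      have := H.hp
      exact_mod_cast (by omega : p ≠ 0)))) h0 (g := (P i).pol.natDegree) (by
      rw [hPq, (weil_monic _ (H.monic i)).natDegree_map, weil_natDegree _ (H.monic i)])
    hdegQ (z := divPow ops D (P i).obj.dim (P i).obj.V.fundCycle) hn1 (by
      rw [W.tr_cl hn1]
      exact_mod_cast hdeg.ne') hG.ne' (by
      filter_upwards [hT] with j hj
      have h1 := chi_eq (n := n) (m := m) (p := p) (δ := δ) (P i) ℚ
      have h2 : (Rat.castHom ℚ) = RingHom.id ℚ := RingHom.ext_rat _ _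
      rw [h2, Polynomial.map_id] at h1
      rw [h1] at hj
      exact hj)
  refine ⟨w, hw1, ?_, ⟨_, ?_, hw3⟩, hw4, hw5⟩
  · rw [hw2]
    congr 1
    push_cast
    rfl
  · exact mul_pos (mul_pos (hpos _) (hpos _)) hG

/-- All further eigenvectors are multiples of the virtual class. -/
lemma ext_mult [IsAlgClosed W.K] (H : GSetup Φ σ P m R) (i : I)
    (hP : Fam.IsMember (P i) Φ m n 1 δ) (hdim : (P i).obj.dim = 2 * n) {w : W.H (P i).obj}
    (hw1 : w ∈ (P i).sub) (hw2 : W.map (P i).fr w = ((rho p m n δ : ℤ) : W.K) • w) (hw0 : w ≠ 0)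
    {x : W.H (P i).obj} (hx : IsExt p (P i) m x) : ∃ c : W.K, x = c • w := by
  have hno : ∀ lam : W.K, aeval lam (weil ((P i).Q p m) (P i).pol) = 0 →
      lam ^ 2 ≠ ((P i).Q p m : W.K) := by
    intro lam hl h
    exact setup_no H i one_pos lam hl (by rw [pow_one, pow_one, h])
  obtain ⟨hxs, n', hn', hx2⟩ := hx
  have hnn : n' = n := by omega
  subst hnn
  set r : W.K := ((rho p m n' δ : ℤ) : W.K) with hr
  have hr0 : r ≠ 0 := by
    have h1 := rho_ne (n := n') (m := m) (δ := δ) H.hp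
    rw [hr]
    exact_mod_cast h1
  have hcases : W.map (P i).fr x = r • x ∨ W.map (P i).fr x = (-r) • x := by
    rw [hr, rho]
    rcases unit_sq δ ((p : ℤ) ^ (n' * m)) with h | h <;> rw [h] <;> push_cast
    · exact hx2
    · rw [neg_neg]
      exact hx2.symm
  rcases hcases with h | h
  · exact member_uniq H.hp hP (fun _ => ⟨hdim, Or.inl rfl⟩) (H.sep i) hno r w x hw1 hxs hw2 h hw0
  · by_cases hx0 : x = 0
    · exact ⟨0, by rw [hx0, zero_smul]⟩
    · exfalso
      have h1 : Module.End.HasEigenvalue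
          (((W.map (P i).fr).toLinearMap).restrict (member_stable hP)) (-r) := by
        refine Module.End.hasEigenvalue_of_hasEigenvector (x := ⟨x, hxs⟩) ⟨?_, ?_⟩
        · rw [Module.End.mem_eigenspace_iff]
          exact Subtype.ext h
        · intro h
          exact hx0 (congrArg Subtype.val h)
      have h2 := (Module.End.hasEigenvalue_iff_isRoot_charpoly _ (-r)).1 h1
      rw [member_charpoly hP, IsRoot.def, eval_mul, mul_eq_zero] at h2
      rcases h2 with h2 | h2
      · rw [Polynomial.eval_map] at h2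
        refine hno (-r) h2 ?_
        have h3 := congrArg (fun q : ℚ => (q : W.K)) (rho_sq (p := p) (m := m) (δ := δ) hdim)
        rw [neg_sq, hr, Piece.Q]
        push_cast at h3 ⊢
        exact h3
      · rw [extra_one, Polynomial.map_sub, map_X, map_C, eval_sub, eval_X, eval_C] at h2
        have h3 : -r - r = 0 := h2
        have h4 : (2 : W.K) * r = 0 := by linear_combination -h3
        exact hr0 ((mul_eq_zero.1 h4).resolve_left two_ne_zero)

end B

end Pool.Agent.W5h58.VL
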