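import Pool.Agent.W5h58.VL.Span
import Pool.Agent.W552.IrrConv
import Pool.Agent.W397.MF.PAIR

/-!
# The standard conjectures of Hodge type and D for the products, with further classes
-/

open CategoryTheory AlgebraicGeometry Polynomial

universe u v w

namespace Pool.Agent.W5h58.VL

open Pool.Agent.H914 Pool.Agent.W534 Pool.Agent.W521.Frob VarClass Obj WeilCohomology
  Pool.Agent.H281R3.HT Pool.Agent.W458.MF Pool.Agent.W290.MF

variable {k : Type u} [Field k] {𝒱 : VarClass k} {ops : CycleOps 𝒱}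
  {W : WeilCohomology.{u, v} ops} {Y : 𝒱.Obj} {p : ℕ} {Φ : FrobSystem W p}

/-- What is needed of a member. -/
structure MData (Θ : Th ops) (P : Piece W Y) (p m : ℕ) (D : P.obj.Cycles) (v : W.H P.obj) :
    Prop where
  hodge : HodgeType W P.obj D
  pv : PV Θ W P.obj v
  sq : W552.AS W (P.obj.prod P.obj) (ext W v v)
  veig : v = 0 ∨ IsExt p P m v
  ext : ∀ x, IsExt p P m x → x ∈ algV W v
  vb : ∀ f Φ', W552.Loc W (⟨P.obj, D⟩ : Polarized 𝒱) f Φ' → Nonempty (VB Θ W P.obj D f (algV W v))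
  bfv : v ≠ 0 → ∀ f, W552.Fr W P.obj D f → ∃ q : ℚ, 0 < q ∧ W552.bf W P.obj D f v v = q
  pt : (∀ x, IsExt p P m x → x ∈ algSpan W P.obj) ∨
    (Split W P.mor P.sub ∧ ∀ x, IsExt p P m x → ∃ c : W.K, x = c • v)

section Two

variable {n : ℕ}

/-- The classes on the product of two varieties. -/
lemma two_span {P : Fin 2 → Polarized 𝒱} {f : ∀ a, (P a).X ⟶ (P a).X} {q : ℕ}
    {v : ∀ a, W.H (P a).X}
    (h : ∀ (x : ∀ a, W.H (P a).X) (d : Fin 2 → ℕ) (α : Fin 2 → W.K),
      (∀ a, x a ∈ W.gr (P a).X (d a)) → (∀ a, x a ≠ 0) →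
      (∀ a, W.map (f a) (x a) = α a • x a) →
      W552.IsTateRel q {(d 0, α 0), (d 1, α 1)} → x 0 ∈ algV W (v 0) ∧ x 1 ∈ algV W (v 1))
    {c : W.H ((P 0).X.prod (P 1).X)}
    (hc : c ∈ Submodule.span W.K
      (show Set (W.H ((P 0).X.prod (P 1).X)) from GoodProd W P f q)) :
    c ∈ Submodule.span W.K {c : W.H ((P 0).X.prod (P 1).X) | ∃ a ∈ algV W (v 0),
      ∃ b ∈ algV W (v 1), c = ext W a b} := by
  refine Submodule.span_mono ?_ hc
  rintro c ⟨x, d, α, hd, hx0, hα, hr, rfl⟩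
  have e0 : (List.finRange 2) = [0, 1] := rfl
  rw [e0] at hr
  have h1 := h x d α hd hx0 hα hr
  refine ⟨x 0, h1.1, x 1, h1.2, ?_⟩
  rw [e0, List.map_cons, List.map_cons, List.map_nil, List.prod_cons, List.prod_cons,
    List.prod_nil, mul_one, H281R3.HT.ext]
  congr 1

end Two

variable {I : Type} {σ : W.K →+* ℂ} {P : I → Piece W Y} {m : ℕ} {R : ℤ[X]}
  {D : ∀ i, (P i).obj.Cycles} {M b : ℕ} {s t : I → ℕ}

/-- Roots do not give relations. -/
lemma no_single (H : GSetup Φ σ P m R) (i : I) {t : ℕ} (ht : 0 < t) {lam : W.K}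
    (hl : aeval lam (weil ((P i).Q p m) (P i).pol) = 0) {d : ℕ} :
    ¬ W552.IsTateRel (p ^ M) {(d, lam ^ t)} := by
  rintro ⟨j, -, r, hr, h⟩
  rw [Multiset.map_singleton, Multiset.prod_singleton] at h
  have h1 := congrArg σ h
  rw [← pow_mul, map_pow, map_pow, map_natCast, ← Nat.cast_pow] at h1
  exact Pool.Agent.W458.MF.G.sep_nat (Q_pos H) H.monic H.bal H.sep i
    (Nat.mul_pos ht (by omega)) (aeval_sigma σ hl)
    (pow_pos (pow_pos Φ.p_pos _) _) h1

/-- Relations between two roots. -/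
lemma pair_rel (H : GSetup Φ σ P m R) (i j : I) {t : ℕ} (ht : 0 < t) {lam mu : W.K}
    (hl : aeval lam (weil ((P i).Q p m) (P i).pol) = 0)
    (hmu : aeval mu (weil ((P j).Q p m) (P j).pol) = 0) {d d' : ℕ}
    (h : W552.IsTateRel (p ^ M) {(d, lam ^ t), (d', mu ^ t)}) :
    i = j ∧ lam * mu = ((P i).Q p m : W.K) := by
  obtain ⟨j', -, r, hr, h⟩ := h
  simp only [Multiset.insert_eq_cons, Multiset.map_cons, Multiset.map_singleton,
    Multiset.prod_cons, Multiset.prod_singleton] at h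
  have h1 := congrArg σ h
  rw [mul_pow, ← pow_mul, ← pow_mul, map_mul, map_pow, map_pow, map_pow, map_natCast,
    ← Nat.cast_pow] at h1
  obtain ⟨h2, h3⟩ := bal_two (Q_pos H) H.monic H.bal H.sep i j
    (Nat.mul_pos ht (show 0 < r by omega)) (aeval_sigma σ hl) (aeval_sigma σ hmu)
    (Submonoid.one_mem _) (pow_pos (pow_pos Φ.p_pos _) _) (by rw [mul_one]; exact h1)
  refine ⟨h2, σ.injective ?_⟩
  rw [map_mul, h3, map_natCast]

/-- **The standard conjectures of Hodge type and D for all products of the members.** -/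
theorem hodge_products {Θ : Th ops} [IsAlgClosed W.K] [Finite I] (H : GSetup Φ σ P m R)
    (hY : ∀ x : W.H Y, x ∈ algSpan W Y) (hD : ∀ i, (P i).obj.IsCyc 1 (D i))
    (hdeg : ∀ i, 0 < (P i).obj.V.degCycle (divPow ops (D i) (P i).obj.dim (P i).obj.V.fundCycle))
    (hHL : ∀ i, HardLefschetz W (P i).obj (D i)) (hB : ∀ i, LefschetzB W (P i).obj (D i))
    (hRH : ∀ i, RiemannHypothesis W (P i).obj (Φ.Fr (P i).obj) (card Φ (P i).obj 1))
    {v : ∀ i, W.H (P i).obj} (hV : ∀ i, MData Θ (P i) p m (D i) (v i))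
    (n : ℕ) (A : Fin (n + 1) → I) :
    W552.HodgeAndD W (W552.nest ops n (fun a => ⟨(P (A a)).obj, D (A a)⟩)) := by
  classical
  obtain ⟨M, hM, hlev⟩ := exists_common (fun i => H.frob i) hD
  choose s t b hL using hlev
  -- all `t i` are equal
  have ht : ∀ i j, t i = t j := fun i j =>
    Nat.eq_of_mul_eq_mul_right H.hm ((hL i).tm.trans (hL j).tm.symm)
  set P' : I → Polarized 𝒱 := fun i => ⟨(P i).obj, D i⟩ with hP'
  set f : ∀ i, (P' i).X ⟶ (P' i).X := fun i => W534.iter (Φ.Fr (P i).obj) (s i) with hf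
  have hpt : ∀ i, PTCases Φ (P i) (D i) m (s i) (t i) (v i) := by
    intro i
    rcases (hV i).pt with h | ⟨h1, h2⟩
    · exact ptc_of_alg H (hL i) hY h
    · exact ptc_of_sub H (hL i) hY h1 h2
  have hdiag : ∀ i, W552.Diagonalizable W (f i) := fun i =>
    diag_frob H (hL i) (hpt i) hM (hD i) (hdeg i) (hHL i) (hB i) (hRH i) (hV i).hodge
  have hQt : ∀ i, (P i).Q p m ^ t i = (p ^ M) ^ (P i).obj.dim := by
    intro i
    rw [Piece.Q, ← pow_mul, ← pow_mul, ← (hL i).tm]
    congr 1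
    ring
  -- the eigenvectors
  have hcase : ∀ i d α y, y ∈ W.gr (P i).obj d → y ≠ 0 → W.map (f i) y = α • y →
      (W552.IsTateRel (p ^ M) ({(d, α)} : Multiset (ℕ × W.K)) ∧ y ∈ algV W (v i)) ∨
      ∃ lam x, IsEig p (P i) m lam x ∧ (d, α) = ((P i).obj.dim, lam ^ t i) ∧
        ∃ c : W.K, y = c • x := by
    intro i d α y hyd hy0 hyα
    have hyα' : frob Φ (P i).obj (s i) y = α • y := hyα
    rcases cases_genT le_sup_left H (hL i) hY (hV i).ext (eig_mem_gen hyα') hy0 with
      ⟨lam, x, hx, hα, c, hc⟩ | ⟨hyT, -⟩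
    · right
      refine ⟨lam, x, hx, ?_, c, hc⟩
      rw [hα]
      congr 1
      by_contra hne
      apply hy0
      have h6 : y ∈ W.gr (P i).obj (P i).obj.dim := by
        rw [hc]
        exact Submodule.smul_mem _ _ (H.sub_le i hx.mem)
      rw [← proj_same (W.isInternal (P i).obj) hyd]
      exact proj_ne _ h6 (Ne.symm hne)
    · left
      exact ⟨tate_T (hL i) (H.sub_le i) (hV i).veig hyT hyd hy0 hyα', hyT⟩
  have hsing : ∀ i d α y, y ∈ W.gr (P i).obj d → y ≠ 0 → W.map (f i) y = α • y →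
      W552.IsTateRel (p ^ M) ({(d, α)} : Multiset (ℕ × W.K)) → y ∈ algV W (v i) := by
    intro i d α y hyd hy0 hyα hr
    rcases hcase i d α y hyd hy0 hyα with h | ⟨lam, x, hx, he, -⟩
    · exact h.2
    · rw [he] at hr
      exact absurd hr (no_single H i (hL i).t_pos hx.root)
  have hqK : ((p ^ M : ℕ) : W.K) ≠ 0 := by
    rw [Nat.cast_pow]
    exact pow_ne_zero _ (cast_p_ne Φ)
  have hpair : ∀ i j d α y d' β y', y ∈ W.gr (P i).obj d → y ≠ 0 → W.map (f i) y = α • y →
      y' ∈ W.gr (P j).obj d' → y' ≠ 0 → W.map (f j) y' = β • y' →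
      W552.IsTateRel (p ^ M) ({(d, α), (d', β)} : Multiset (ℕ × W.K)) →
      (i = j ∧ ext W y y' ∈ algSpan W ((P i).obj.prod (P j).obj)) ∨
        (y ∈ algV W (v i) ∧ y' ∈ algV W (v j)) := by
    intro i j d α y d' β y' hyd hy0 hyα hyd' hy0' hyβ hr
    rcases hcase i d α y hyd hy0 hyα with h | ⟨lam, x, hx, he, c, hc⟩
    · rcases hcase j d' β y' hyd' hy0' hyβ with h' | ⟨mu, x', hx', he', c', hc'⟩
      · exact Or.inr ⟨h.2, h'.2⟩
      · exfalso
        have h1 : W552.IsTateRel (p ^ M) ({(d', β)} : Multiset (ℕ × W.K)) :=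
          tateRel_cancel (s := {(d, α)}) hqK (by rwa [Multiset.singleton_add]) h.1
        rw [he'] at h1
        exact no_single H j (hL j).t_pos hx'.root h1
    · rcases hcase j d' β y' hyd' hy0' hyβ with h' | ⟨mu, x', hx', he', c', hc'⟩
      · exfalso
        have h1 : W552.IsTateRel (p ^ M) ({(d, α)} : Multiset (ℕ × W.K)) :=
          tateRel_cancel (s := {(d', β)}) hqK (by
            rw [Multiset.singleton_add]
            rwa [Multiset.insert_eq_cons, ← Multiset.singleton_add, add_comm,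
              Multiset.singleton_add] at hr) h'.1
        rw [he] at h1
        exact no_single H i (hL i).t_pos hx.root h1
      · left
        rw [he, he', ht j i] at hr
        obtain ⟨h1, h2⟩ := pair_rel H i j (hL i).t_pos hx.root hx'.root hr
        refine ⟨h1, ?_⟩
        subst h1
        have h3 := Pool.Agent.W458.MF.G.GSetup.pair W397.MF.pair H i hx hx' h2
        rw [hc, hc']
        have e : ext W (c • x) (c' • x') = (c * c') • ext W x x' := by
          rw [H281R3.HT.ext, map_smul, map_smul, smul_mul_smul_comm]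
          rfl
        rw [e]
        exact Submodule.smul_mem _ _ h3
  have hnoex : ∀ (n : ℕ) (A : Fin (n + 1) → I) (x : ∀ a, W.H (P (A a)).obj)
      (d : Fin (n + 1) → ℕ) (α : Fin (n + 1) → W.K), (∀ a, x a ∈ W.gr (P (A a)).obj (d a)) →
      (∀ a, x a ≠ 0) → (∀ a, W.map (f (A a)) (x a) = α a • x a) →
      W552.IsTateRel (p ^ M) (((List.finRange (n + 1) : List (Fin (n + 1))) :
          Multiset (Fin (n + 1))).map (fun a => (d a, α a))) →
      W552.PairGenerated (p ^ M) (((List.finRange (n + 1) : List (Fin (n + 1))) :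
          Multiset (Fin (n + 1))).map (fun a => (d a, α a))) := by
    intro n A x d α hd hx0 hα hr
    refine noExotic_of_bal σ (Q_pos H) H.monic H.bal H.sep (hL (A 0)).t_pos
      (pow_pos Φ.p_pos M) (fun i => (P i).obj.dim) ?_ _ _ le_rfl ?_ hr
    · intro i
      rw [ht (A 0) i]
      exact hQt i
    · intro y hy
      obtain ⟨a, -, rfl⟩ := Multiset.mem_map.1 hy
      rcases hcase (A a) _ _ _ (hd a) (hx0 a) (hα a) with h | ⟨lam, x, hx, he, -⟩
      · exact Or.inl h.1
      · refine Or.inr ⟨A a, lam, hx.root, ?_⟩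
        rw [ht (A 0) (A a)]
        exact he
  have hfrob : ∀ (n : ℕ) (A : Fin (n + 1) → I), FrobeniusOnCycles W
      (W552.nest ops n (fun a => P' (A a))).X
      (W552.nestMap ops n (fun a => P' (A a)) (fun a => f (A a))) (p ^ M) := fun n A =>
    frob_nest hM n (fun a => P' (A a)) (fun a => s (A a)) (fun a => (hL (A a)).se)
  have hgood : ∀ (n : ℕ) (A : Fin (n + 1) → I) (j : ℕ)
      (c : W.H (W552.nest ops n (fun a => P' (A a))).X), c ∈ algClasses W _ j →
      c ∈ Submodule.span W.K (GoodProd W (fun a => P' (A a)) (fun a => f (A a)) (p ^ M)) := by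
    rintro n A j _ ⟨z, hz, rfl⟩
    obtain ⟨r, hr, hr'⟩ := hfrob n A j z hz
    refine mem_goodProd (fun a => hdiag (A a)) (W.cl_mem hz) ⟨r, hr, ?_⟩
    rw [← W552.cl_iterate, hr']
  -- the forms
  have hloc : ∀ i, ∃ g Φ', W552.Loc W (P' i) g Φ' := fun i =>
    W552.exists_loc (hD i) (hHL i) (hB i) (W552.topNe (hD i) (hdeg i))
  choose g Φ' l using hloc
  have hVB := fun i => ((hV i).vb (g i) (Φ' i) (l i)).some
  have hpos2 : ∀ i j, ∀ x : W.H ((P i).obj.prod (P j).obj),
      W552.AS W ((P i).obj.prod (P j).obj) x → x ≠ 0 → ∃ q : ℚ, 0 < q ∧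
      W552.bf W ((P i).obj.prod (P j).obj)
        (ops.pull (fst (P i).obj (P j).obj) (D i) + ops.pull (snd (P i).obj (P j).obj) (D j))
        (extSum W (g i) (g j)) x x = q := by
    intro i j x hx hx0
    by_cases hij : i = j
    · subst hij
      exact ((l i).F.prod (l i).F).bf_pos (hodge_square H (hL i) (hpt i) hM (hD i) (hdeg i)
        (hHL i) (hB i) (hRH i) (hV i).hodge) hx hx0
    · refine (hVB i).pair_pos (l i).F (l j).F (hVB j) (AV.of_AS hx) ?_ hx0
      refine W552.AS.ind (p := fun x => x ∈ Submodule.span W.K {c | ∃ a ∈ algV W (v i),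
        ∃ b ∈ algV W (v j), c = ext W a b}) ?_ (fun a b ha hb => Submodule.add_mem _ ha hb) hx
      intro r y hy
      refine two_span (P := fun a => P' ((![i, j] : Fin 2 → I) a))
        (f := fun a => f ((![i, j] : Fin 2 → I) a)) (q := p ^ M)
        (v := fun a => v ((![i, j] : Fin 2 → I) a)) ?_ (hgood 1 ![i, j] r y hy)
      intro x d α hd hx0 hα hr
      rcases hpair i j _ _ _ _ _ _ (hd 0) (hx0 0) (hα 0) (hd 1) (hx0 1) (hα 1) hr with h | h
      · exact absurd h.1 hij
      · exact h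
  have S : W552.RSys W (fun a => (P (A a)).obj) (fun a => D (A a)) (fun a => g (A a))
      (fun _ _ => W552.AS W _) := by
    refine ⟨fun a => (l (A a)).F, fun a => (l (A a)).t, fun a b => W552.AS.ratSub, fun h => h,
      fun h h' => h.comp h', fun h => h.map _, fun a => W552.AOp.one,
      fun a => W552.st_aop (l (A a)).F (l (A a)).ap,
      fun a => W552.par_aop (l (A a)).ap, ?_⟩
    intro a b x hx hx0
    exact hpos2 (A a) (A b) x hx hx0
  have h1ne : ∀ i, (1 : W.H (P i).obj) ≠ 0 := by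
    intro i h0
    obtain ⟨b, hb⟩ := W552.topNe (W := W) (P := P' i) (hD i) (hdeg i)
    apply hb
    have e : b = 1 * b := (one_mul b).symm
    rw [e, h0, zero_mul, map_zero]
  obtain ⟨g₀, hg, hg'⟩ := coreV (Θ := Θ) (P := fun a => P' (A a)) S (fun a => W552.AS.one)
    (fun a => (l (A a)).F.bf_pos (hV (A a)).hodge W552.AS.one (h1ne _))
    (v := fun a => v (A a)) (fun a => (hV (A a)).sq) (fun a => (hV (A a)).pv)
    (fun a h => (hV (A a)).bfv h _ (l (A a)).F)
  have key : ∀ j z, (W552.nest ops n (fun a => P' (A a))).X.IsCyc j z →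
      W.cl (W552.nest ops n (fun a => P' (A a))).X z ≠ 0 →
      ∃ q : ℚ, 0 < q ∧ W552.bf W (W552.nest ops n (fun a => P' (A a))).X
        (W552.nest ops n (fun a => P' (A a))).D g₀ (W.cl _ z) (W.cl _ z) = q := by
    intro j z hz hz0
    refine hg' _ (AV.of_AS (W552.AS.of ⟨z, hz, rfl⟩)) ?_ hz0
    refine Submodule.span_le.2 ?_ (hgood n A j _ ⟨z, hz, rfl⟩)
    rintro c ⟨x, d, α, hd, hx0, hα, hr, rfl⟩
    have h1 := prod_mem_vspan (P := fun a => P' (A a)) (q := p ^ M)
      (v := fun a => v (A a)) x d α hd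
      (fun a hr => hsing (A a) _ _ _ (hd a) (hx0 a) (hα a) hr)
      (fun a b hr => by
        rcases hpair (A a) (A b) _ _ _ _ _ _ (hd a) (hx0 a) (hα a) (hd b) (hx0 b) (hα b) hr
          with h | h
        · exact Or.inl h.2
        · exact Or.inr h)
      (hnoex n A x d α hd hx0 hα hr) (List.finRange (n + 1)) (List.nodup_finRange _) rfl
    refine Submodule.span_mono ?_ h1
    intro c hc
    exact ⟨_, hc⟩
  exact ⟨fun j hj z hz => (hg.hodge hz (key j z hz)).1 hj,
    fun j hj z hz => (hg.hodge hz (key j z hz)).2 hj⟩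

end Pool.Agent.W5h58.VL
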