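import Pool.Agent.W5h58.VL.Prods
import Pool.Agent.W458.MF.Gen9
import Mathlib.Analysis.Polynomial.Basic

/-!
# The sign of the values of the polynomial of the Frobenius endomorphism
-/

open CategoryTheory AlgebraicGeometry Polynomial Filter

universe u v w

namespace Pool.Agent.W5h58.VL

open Pool.Agent.H914 Pool.Agent.W534 Pool.Agent.W521.Frob VarClass Obj WeilCohomology
  Pool.Agent.H281R3.HT Pool.Agent.W458.MF Pool.Agent.W290.MF

section Real

lemma pos_of_monic {f : ℝ[X]} (hf : f.Monic) (h : ∀ x : ℝ, f.eval x ≠ 0) (x : ℝ) :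
    0 < f.eval x := by
  by_cases hd : f.natDegree = 0
  · rw [Polynomial.eq_one_of_monic_natDegree_zero hf hd, eval_one]
    exact one_pos
  · have h1 : Tendsto (fun x => f.eval x) atTop atTop :=
      f.tendsto_atTop_of_leadingCoeff_nonneg (natDegree_pos_iff_degree_pos.1 (by omega))
        (by rw [hf.leadingCoeff]; exact zero_le_one)
    obtain ⟨y, hy1, hy2⟩ := ((h1.eventually_ge_atTop 1).and (eventually_ge_atTop x)).exists
    by_contra hx
    push Not at hx
    have h2 := intermediate_value_Icc hy2 (f.continuous.continuousOn (s := Set.Icc x y))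
    obtain ⟨z, -, hz⟩ := h2 ⟨hx, le_trans zero_le_one hy1⟩
    exact h z hz

end Real

variable {k : Type u} [Field k] {𝒱 : VarClass k} {ops : CycleOps 𝒱}
  {W : WeilCohomology.{u, v} ops} {Y : 𝒱.Obj} {p : ℕ} {Φ : FrobSystem W p}
  {I : Type} {σ : W.K →+* ℂ} {P : I → Piece W Y} {m : ℕ} {R : ℤ[X]}

/-- The absolute values of the eigenvalues. -/
lemma norm_eig (H : GSetup Φ σ P m R) (i : I)
    (hRH : RiemannHypothesis W (P i).obj (Φ.Fr (P i).obj) (card Φ (P i).obj 1))
    {lam : W.K} {x : W.H (P i).obj} (hx : IsEig p (P i) m lam x) :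
    ‖σ lam‖ ^ 2 = (((P i).Q p m : ℕ) : ℝ) := by
  obtain ⟨a, b, ha, hb, hlev⟩ := Pool.Agent.W458.MF.G.exists_glevel (H.frob i)
  have hL := hlev 1 one_pos
  set s := b * 1 with hs
  set t := a * 1 with ht
  obtain ⟨Qp, hQ0, hQ1, hQ2⟩ := riemann_pow hRH s (P i).obj.dim
  have h1 : W.map (H914.iter (Φ.Fr (P i).obj) s) x = lam ^ t • x := by
    have h2 := hL.eig hx.eig
    rw [H914.map_iter]
    rw [frob_apply, W534.map_iter] at h2
    rw [Module.End.pow_apply]
    exact h2
  have h3 := hQ1 x (H.sub_le i hx.mem)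
  rw [ev_apply] at h3
  have h4 : aeval (W.map (H914.iter (Φ.Fr (P i).obj) s)).toLinearMap
      (Qp.map (algebraMap ℚ W.K)) x = (Qp.map (algebraMap ℚ W.K)).eval (lam ^ t) • x :=
    Module.End.aeval_apply_of_hasEigenvector
      ⟨Module.End.mem_eigenspace_iff.2 h1, hx.ne⟩
  rw [h4] at h3
  have h5 := (smul_eq_zero.1 h3).resolve_right hx.ne
  have h6 : aeval (σ (lam ^ t)) Qp = 0 := by
    have h7 := congrArg σ h5
    rw [map_zero, Polynomial.eval_map, Polynomial.hom_eval₂] at h7
    rw [aeval_def, ← h7]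
    congr 1
    exact RingHom.ext_rat _ _
  have h7 := hQ2 _ h6
  have e : ((((card Φ (P i).obj 1) ^ s : ℕ) : ℝ)) ^ (P i).obj.dim =
      (((P i).Q p m : ℕ) : ℝ) ^ t := by
    rw [card, Piece.Q, ← Nat.cast_pow, ← Nat.cast_pow]
    congr 1
    rw [← pow_mul, ← pow_mul, ← pow_mul]
    congr 1
    have := hL.2.2.1
    calc Φ.e (P i).obj * 1 * (s * (P i).obj.dim) = (s * Φ.e (P i).obj) * (P i).obj.dim := by ring
      _ = (t * m) * (P i).obj.dim := by rw [this]
      _ = _ := by ring
  rw [e, map_pow, norm_pow, ← pow_mul, mul_comm t 2, pow_mul] at h7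
  exact (pow_left_inj₀ (by positivity) (by positivity) hL.2.1.ne').1 h7

/-- The complex roots. -/
lemma complex_root [IsAlgClosed W.K] (σ : W.K →+* ℂ) {f : ℤ[X]} (hf : f.Monic) {x : ℂ}
    (hx : aeval x f = 0) : ∃ lam : W.K, aeval lam f = 0 ∧ σ lam = x := by
  set g : W.K[X] := f.map (Int.castRingHom W.K) with hg
  have hg0 : g ≠ 0 := (hf.map _).ne_zero
  have h1 : g.Splits := IsAlgClosed.splits g
  have h2 := h1.roots_map σ
  have h3 : g.map σ = f.map (Int.castRingHom ℂ) := by
    rw [hg, Polynomial.map_map]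
    congr 1
    exact RingHom.ext_int _ _
  have h4 : x ∈ (g.map σ).roots := by
    rw [h3, mem_roots (hf.map _).ne_zero, IsRoot.def, Polynomial.eval_map]
    exact hx
  rw [h2, Multiset.mem_map] at h4
  obtain ⟨lam, hlam, rfl⟩ := h4
  refine ⟨lam, ?_, rfl⟩
  rw [mem_roots hg0, IsRoot.def, hg, Polynomial.eval_map] at hlam
  exact hlam

/-- The values of the polynomial are positive. -/
theorem weil_eval_pos [IsAlgClosed W.K] (H : GSetup Φ σ P m R) (i : I)
    (hRH : RiemannHypothesis W (P i).obj (Φ.Fr (P i).obj) (card Φ (P i).obj 1))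
    (hex : ∀ lam : W.K, aeval lam (weil ((P i).Q p m) (P i).pol) = 0 → ∃ x, IsEig p (P i) m lam x)
    (x : ℚ) : 0 < ((weil ((P i).Q p m) (P i).pol).map (Int.castRingHom ℚ)).eval x := by
  set f := weil ((P i).Q p m) (P i).pol with hf
  have hfm : f.Monic := weil_monic _ (H.monic i)
  have h1 : ∀ y : ℝ, (f.map (Int.castRingHom ℝ)).eval y ≠ 0 := by
    intro y hy
    have h2 : aeval (y : ℂ) f = 0 := by
      have h3 := congrArg (Complex.ofRealHom) hy
      rw [map_zero, Polynomial.eval_map, Polynomial.hom_eval₂] at h3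
      rw [aeval_def, ← h3]
      congr 1
    obtain ⟨lam, hl, hly⟩ := complex_root σ hfm h2
    obtain ⟨v, hv⟩ := hex lam hl
    have h4 := norm_eig H i hRH hv
    rw [hly, Complex.norm_real, Real.norm_eq_abs, sq_abs] at h4
    refine setup_no H i one_pos lam hl ?_
    rw [pow_one, pow_one]
    apply σ.injective
    rw [map_pow, hly, map_natCast, ← Complex.ofReal_pow, h4, Complex.ofReal_natCast]
  have h2 := pos_of_monic (hfm.map _) h1 (x : ℝ)
  have h3 : (f.map (Int.castRingHom ℝ)).eval (x : ℝ) =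
      (((f.map (Int.castRingHom ℚ)).eval x : ℚ) : ℝ) := by
    have h4 : f.map (Int.castRingHom ℝ) = (f.map (Int.castRingHom ℚ)).map (Rat.castHom ℝ) := by
      rw [Polynomial.map_map]
      congr 1
    rw [h4, show (x : ℝ) = Rat.castHom ℝ x from rfl, Polynomial.eval_map, Polynomial.eval₂_hom]
    rfl
  rw [h3] at h2
  exact_mod_cast h2

/-- The constant coefficient. -/
lemma weil_eval_zero (q : ℕ) {h : ℤ[X]} (hm : h.Monic) :
    (weil q h).eval 0 = (q : ℤ) ^ h.natDegree := by
  unfold weil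
  rw [eval_finsetSum, Finset.sum_range_succ, Finset.sum_eq_zero, zero_add]
  · simp only [Nat.sub_self, pow_zero, mul_one, eval_mul, eval_pow, eval_add, eval_X, eval_C]
    rw [hm.coeff_natDegree]
    ring
  · intro j hj
    rw [Finset.mem_range] at hj
    simp only [eval_mul, eval_pow, eval_X]
    rw [zero_pow (by omega), mul_zero, mul_zero]

end Pool.Agent.W5h58.VL
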