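import Pool.Agent.W5h58.VL.Irr
import Pool.Agent.W5h58.VL.Core

/-!
# The algebraic classes on the products, with further classes
-/

open CategoryTheory AlgebraicGeometry

universe u v w

namespace Pool.Agent.W5h58.VL

open Pool.Agent.H914 Pool.Agent.H914.VarClass Pool.Agent.H914.VarClass.Obj
  Pool.Agent.H914.WeilCohomology Pool.Agent.H281R3.HT Pool.Agent.H447 Pool.Agent.W552

variable {k : Type u} [Field k] {𝒱 : VarClass k} {ops : CycleOps 𝒱}
  {W : WeilCohomology.{u, v} ops}

section Match

variable {n : ℕ} {P : Fin (n + 1) → Polarized 𝒱} {v : ∀ a, W.H (P a).X}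

/-- The span of the products of classes on pairs and of the classes `v a` which use exactly the
factors in `S`. -/
noncomputable def vspan (W : WeilCohomology.{u, v} ops) (P : Fin (n + 1) → Polarized 𝒱)
    (v : ∀ a, W.H (P a).X) (S : Finset (Fin (n + 1))) :
    Submodule W.K (W.H (nest ops n P).X) :=
  Submodule.span W.K {c | MchV W (fun a => (P a).X) (fun _ _ => AS W _) v (prj ops n P) S c}

/-- The span of the algebraic classes and of the class `v`. -/
noncomputable def algV (W : WeilCohomology.{u, v} ops) {X : 𝒱.Obj} (v : W.H X) :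
    Submodule W.K (W.H X) := algSpan W X ⊔ Submodule.span W.K {v}

lemma vspan_one : (1 : W.H (nest ops n P).X) ∈ vspan W P v ∅ :=
  Submodule.subset_span MchV.one

lemma vspan_single {S : Finset (Fin (n + 1))} {c : W.H (nest ops n P).X} {a : Fin (n + 1)}
    {x : W.H (P a).X} (hc : c ∈ vspan W P v S) (ha : a ∉ S) (hx : x ∈ algV W (v a)) :
    W.map (prj ops n P a) x * c ∈ vspan W P v (insert a S) := by
  obtain ⟨y, hy, z, hz, rfl⟩ := Submodule.mem_sup.1 hx
  obtain ⟨t, rfl⟩ := Submodule.mem_span_singleton.1 hz
  rw [map_add, add_mul]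
  refine Submodule.add_mem _ ?_ ?_
  · clear hx hz
    induction hy using Submodule.span_induction with
    | mem x hx =>
      obtain ⟨j, hx⟩ := Set.mem_iUnion.1 hx
      induction hc using Submodule.span_induction with
      | mem c hc =>
        exact Submodule.subset_span (MchV.single hc ha ((AS.of hx).map _))
      | zero => rw [mul_zero]; exact Submodule.zero_mem _
      | add c c' _ _ h h' => rw [mul_add]; exact Submodule.add_mem _ h h'
      | smul t c _ h => rw [mul_smul_comm]; exact Submodule.smul_mem _ _ h
    | zero => rw [map_zero, zero_mul]; exact Submodule.zero_mem _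
    | add x x' _ _ h h' => rw [map_add, add_mul]; exact Submodule.add_mem _ h h'
    | smul t x _ h => rw [map_smul, smul_mul_assoc]; exact Submodule.smul_mem _ _ h
  · rw [map_smul, smul_mul_assoc]
    refine Submodule.smul_mem _ _ ?_
    induction hc using Submodule.span_induction with
    | mem c hc => exact Submodule.subset_span (MchV.virt hc ha)
    | zero => rw [mul_zero]; exact Submodule.zero_mem _
    | add c c' _ _ h h' => rw [mul_add]; exact Submodule.add_mem _ h h'
    | smul t c _ h => rw [mul_smul_comm]; exact Submodule.smul_mem _ _ h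

lemma vspan_pair {S : Finset (Fin (n + 1))} {c : W.H (nest ops n P).X} {a b : Fin (n + 1)}
    {x : W.H ((P a).X.prod (P b).X)} (hc : c ∈ vspan W P v S) (ha : a ∉ S) (hb : b ∉ S)
    (hab : a ≠ b) (hx : x ∈ algSpan W ((P a).X.prod (P b).X)) :
    W.map (Obj.lift (prj ops n P a) (prj ops n P b)) x * c ∈
      vspan W P v (insert a (insert b S)) := by
  induction hx using Submodule.span_induction with
  | mem x hx =>
    obtain ⟨j, hx⟩ := Set.mem_iUnion.1 hx
    induction hc using Submodule.span_induction with
    | mem c hc => exact Submodule.subset_span (MchV.pair hc ha hb hab (AS.of hx))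
    | zero => rw [mul_zero]; exact Submodule.zero_mem _
    | add c c' _ _ h h' => rw [mul_add]; exact Submodule.add_mem _ h h'
    | smul t c _ h => rw [mul_smul_comm]; exact Submodule.smul_mem _ _ h
  | zero => rw [map_zero, zero_mul]; exact Submodule.zero_mem _
  | add x x' _ _ h h' => rw [map_add, add_mul]; exact Submodule.add_mem _ h h'
  | smul t x _ h => rw [map_smul, smul_mul_assoc]; exact Submodule.smul_mem _ _ h

end Match

section Frob

variable {n : ℕ} {P : Fin (n + 1) → Polarized 𝒱} {f : ∀ a, (P a).X ⟶ (P a).X} {q : ℕ}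
  {v : ∀ a, W.H (P a).X}

/-- **Products of eigenvectors are linear combinations of products of algebraic classes on pairs
of factors and of the classes `v a`.** -/
theorem prod_mem_vspan (x : ∀ a, W.H (P a).X) (d : Fin (n + 1) → ℕ) (α : Fin (n + 1) → W.K)
    (hd : ∀ a, x a ∈ W.gr (P a).X (d a))
    (hsing : ∀ a, IsTateRel q {(d a, α a)} → x a ∈ algV W (v a))
    (hpair : ∀ a b, IsTateRel q {(d a, α a), (d b, α b)} →
      (ext W (x a) (x b) ∈ algSpan W ((P a).X.prod (P b).X)) ∨
        (x a ∈ algV W (v a) ∧ x b ∈ algV W (v b)))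
    {s : Multiset (ℕ × W.K)} (hs : PairGenerated q s) :
    ∀ l : List (Fin (n + 1)), l.Nodup → (l : Multiset (Fin (n + 1))).map
      (fun a => (d a, α a)) = s →
      (l.map (fun a => W.map (prj ops n P a) (x a))).prod ∈
        vspan W P v l.toFinset := by
  have hx : ∀ a, W.map (prj ops n P a) (x a) ∈
      W.gr (nest ops n P).X (d a) := fun a => W.map_mem _ (hd a)
  induction hs with
  | zero =>
    intro l _ hl
    have : l = [] := by
      rw [Multiset.map_eq_zero] at hl
      exact (Multiset.coe_eq_zero l).1 hl
    subst this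
    exact vspan_one
  | @single y s hy _ ih =>
    intro l hnd hl
    obtain ⟨a, ha, hya, hl'⟩ := (Multiset.map_eq_cons (fun a => (d a, α a)) _ _ _).2 hl
    rw [Multiset.coe_erase] at hl'
    have hperm : l.Perm (a :: l.erase a) := List.perm_cons_erase (Multiset.mem_coe.1 ha)
    obtain ⟨ε, hε⟩ := prod_perm _ d hx hperm
    rw [hε, List.map_cons, List.prod_cons, List.toFinset_eq_of_perm _ _ hperm,
      List.toFinset_cons]
    apply Submodule.smul_mem
    refine vspan_single (ih _ (hnd.erase a) hl') ?_ (hsing a ?_)
    · rw [List.mem_toFinset]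
      exact hnd.not_mem_erase
    · rw [hya]; exact hy
  | @pair y z s hyz _ ih =>
    intro l hnd hl
    obtain ⟨a, ha, hya, hl'⟩ := (Multiset.map_eq_cons (fun a => (d a, α a)) _ _ _).2 hl
    rw [Multiset.coe_erase] at hl'
    obtain ⟨b, hb, hzb, hl''⟩ := (Multiset.map_eq_cons (fun a => (d a, α a)) _ _ _).2 hl'
    rw [Multiset.coe_erase] at hl''
    have hb' : b ∈ l.erase a := Multiset.mem_coe.1 hb
    have hperm' : (l.erase a).Perm (b :: (l.erase a).erase b) := List.perm_cons_erase hb'
    have hperm : l.Perm (a :: b :: (l.erase a).erase b) :=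
      (List.perm_cons_erase (Multiset.mem_coe.1 ha)).trans (hperm'.cons a)
    have hnd' : (a :: b :: (l.erase a).erase b).Nodup := hperm.nodup_iff.1 hnd
    rw [List.nodup_cons, List.nodup_cons, List.mem_cons, not_or] at hnd'
    obtain ⟨ε, hε⟩ := prod_perm _ d hx hperm
    have e1 : prj ops n P a = Obj.lift (prj ops n P a)
        (prj ops n P b) ≫ fst (P a).X (P b).X := (Obj.lift_fst _ _).symm
    have e2 : prj ops n P b = Obj.lift (prj ops n P a)
        (prj ops n P b) ≫ snd (P a).X (P b).X := (Obj.lift_snd _ _).symm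
    have e3 : W.map (prj ops n P a) (x a) *
        W.map (prj ops n P b) (x b) =
        W.map (Obj.lift (prj ops n P a) (prj ops n P b)) (ext W (x a) (x b)) := by
      rw [H281R3.HT.ext, map_mul, ← W.map_comp, ← W.map_comp, ← e1, ← e2]
    have hna : a ∉ ((l.erase a).erase b).toFinset := by
      rw [List.mem_toFinset]
      exact hnd'.1.2
    have hnb : b ∉ ((l.erase a).erase b).toFinset := by
      rw [List.mem_toFinset]
      exact hnd'.2.1
    rw [hε, List.map_cons, List.prod_cons, List.map_cons, List.prod_cons,
      List.toFinset_eq_of_perm _ _ hperm, List.toFinset_cons, List.toFinset_cons]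
    apply Submodule.smul_mem
    rcases hpair a b (by rw [hya, hzb]; exact hyz) with h | ⟨h, h'⟩
    · rw [← mul_assoc, e3]
      exact vspan_pair (ih _ ((hnd.erase a).erase b) hl'') hna hnb hnd'.1.1 h
    · refine vspan_single (vspan_single (ih _ ((hnd.erase a).erase b) hl'') hnb h') ?_ h
      rw [Finset.mem_insert, not_or]
      exact ⟨hnd'.1.1, hna⟩

/-- The products of homogeneous eigenvectors satisfying the relation. -/
def GoodProd (W : WeilCohomology.{u, v} ops) (P : Fin (n + 1) → Polarized 𝒱)
    (f : ∀ a, (P a).X ⟶ (P a).X) (q : ℕ) : Set (W.H (nest ops n P).X) :=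
  {v | ∃ (x : ∀ a, W.H (P a).X) (d : Fin (n + 1) → ℕ) (α : Fin (n + 1) → W.K),
    (∀ a, x a ∈ W.gr (P a).X (d a)) ∧ (∀ a, x a ≠ 0) ∧
      (∀ a, W.map (f a) (x a) = α a • x a) ∧
      IsTateRel q (((List.finRange (n + 1) : List (Fin (n + 1))) :
          Multiset (Fin (n + 1))).map (fun a => (d a, α a))) ∧
      v = ((List.finRange (n + 1)).map (fun a => W.map (prj ops n P a) (x a))).prod}

/-- Tate classes are linear combinations of products of eigenvectors satisfying the relation. -/
theorem mem_goodProd (hf : ∀ a, Diagonalizable W (f a)) {j : ℕ} {c : W.H (nest ops n P).X}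
    (hc : c ∈ W.gr (nest ops n P).X (2 * j))
    (hF : ∃ m ≥ 1, (W.map (nestMap ops n P f))^[m] c = (q : W.K) ^ (m * j) • c) :
    c ∈ Submodule.span W.K (GoodProd W P f q) := by
  obtain ⟨m, hm, hcm⟩ := hF
  set T : Module.End W.K (W.H (nest ops n P).X) :=
    (W.map (nestMap ops n P f)).toLinearMap ^ m with hT'
  have hTa : ∀ v, T v = (W.map (nestMap ops n P f))^[m] v := by
    intro v
    rw [hT', Module.End.pow_apply]
    rfl
  have hphi : ∀ (x : ∀ a, W.H (P a).X) (α : Fin (n + 1) → W.K),
      (∀ a, W.map (f a) (x a) = α a • x a) →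
      T ((List.finRange (n + 1)).map (fun a => W.map (prj ops n P a) (x a))).prod =
        (((List.finRange (n + 1)).map α).prod) ^ m •
          ((List.finRange (n + 1)).map (fun a => W.map (prj ops n P a) (x a))).prod := by
    intro x α hα
    rw [hTa]
    apply iterate_eigen
    apply list_prod_eigen
    intro a
    rw [map_nestMap, hα, map_smul]
  have h1 : c ∈ Submodule.span W.K {v | v ∈ EigProd W P f ∧ T v = (q : W.K) ^ (m * j) • v} := by
    refine mem_span_eigen ?_ (span_eigProd hf) ((hTa c).trans hcm)
    rintro v ⟨x, d, α, hd, hα, rfl⟩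
    exact ⟨_, hphi x α hα⟩
  have key : ∀ v ∈ Submodule.span W.K
      {v | v ∈ EigProd W P f ∧ T v = (q : W.K) ^ (m * j) • v},
      H914.proj (W.isInternal (nest ops n P).X) (2 * j) v ∈
        Submodule.span W.K (GoodProd W P f q) := by
    intro v hv
    induction hv using Submodule.span_induction with
    | mem v hv =>
      obtain ⟨⟨x, d, α, hd, hα, rfl⟩, hTv⟩ := hv
      have hmem := list_prod_mem (fun a => W.map (prj ops n P a) (x a)) d
        (fun a => W.map_mem _ (hd a)) (List.finRange (n + 1))
      by_cases hv0 : ((List.finRange (n + 1)).map (fun a => W.map (prj ops n P a) (x a))).prod = 0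
      · rw [hv0, map_zero]
        exact Submodule.zero_mem _
      by_cases hj : ((List.finRange (n + 1)).map d).sum = 2 * j
      · rw [hj] at hmem
        rw [proj_same _ hmem]
        rw [hphi x α hα] at hTv
        have hαm := smul_left_injective W.K hv0 hTv
        have hx0 : ∀ a, x a ≠ 0 := by
          intro a ha
          apply hv0
          apply List.prod_eq_zero
          rw [List.mem_map]
          exact ⟨a, List.mem_finRange a, by rw [ha, map_zero]⟩
        refine Submodule.subset_span ⟨x, d, α, hd, hx0, hα, ⟨j, ?_, m, hm, ?_⟩, rfl⟩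
        · rw [Multiset.map_map, Multiset.map_coe, Multiset.sum_coe]
          exact hj
        · rw [Multiset.map_map, Multiset.map_coe, Multiset.prod_coe]
          exact hαm
      · rw [proj_ne _ hmem hj]
        exact Submodule.zero_mem _
    | zero => rw [map_zero]; exact Submodule.zero_mem _
    | add x y _ _ hx hy => rw [map_add]; exact Submodule.add_mem _ hx hy
    | smul t x _ hx => rw [map_smul]; exact Submodule.smul_mem _ _ hx
  have h2 := key c h1
  rwa [proj_same _ hc] at h2

end Frob

end Pool.Agent.W5h58.VL
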