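import Pool.Agent.W5h58.VL.Virt
import Pool.Agent.W536.RBase

/-!
# Varieties whose cohomology is the sum of a pull-back and of a vanishing part
-/

open CategoryTheory AlgebraicGeometry

universe u v w

namespace Pool.Agent.W5h58.VL

open Pool.Agent.H914 Pool.Agent.H914.VarClass Pool.Agent.H914.VarClass.Obj
  Pool.Agent.H914.WeilCohomology Pool.Agent.H281R3.HT Pool.Agent.H447 Pool.Agent.W552
open Pool.Agent.W536.RR (algSpan_mul algSpan_map algSpan_push algSpan_comm cl_mem_algSpan
  algSpan_induction)

variable {k : Type u} [Field k] {𝒱 : VarClass k} {ops : CycleOps 𝒱}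

/-- The cohomology of `X` is the sum of the pull-back of the cohomology of `Y` and of the subspace
`V` of the middle cohomology, on which the Gysin map is zero. -/
structure Split (W : WeilCohomology.{u, v} ops) {X Y : 𝒱.Obj} (mor : X ⟶ Y)
    (V : Submodule W.K (W.H X)) : Prop where
  gen : ∀ x, ∃ y, x - W.map mor y ∈ V
  deg : V ≤ W.gr X X.dim
  gys : ∀ x ∈ V, W.push mor x = 0

section

variable {W : WeilCohomology.{u, v} ops} {X Y : 𝒱.Obj} {mor : X ⟶ Y}
  {V : Submodule W.K (W.H X)}

lemma Split.orth (h : Split W mor V) {s : W.H X} (hs : s ∈ V) (y : W.H Y) :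
    W.tr X (s * W.map mor y) = 0 := by
  rw [← W.tr_push, h.gys s hs, zero_mul, map_zero]

lemma Split.orth' (h : Split W mor V) {s : W.H X} (hs : s ∈ V) (y : W.H Y) :
    W.tr X (W.map mor y * s) = 0 := by
  refine gr_induction (W.isInternal Y) (p := fun y => W.tr X (W.map mor y * s) = 0) ?_ ?_ y
  · intro j y hy
    rw [W.comm (W.map_mem mor hy) (h.deg hs), map_smul, h.orth hs, smul_zero]
  · intro a b ha hb
    rw [map_add, add_mul, map_add, ha, hb, add_zero]

lemma Split.nondeg (h : Split W mor V) {y : W.H Y}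
    (h0 : ∀ y', W.tr X (W.map mor y * W.map mor y') = 0) : W.map mor y = 0 := by
  apply W.nondeg
  intro b
  obtain ⟨y', hy'⟩ := h.gen b
  have e : b = W.map mor y' + (b - W.map mor y') := by abel
  rw [e, mul_add, map_add, h0, h.orth' hy', add_zero]

/-- Nondegeneracy on the vanishing part. -/
lemma Split.nondegV (h : Split W mor V) {s : W.H X} (hs : s ∈ V)
    (h0 : ∀ t ∈ V, W.tr X (s * t) = 0) : s = 0 := by
  apply W.nondeg
  intro b
  obtain ⟨y', hy'⟩ := h.gen b
  have e : b = W.map mor y' + (b - W.map mor y') := by abel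
  rw [e, mul_add, map_add, h.orth hs, h0 _ hy', add_zero]

end

section ImB

variable (Θ : Th ops) (W : WeilCohomology.{u, v} ops) {X Y : 𝒱.Obj} (mor : X ⟶ Y)

/-- Algebraic classes representing, in all the theories, a basis of the image of the cohomology of
`Y`, and the inverse of their Gram matrix. -/
structure ImB where
  I : Type v
  fin : Fintype I
  s : I → W.H X
  s' : I → ∀ i, (Θ.T i).H X
  ua : ∀ a, UA Θ W X (s a) (s' a)
  im : ∀ a, ∃ y, s a = W.map mor y
  im' : ∀ a i, ∃ y, s' a i = (Θ.T i).map mor y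
  H : I → I → ℚ
  rep : ∀ y, W.map mor y = ∑ a, ∑ b, ((H a b : W.K) * W.tr X (W.map mor y * s a)) • s b
  rep' : ∀ i, (∀ y : (Θ.T i).H Y, y ∈ algSpan (Θ.T i) Y) →
    (∃ V, Split (Θ.T i) mor V) → ∀ y, (Θ.T i).map mor y =
      ∑ a, ∑ b, ((H a b : (Θ.T i).K) * (Θ.T i).tr X ((Θ.T i).map mor y * s' a i)) • s' b i

attribute [instance] ImB.fin

variable {Θ W mor}

lemma exists_imB {V : Submodule W.K (W.H X)} (h : Split W mor V)
    (hY : ∀ y : W.H Y, y ∈ algSpan W Y) : Nonempty (ImB Θ W mor) := by
  classical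
  set A : Set (W.H X) := {x | ∃ j z, Y.IsCyc j z ∧ x = W.map mor (W.cl Y z)} with hA
  obtain ⟨S, hSA, hSspan, hSli⟩ := exists_linearIndependent W.K A
  have hfin : S.Finite := hSli.setFinite
  have := hfin.fintype
  have hSc : ∀ a : S, ∃ j z, Y.IsCyc j z ∧ (a : W.H X) = W.map mor (W.cl Y z) :=
    fun a => hSA a.2
  choose j z hz hsz using hSc
  have himA : ∀ y : W.H Y, W.map mor y ∈ Submodule.span W.K A := by
    intro y
    refine algSpan_induction (p := fun y => W.map mor y ∈ Submodule.span W.K A) ?_ ?_ ?_ ?_ (hY y)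
    · rw [map_zero]; exact Submodule.zero_mem _
    · intro a b ha hb
      rw [map_add]; exact Submodule.add_mem _ ha hb
    · intro c a ha
      rw [map_smul]; exact Submodule.smul_mem _ _ ha
    · intro j z hz
      exact Submodule.subset_span ⟨j, z, hz, rfl⟩
  have hua : ∀ a : S, UA Θ W X (a : W.H X) (fun i => (Θ.T i).map mor ((Θ.T i).cl Y (z a))) := by
    intro a
    rw [hsz a]
    exact (UA.of (hz a)).map mor
  have hgr : ∀ a b : S, ∃ q : ℚ, W.tr X ((a : W.H X) * (b : W.H X)) = q ∧
      ∀ i, (Θ.T i).tr X ((Θ.T i).map mor ((Θ.T i).cl Y (z a)) *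
        (Θ.T i).map mor ((Θ.T i).cl Y (z b))) = q := fun a b => ((hua a).mul (hua b)).tr
  choose g hg hg' using hgr
  set G : Matrix S S ℚ := Matrix.of g with hG
  have hdet : G.det ≠ 0 := by
    intro h0
    have h1 : (G.map (Rat.castHom W.K)).det = 0 := by
      have := congrArg (Rat.castHom W.K) h0
      rw [map_zero, RingHom.map_det] at this
      exact this
    have h1' : (G.map (Rat.castHom W.K)).transpose.det = 0 := by rw [Matrix.det_transpose, h1]
    obtain ⟨c, hc0, hc⟩ := Matrix.exists_mulVec_eq_zero_iff.2 h1'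
    apply hc0
    have hx : ∑ a : S, c a • (a : W.H X) = 0 := by
      have him : ∃ y, ∑ a : S, c a • (a : W.H X) = W.map mor y := by
        refine ⟨∑ a : S, c a • W.cl Y (z a), ?_⟩
        rw [map_sum]
        apply Finset.sum_congr rfl
        intro a _
        rw [map_smul, hsz a]
      obtain ⟨y, hy⟩ := him
      rw [hy]
      apply h.nondeg
      intro y'
      rw [← hy]
      have h2 := himA y'
      rw [← hSspan] at h2
      generalize W.map mor y' = x at h2
      induction h2 using Submodule.span_induction with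
      | mem x hx =>
        have h3 := congrFun hc ⟨x, hx⟩
        rw [Matrix.mulVec, dotProduct, Pi.zero_apply] at h3
        rw [Finset.sum_mul, map_sum, ← h3]
        apply Finset.sum_congr rfl
        intro a _
        rw [smul_mul_assoc, map_smul, hg a ⟨x, hx⟩, smul_eq_mul, mul_comm]
        rfl
      | zero => rw [mul_zero, map_zero]
      | add a b _ _ ha hb => rw [mul_add, map_add, ha, hb, add_zero]
      | smul c a _ ha => rw [mul_smul_comm, map_smul, ha, smul_zero]
    funext a
    exact Fintype.linearIndependent_iff.1 hSli c hx a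
  have hinv : ∀ b b' : S, ∑ a, G b' a * G⁻¹ a b = if b' = b then 1 else 0 := by
    intro b b'
    have h1 := Matrix.mul_nonsing_inv G (isUnit_iff_ne_zero.2 hdet)
    have h2 := congrFun (congrFun h1 b') b
    rw [Matrix.mul_apply, Matrix.one_apply] at h2
    exact h2
  have hrep : ∀ y, W.map mor y =
      ∑ a : S, ∑ b : S, ((G⁻¹ a b : W.K) * W.tr X (W.map mor y * (a : W.H X))) • (b : W.H X) := by
    intro y
    have h2 := himA y
    rw [← hSspan] at h2
    generalize W.map mor y = x at h2 ⊢
    induction h2 using Submodule.span_induction with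
    | mem x hx =>
      rw [Finset.sum_comm, Finset.sum_eq_single ⟨x, hx⟩]
      · rw [← Finset.sum_smul]
        have h3 : ∑ a : S, (G⁻¹ a ⟨x, hx⟩ : W.K) * W.tr X (x * (a : W.H X)) = 1 := by
          have h4 := hinv ⟨x, hx⟩ ⟨x, hx⟩
          rw [if_pos rfl] at h4
          have h5 := congrArg (Rat.cast (K := W.K)) h4
          rw [Rat.cast_sum, Rat.cast_one] at h5
          rw [← h5]
          apply Finset.sum_congr rfl
          intro a _
          rw [hg ⟨x, hx⟩ a, Rat.cast_mul, mul_comm]
          rfl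
        rw [h3, one_smul]
      · intro b _ hb
        rw [← Finset.sum_smul]
        have h3 : ∑ a : S, (G⁻¹ a b : W.K) * W.tr X (x * (a : W.H X)) = 0 := by
          have h4 := hinv b ⟨x, hx⟩
          rw [if_neg (Ne.symm hb)] at h4
          have h5 := congrArg (Rat.cast (K := W.K)) h4
          rw [Rat.cast_sum, Rat.cast_zero] at h5
          rw [← h5]
          apply Finset.sum_congr rfl
          intro a _
          rw [hg ⟨x, hx⟩ a, Rat.cast_mul, mul_comm]
          rfl
        rw [h3, zero_smul]
      · intro h0; exact absurd (Finset.mem_univ _) h0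
    | zero => simp
    | add x y _ _ hx hy =>
      conv_lhs => rw [hx, hy]
      rw [← Finset.sum_add_distrib]
      apply Finset.sum_congr rfl
      intro a _
      rw [← Finset.sum_add_distrib]
      apply Finset.sum_congr rfl
      intro b _
      rw [add_mul, map_add, mul_add, add_smul]
    | smul c x _ hx =>
      conv_lhs => rw [hx]
      rw [Finset.smul_sum]
      apply Finset.sum_congr rfl
      intro a _
      rw [Finset.smul_sum]
      apply Finset.sum_congr rfl
      intro b _
      rw [smul_smul, smul_mul_assoc, map_smul, smul_eq_mul]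
      congr 1
      ring
  refine ⟨{
    I := S
    fin := inferInstance
    s := fun a => (a : W.H X)
    s' := fun a i => (Θ.T i).map mor ((Θ.T i).cl Y (z a))
    ua := hua
    im := fun a => ⟨_, hsz a⟩
    im' := fun a i => ⟨_, rfl⟩
    H := fun a b => G⁻¹ a b
    rep := hrep
    rep' := ?_ }⟩
  rintro i hYi ⟨Vi, hVi⟩ y
  refine algSpan_induction (p := fun y => (Θ.T i).map mor y =
      ∑ a : S, ∑ b : S, ((G⁻¹ a b : (Θ.T i).K) * (Θ.T i).tr X ((Θ.T i).map mor y *
        (Θ.T i).map mor ((Θ.T i).cl Y (z a)))) • (Θ.T i).map mor ((Θ.T i).cl Y (z b)))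
    ?_ ?_ ?_ ?_ (hYi y)
  · simp
  · intro x y hx hy
    conv_lhs => rw [map_add, hx, hy]
    rw [← Finset.sum_add_distrib]
    apply Finset.sum_congr rfl
    intro a _
    rw [← Finset.sum_add_distrib]
    apply Finset.sum_congr rfl
    intro b _
    rw [map_add, add_mul, map_add, mul_add, add_smul]
  · intro c x hx
    conv_lhs => rw [map_smul, hx]
    rw [Finset.smul_sum]
    apply Finset.sum_congr rfl
    intro a _
    rw [Finset.smul_sum]
    apply Finset.sum_congr rfl
    intro b _
    rw [smul_smul, map_smul, smul_mul_assoc, map_smul, smul_eq_mul]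
    congr 1
    ring
  · intro jz z₀ hz₀
    have hux : UA Θ W X (W.map mor (W.cl Y z₀)) (fun i => (Θ.T i).map mor ((Θ.T i).cl Y z₀)) :=
      (UA.of hz₀).map mor
    have hq : ∀ a : S, ∃ q : ℚ, W.tr X (W.map mor (W.cl Y z₀) * (a : W.H X)) = q ∧
        ∀ i, (Θ.T i).tr X ((Θ.T i).map mor ((Θ.T i).cl Y z₀) *
          (Θ.T i).map mor ((Θ.T i).cl Y (z a))) = q := fun a => (hux.mul (hua a)).tr
    choose q hq hq' using hq
    -- the difference
    have key : ∀ t : Finset S, UA Θ W X (∑ a ∈ t, ∑ b : S, ((G⁻¹ a b * q a : ℚ) : W.K) • (b : W.H X))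
        (fun i => ∑ a ∈ t, ∑ b : S, ((G⁻¹ a b * q a : ℚ) : (Θ.T i).K) •
          (Θ.T i).map mor ((Θ.T i).cl Y (z b))) := by
      intro t
      have key2 : ∀ a, ∀ t' : Finset S, UA Θ W X (∑ b ∈ t', ((G⁻¹ a b * q a : ℚ) : W.K) •
          (b : W.H X)) (fun i => ∑ b ∈ t', ((G⁻¹ a b * q a : ℚ) : (Θ.T i).K) •
            (Θ.T i).map mor ((Θ.T i).cl Y (z b))) := by
        intro a t'
        induction t' using Finset.induction_on with
        | empty => simp only [Finset.sum_empty]; exact UA.zero
        | insert b t' hb ih =>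
          have := ((hua b).smul (G⁻¹ a b * q a)).add ih
          rw [Finset.sum_insert hb]
          convert this using 1
          funext i
          rw [Finset.sum_insert hb]
          rfl
      induction t using Finset.induction_on with
      | empty => simp only [Finset.sum_empty]; exact UA.zero
      | insert a t ha ih =>
        have := (key2 a Finset.univ).add ih
        rw [Finset.sum_insert ha]
        convert this using 1
        funext i
        rw [Finset.sum_insert ha]
        rfl
    have hδ := hux.add ((key Finset.univ).smul (-1))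
    have hδ0 : W.map mor (W.cl Y z₀) + ((-1 : ℚ) : W.K) • (∑ a : S, ∑ b : S,
        ((G⁻¹ a b * q a : ℚ) : W.K) • (b : W.H X)) = 0 := by
      have h1 := hrep (W.cl Y z₀)
      rw [Rat.cast_neg, Rat.cast_one, neg_one_smul, add_neg_eq_zero]
      conv_lhs => rw [h1]
      apply Finset.sum_congr rfl
      intro a _
      apply Finset.sum_congr rfl
      intro b _
      rw [hq, Rat.cast_mul]
    have himi : ∃ y, (Θ.T i).map mor ((Θ.T i).cl Y z₀) + ((-1 : ℚ) : (Θ.T i).K) •
        (∑ a : S, ∑ b : S, ((G⁻¹ a b * q a : ℚ) : (Θ.T i).K) •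
          (Θ.T i).map mor ((Θ.T i).cl Y (z b))) = (Θ.T i).map mor y := by
      refine ⟨(Θ.T i).cl Y z₀ + ((-1 : ℚ) : (Θ.T i).K) • (∑ a : S, ∑ b : S,
        ((G⁻¹ a b * q a : ℚ) : (Θ.T i).K) • (Θ.T i).cl Y (z b)), ?_⟩
      rw [map_add, map_smul, map_sum]
      congr 2
      apply Finset.sum_congr rfl
      intro a _
      rw [map_sum]
      apply Finset.sum_congr rfl
      intro b _
      rw [map_smul]
    obtain ⟨y₁, hy₁⟩ := himi
    have h0 : (Θ.T i).map mor y₁ = 0 := by
      apply hVi.nondeg
      intro y'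
      rw [← hy₁]
      refine algSpan_induction (p := fun y' => (Θ.T i).tr X (((Θ.T i).map mor ((Θ.T i).cl Y z₀) +
        ((-1 : ℚ) : (Θ.T i).K) • (∑ a : S, ∑ b : S, ((G⁻¹ a b * q a : ℚ) : (Θ.T i).K) •
          (Θ.T i).map mor ((Θ.T i).cl Y (z b)))) * (Θ.T i).map mor y') = 0) ?_ ?_ ?_ ?_ (hYi y')
      · rw [map_zero, mul_zero, map_zero]
      · intro a b ha hb
        rw [map_add, mul_add, map_add, ha, hb, add_zero]
      · intro c a ha
        rw [map_smul, mul_smul_comm, map_smul, ha, smul_zero]
      · intro j₁ z₁ hz₁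
        obtain ⟨t, ht, ht'⟩ := (hδ.mul ((UA.of hz₁).map mor)).tr
        rw [hδ0, zero_mul, map_zero] at ht
        have ht0 : t = 0 := by exact_mod_cast ht.symm
        have h3 := ht' i
        rw [ht0, Rat.cast_zero] at h3
        exact h3
    rw [h0, Rat.cast_neg, Rat.cast_one, neg_one_smul, add_neg_eq_zero] at hy₁
    conv_lhs => rw [hy₁]
    apply Finset.sum_congr rfl
    intro a _
    apply Finset.sum_congr rfl
    intro b _
    rw [hq', Rat.cast_mul]

end ImB

end Pool.Agent.W5h58.VL
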