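import Pool.Agent.W458.MF.PDefs
import Mathlib.NumberTheory.Padics.PadicNumbers

/-!
# The vanishing cohomology in the `l`-adic theories: definitions
-/

open CategoryTheory AlgebraicGeometry Polynomial

universe u v

namespace Pool.Agent.W5h58.Lif

open Pool.Agent.H914 Pool.Agent.W534 VarClass Obj WeilCohomology Pool.Agent.W458.MF
  Pool.Agent.H281R3.HT Pool.Agent.W552 Pool.Agent.W458.MF.Pol

section Abstract

variable {K H H' : Type*} [Field K] [Ring H] [Algebra K H] [Ring H'] [Algebra K H']

/-- The subspace `A` is the whole space. -/
def IsAll (A : Submodule K H) : Prop := ∀ x, x ∈ A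

/-- The element `x` is in the image of `f`. -/
def InImage (f : H' →ₐ[K] H) (x : H) : Prop := ∃ y, x = f y

/-- The vectors in the subspace `S` on which the operator `F` is the multiplication by a square
root of `q` are in `A`. -/
def RootsAlgebraic (F : H →ₐ[K] H) (S : Submodule K H) (q : ℕ) (A : Submodule K H) : Prop :=
  ∀ x ∈ S, ∀ ρ : K, ρ ^ 2 = (q : K) → F x = ρ • x → x ∈ A

variable [Module.Finite K H]

/-- The operator `F` has on the subspace `S` the characteristic polynomial `χ`. -/
def HasCharpoly (F : H →ₐ[K] H) (S : Submodule K H) (χ : ℤ[X]) : Prop :=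
  charpolyOn F.toLinearMap S = χ.map (Int.castRingHom K)

/-- The subspace `A` of `H'` is the whole space; the vectors `b i` are linearly independent, and
their span is a vanishing part of degree `d`, on which the operator `F` has the characteristic
polynomial `χ`, and `(-1) ^ n tr (b i · b j) = G i j`, `n = d / 2`. -/
structure IsRealization (pull : H' →ₐ[K] H) (push : H →ₗ[K] H') (gr : ℕ → Submodule K H) (d : ℕ)
    (F : H →ₐ[K] H) (tr : H →ₗ[K] K) (A : Submodule K H') (χ : ℤ[X]) {N : ℕ}
    (G : Matrix (Fin N) (Fin N) ℚ) (b : Fin N → H) : Prop where
  algebraic : IsAll A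
  independent : LinearIndependent K b
  vanishing : IsVanishingPart pull push gr d F (Submodule.span K (Set.range b))
    (χ.map (Int.castRingHom K))
  form : ∀ i j, (-1) ^ (d / 2) * tr (b i * b j) = (G i j : K)

end Abstract

/-- The field `K` can be embedded into the field of the `l`-adic numbers. -/
def IsPadic (K : Type*) [Field K] (l : ℕ) : Prop := ∀ [Fact l.Prime], Nonempty (K →+* ℚ_[l])

/-- The divisor `D` on the variety `obj` has a positive degree and satisfies the hard Lefschetz
theorem, `obj` satisfies the Riemann hypothesis, and the standard conjecture of Hodge type holds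
for the cycles on `obj` whose classes are pull-backs of classes on `Y`. If `e = 2`, or if `e = 1`
and `obj` is a surface, then it holds for all cycles on `obj` (for surfaces this is the Hodge index
theorem). If `e = 2`, then the eigenvectors of the Frobenius endomorphism `fr` in `sub` for the
eigenvalues `± p ^ (m dim obj / 2)` are linear combinations of algebraic classes (a case of the Tate
conjecture).

If `e = 1`, then there is a matrix `G` with rational coefficients and a **positive determinant**
such that in the theory `T l`, for all primes `l ≠ p` except finitely many, the cohomology of `Y` is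
spanned by classes of algebraic cycles, and the cohomology of `obj` has a vanishing part, on which
`fr` has the same characteristic polynomial as on `sub`, and which has a basis `b` with
`(-1) ^ n tr (b i · b j) = G i j`, `n = dim obj / 2`. (If `obj`, `Y` and the morphism to `Y` can be
lifted to characteristic zero, the morphism is finite, and the `T l` are the `l`-adic theories, then
take for `G` the matrix of the form `(-1) ^ n tr (x y)` in a basis of the vanishing cohomology of the
lift with rational coefficients; its determinant is positive, because by the Hodge-Riemann relations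
the negative part of the form is the sum of the Hodge components of the types `(a, 2 n - a)` with
`a - n` odd, so that its dimension is even.) -/
structure IsPolarization {k : Type u} [Field k] {𝒱 : VarClass k} {ops : CycleOps 𝒱}
    {W : WeilCohomology.{u, v} ops} (T : ℕ → WeilCohomology.{u, 0} ops) {Y : 𝒱.Obj}
    (P : Piece W Y) {p : ℕ} (Φ : FrobSystem W p) (m e : ℕ) (D : P.obj.Cycles) : Prop where
  div : P.obj.IsCyc 1 D
  degree : 0 < P.obj.V.degCycle (divPow ops D P.obj.dim P.obj.V.fundCycle)
  hardLef : HardLefschetz W P.obj D
  rh : RiemannHypothesis W P.obj (Φ.Fr P.obj) (p ^ Φ.e P.obj)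
  hodge : HodgeTypeFor W P.obj D (fun x =>
    (e = 0 ∨ (e = 1 ∧ P.obj.dim ≠ 2)) → InImage (W.map P.mor) x)
  tate : e = 2 → RootsAlgebraic (W.map P.fr) P.sub (p ^ (P.obj.dim * m)) (algSpan W P.obj)
  form : e = 1 → ∃ (χ : ℤ[X]) (N : ℕ) (G : Matrix (Fin N) (Fin N) ℚ),
    HasCharpoly (W.map P.fr) P.sub χ ∧ 0 < G.det ∧
      {l : ℕ | l.Prime ∧ l ≠ p ∧ ¬ ∃ b, IsRealization ((T l).map P.mor) ((T l).push P.mor)
        ((T l).gr P.obj) P.obj.dim ((T l).map P.fr) ((T l).tr P.obj) (algSpan (T l) Y) χ G b}.Finite

end Pool.Agent.W5h58.Lif
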